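import Pool.Agent.Lib.MP_7ed9c3_nt.Zs.Spec

/-!
# MP_7ed9c3_nt, Zs: the logarithm on a ball
-/

set_option autoImplicit false

namespace MP7ed9c3.Zs

open Filter Topology Metric

/-- a holomorphic logarithm on a ball -/
theorem logballz_exists {F : ℂ → ℂ} {w : ℂ} {R : ℝ} (hR : 0 < R)
    (hF : DifferentiableOn ℂ F (ball w R)) (hne : ∀ z ∈ ball w R, F z ≠ 0) :
    ∃ g : ℂ → ℂ, DifferentiableOn ℂ g (ball w R) ∧ ∀ z ∈ ball w R, Complex.exp (g z) = F z := by
  have hda : ∀ z ∈ ball w R, DifferentiableAt ℂ F z := fun z hz =>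
    hF.differentiableAt (isOpen_ball.mem_nhds hz)
  have hd : DifferentiableOn ℂ (fun z => deriv F z / F z) (ball w R) := by
    apply DifferentiableOn.div
    · exact hF.deriv isOpen_ball
    · exact hF
    · exact hne
  have hw : w ∈ ball w R := mem_ball_self hR
  obtain ⟨g, hg0, hg⟩ := hd.isExactOn_ball.with_val_at w (Complex.log (F w))
  have hgd : DifferentiableOn ℂ g (ball w R) := fun z hz =>
    (hg z hz).differentiableAt.differentiableWithinAt
  refine ⟨g, hgd, ?_⟩
  have hconst : ∀ z ∈ ball w R, F z * Complex.exp (-g z) = 1 := by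
    have hder : ∀ z ∈ ball w R, HasDerivAt (fun z => F z * Complex.exp (-g z)) 0 z := by
      intro z hz
      have h2 : HasDerivAt (fun z => F z * Complex.exp (-g z))
          (deriv F z * Complex.exp (-g z) +
            F z * (Complex.exp (-g z) * (-(deriv F z / F z)))) z :=
        (hda z hz).hasDerivAt.mul ((hg z hz).neg.cexp)
      have hne' := hne z hz
      have e : deriv F z * Complex.exp (-g z) +
            F z * (Complex.exp (-g z) * (-(deriv F z / F z))) = 0 := by
        field_simp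
        ring
      rwa [e] at h2
    intro z hz
    have h3 := isOpen_ball.is_const_of_deriv_eq_zero (convex_ball w R).isPreconnected
      (f := fun z => F z * Complex.exp (-g z)) (fun w hw =>
        (hder w hw).differentiableAt.differentiableWithinAt) (fun w hw => (hder w hw).deriv)
      hz hw
    rw [h3, hg0, Complex.exp_neg, Complex.exp_log (hne w hw), mul_inv_cancel₀ (hne w hw)]
  intro z hz
  have := hconst z hz
  rw [Complex.exp_neg] at this
  have he := Complex.exp_ne_zero (g z)
  field_simp at this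
  exact this.symm

/-- a continuous function on an interval with `exp = 1` is constant -/
theorem logballz_const {h : ℝ → ℂ} {a b : ℝ} (hh : ContinuousOn h (Set.Icc a b))
    (h1 : ∀ t ∈ Set.Icc a b, Complex.exp (h t) = 1) {s t : ℝ} (hs : s ∈ Set.Icc a b)
    (ht : t ∈ Set.Icc a b) : h s = h t := by
  have hint : ∀ t ∈ Set.Icc a b, ∃ n : ℤ, h t = n * (2 * Real.pi * Complex.I) := fun t ht =>
    Complex.exp_eq_one_iff.1 (h1 t ht)
  have hpi := Real.pi_pos
  set r : ℝ → ℝ := fun t => (h t).im / (2 * Real.pi) with hr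
  have hrc : ContinuousOn r (Set.Icc a b) :=
    (Complex.continuous_im.comp_continuousOn hh).div_const _
  have hrn : ∀ t ∈ Set.Icc a b, ∀ n : ℤ, h t = n * (2 * Real.pi * Complex.I) → r t = n := by
    intro t _ n hn
    simp only [hr]
    rw [hn]
    have : ((n : ℂ) * (2 * Real.pi * Complex.I)).im = n * (2 * Real.pi) := by
      have e : ((n : ℂ) * (2 * Real.pi * Complex.I)) =
          ((n * (2 * Real.pi) : ℝ) : ℂ) * Complex.I := by push_cast; ring
      rw [e, Complex.im_ofReal_mul, Complex.I_im, mul_one]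
    rw [this]
    field_simp
  have key : ∀ s ∈ Set.Icc a b, ∀ t ∈ Set.Icc a b, ¬ (r s < r t) := by
    intro s hs t ht hlt
    obtain ⟨n, hn⟩ := hint s hs
    obtain ⟨m, hm⟩ := hint t ht
    have h2 := hrn s hs n hn
    have h3 := hrn t ht m hm
    rw [h2, h3] at hlt
    have hnm : n + 1 ≤ m := by exact_mod_cast hlt
    have hnm' : (n : ℝ) + 1 ≤ m := by exact_mod_cast hnm
    have h4 := isPreconnected_Icc.intermediate_value hs ht hrc
    obtain ⟨c, hc, hc'⟩ := h4 (show (n : ℝ) + 1 / 2 ∈ Set.Icc (r s) (r t) by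
      rw [h2, h3]
      exact ⟨by linarith, by linarith⟩)
    obtain ⟨k, hk⟩ := hint c hc
    rw [hrn c hc k hk] at hc'
    have h5 : (2 * k : ℝ) = 2 * n + 1 := by linarith
    have h6 : 2 * k = 2 * n + 1 := by exact_mod_cast h5
    omega
  have h2 : r s = r t := le_antisymm (not_lt.1 (key t ht s hs)) (not_lt.1 (key s hs t ht))
  obtain ⟨n, hn⟩ := hint s hs
  obtain ⟨m, hm⟩ := hint t ht
  rw [hrn s hs n hn, hrn t ht m hm] at h2
  have h3 : n = m := by exact_mod_cast h2
  rw [hn, hm, h3]

/-- **E12.** -/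
theorem logballz : S_LogBall := by
  intro F L w R x x' U V B t₀ hx'0 hx'x hx3 hU hV hF hne hFV hball hL hLB
  have hU' : |t₀ - t₀| ≤ U := by rwa [sub_self, abs_zero]
  have hρ : 0 < 3 - x' := by linarith
  have hmem : ∀ t : ℝ, |t - t₀| ≤ U → (3 + t * Complex.I : ℂ) ∈ ball w R := fun t ht =>
    hball t ht (mem_ball_self hρ)
  have hR : 0 < R := by
    have := hmem t₀ hU'
    exact dist_nonneg.trans_lt (mem_ball.1 this)
  obtain ⟨g, hgd, hg⟩ := logballz_exists hR hF hne
  set h : ℝ → ℂ := fun t => g (3 + t * Complex.I) - L (3 + t * Complex.I) with hh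
  have hIcc : ∀ t ∈ Set.Icc (t₀ - U) (t₀ + U), |t - t₀| ≤ U := fun t ht => by
    rw [abs_le]
    exact ⟨by linarith [ht.1], by linarith [ht.2]⟩
  have hIcc' : ∀ t : ℝ, |t - t₀| ≤ U → t ∈ Set.Icc (t₀ - U) (t₀ + U) := fun t ht => by
    rw [abs_le] at ht
    exact ⟨by linarith [ht.1], by linarith [ht.2]⟩
  have hhc : ContinuousOn h (Set.Icc (t₀ - U) (t₀ + U)) := by
    refine ContinuousOn.sub ?_ hL
    refine hgd.continuousOn.comp (Continuous.continuousOn (by fun_prop)) ?_
    intro t ht
    exact hmem t (hIcc t ht)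
  have hh1 : ∀ t ∈ Set.Icc (t₀ - U) (t₀ + U), Complex.exp (h t) = 1 := by
    intro t ht
    simp only [hh]
    rw [Complex.exp_sub, hg _ (hmem t (hIcc t ht)), (hLB t (hIcc t ht)).1,
      div_self (Complex.exp_ne_zero _)]
  have ht₀ : t₀ ∈ Set.Icc (t₀ - U) (t₀ + U) := ⟨by linarith, by linarith⟩
  refine ⟨fun z => g z - h t₀, hgd.sub_const _, ?_, ?_⟩
  · intro t ht
    have h2 := logballz_const hhc hh1 (hIcc' t ht) ht₀
    show g (3 + t * Complex.I) - h t₀ = L (3 + t * Complex.I)
    rw [← h2]
    simp only [hh]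
    ring
  · intro s hxs hs3 hst
    set z₀ : ℂ := 3 + s.im * Complex.I with hz₀
    have hexpG : ∀ z ∈ ball w R, Complex.exp (g z - h t₀) = F z := by
      intro z hz
      rw [Complex.exp_sub, hg z hz, hh1 t₀ ht₀, div_one]
    have hGz₀ : g z₀ - h t₀ = L z₀ := by
      have h2 := logballz_const hhc hh1 (hIcc' s.im hst) ht₀
      rw [← h2]
      simp only [hh, hz₀]
      ring
    have hsz : s - z₀ = ((s.re - 3 : ℝ) : ℂ) := by
      apply Complex.ext
      · simp [hz₀]
      · simp [hz₀]
    have hns : ‖s - z₀‖ = 3 - s.re := by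
      rw [hsz, Complex.norm_real, Real.norm_eq_abs, abs_sub_comm, abs_of_nonneg (by linarith)]
    have hmemball : s ∈ ball z₀ (3 - x') := by
      rw [mem_ball, dist_eq_norm, hns]
      linarith
    have hsub := hball s.im hst
    refine ⟨hsub hmemball, ?_⟩
    -- Borel-Caratheodory
    set φ : ℂ → ℂ := fun z => (g (z₀ + z) - h t₀) - (g z₀ - h t₀) with hφ
    have hmaps : ∀ z ∈ ball (0 : ℂ) (3 - x'), z₀ + z ∈ ball w R := by
      intro z hz
      refine hsub ?_
      rw [mem_ball, dist_eq_norm]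
      rw [mem_ball, dist_zero_right] at hz
      rwa [show 3 + (s.im : ℂ) * Complex.I = z₀ from rfl, add_sub_cancel_left]
    have hφd : DifferentiableOn ℂ φ (ball 0 (3 - x')) := by
      refine DifferentiableOn.sub_const ?_ _
      refine DifferentiableOn.sub_const ?_ _
      refine hgd.comp (Differentiable.differentiableOn (by fun_prop)) ?_
      intro z hz
      exact hmaps z hz
    have hB0 : 0 ≤ B := (norm_nonneg _).trans (hLB t₀ hU').2
    have hM : 0 < V + B + 1 := by linarith
    have hre : ∀ z ∈ ball w R, (g z - h t₀).re ≤ V := by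
      intro z hz
      have h2 := hFV z hz
      rw [← hexpG z hz, Complex.norm_exp] at h2
      exact Real.exp_le_exp.1 h2
    have hz₀B : ‖g z₀ - h t₀‖ ≤ B := by
      rw [hGz₀]
      exact (hLB s.im hst).2
    have hφm : Set.MapsTo φ (ball 0 (3 - x')) {z | z.re ≤ V + B + 1} := by
      intro z hz
      show (φ z).re ≤ V + B + 1
      simp only [hφ]
      rw [Complex.sub_re]
      have h2 := hre _ (hmaps z hz)
      have h3 := (neg_le_abs _).trans ((Complex.abs_re_le_norm (g z₀ - h t₀)).trans hz₀B)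
      linarith
    have hz : (s - z₀) ∈ ball (0 : ℂ) (3 - x') := by
      rw [mem_ball, dist_zero_right, hns]
      linarith
    have hBC := Complex.borelCaratheodory_zero hM hφd hφm hρ hz (by simp [hφ])
    have hφs : φ (s - z₀) = (g s - h t₀) - (g z₀ - h t₀) := by
      simp only [hφ]
      rw [add_sub_cancel]
    rw [hφs, hns] at hBC
    have h2 : 2 * (V + B + 1) * (3 - s.re) / (3 - x' - (3 - s.re)) ≤
        6 * (V + B + 1) / (x - x') := by
      have h3 : 3 - x' - (3 - s.re) = s.re - x' := by ring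
      rw [h3]
      have h4 : 0 < x - x' := by linarith
      have h5 : x - x' ≤ s.re - x' := by linarith
      calc 2 * (V + B + 1) * (3 - s.re) / (s.re - x') ≤ 6 * (V + B + 1) / (s.re - x') := by
            apply div_le_div_of_nonneg_right _ (by linarith)
            nlinarith
        _ ≤ 6 * (V + B + 1) / (x - x') := by
            apply div_le_div_of_nonneg_left (by positivity) h4 h5
    have h6 : ‖g s - h t₀‖ ≤ ‖(g s - h t₀) - (g z₀ - h t₀)‖ + ‖g z₀ - h t₀‖ := by
      have := norm_add_le ((g s - h t₀) - (g z₀ - h t₀)) (g z₀ - h t₀)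
      rwa [sub_add_cancel] at this
    show ‖g s - h t₀‖ ≤ _
    linarith

end MP7ed9c3.Zs
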