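import Pool.Agent.Lib.MP_7ed9c3_nt.Zs.Spec

/-!
# MP_7ed9c3_nt, Zs: the logarithm of the Euler product on `Re s = 3`
-/

set_option autoImplicit false

namespace MP7ed9c3.Zs

open NumberField IsDedekindDomain Filter Topology

theorem seriesz_pow (q : ℕ) (s : ℂ) (j : ℕ) :
    ((q ^ j : ℕ) : ℂ) ^ s = ((q : ℂ) ^ s) ^ j := by
  induction j with
  | zero => simp
  | succ j ih =>
    rw [pow_succ, Nat.cast_mul, Complex.natCast_mul_natCast_cpow, ih, pow_succ]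

theorem seriesz_ratio {q : ℕ} (hq : 2 ≤ q) :
    ((q : ℝ) + 1) / (q : ℝ) ^ 3 ≤ 3 / 2 / (q : ℝ) ^ 2 ∧ 3 / 2 / (q : ℝ) ^ 2 ≤ 3 / 8 := by
  have hq2 : (2 : ℝ) ≤ q := by exact_mod_cast hq
  have hq0 : (0 : ℝ) < q := by linarith
  constructor
  · rw [div_le_div_iff₀ (by positivity) (by positivity)]
    have : ((q : ℝ) + 1) * (q : ℝ) ^ 2 ≤ (3 / 2 * q) * (q : ℝ) ^ 2 :=
      mul_le_mul_of_nonneg_right (by linarith) (by positivity)
    calc ((q : ℝ) + 1) * (q : ℝ) ^ 2 ≤ (3 / 2 * q) * (q : ℝ) ^ 2 := this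
      _ = 3 / 2 * (q : ℝ) ^ 3 := by ring
  · rw [div_le_iff₀ (by positivity)]
    nlinarith

theorem seriesz_term {q : ℕ} (hq : 2 ≤ q) {a b : ℂ} (ha : ‖a‖ ≤ q + 1) (hb : ‖b‖ ≤ q + 1)
    (j : ℕ) : ‖(a ^ (j + 1) + b ^ (j + 1)) / ((j : ℂ) + 1)‖ / (((q ^ (j + 1) : ℕ) : ℝ)) ^ 3 ≤
      2 * (3 / 2 / (q : ℝ) ^ 2) ^ (j + 1) := by
  have hq2 : (2 : ℝ) ≤ q := by exact_mod_cast hq
  have hq0 : (0 : ℝ) < q := by linarith
  have h1 : ‖(a ^ (j + 1) + b ^ (j + 1)) / ((j : ℂ) + 1)‖ ≤ 2 * ((q : ℝ) + 1) ^ (j + 1) := by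
    rw [norm_div]
    have h2 : ‖(j : ℂ) + 1‖ = (j : ℝ) + 1 := by
      have : ((j : ℂ) + 1) = ((j + 1 : ℕ) : ℂ) := by push_cast; rfl
      rw [this, Complex.norm_natCast]
      push_cast
      rfl
    rw [h2, div_le_iff₀ (by positivity)]
    have h3 : ‖a ^ (j + 1) + b ^ (j + 1)‖ ≤ 2 * ((q : ℝ) + 1) ^ (j + 1) := by
      refine (norm_add_le _ _).trans ?_
      rw [norm_pow, norm_pow]
      have h4 := pow_le_pow_left₀ (norm_nonneg a) ha (j + 1)
      have h5 := pow_le_pow_left₀ (norm_nonneg b) hb (j + 1)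
      linarith
    refine h3.trans (le_mul_of_one_le_right (by positivity) ?_)
    have : (0 : ℝ) ≤ j := Nat.cast_nonneg j
    linarith
  have h6 : (((q ^ (j + 1) : ℕ) : ℝ)) ^ 3 = ((q : ℝ) ^ 3) ^ (j + 1) := by
    push_cast
    rw [← pow_mul, ← pow_mul, mul_comm]
  rw [h6]
  calc ‖(a ^ (j + 1) + b ^ (j + 1)) / ((j : ℂ) + 1)‖ / ((q : ℝ) ^ 3) ^ (j + 1) ≤
      2 * ((q : ℝ) + 1) ^ (j + 1) / ((q : ℝ) ^ 3) ^ (j + 1) :=
        div_le_div_of_nonneg_right h1 (by positivity)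
    _ = 2 * (((q : ℝ) + 1) / (q : ℝ) ^ 3) ^ (j + 1) := by
        rw [div_pow]
        ring
    _ ≤ 2 * (3 / 2 / (q : ℝ) ^ 2) ^ (j + 1) := by
        refine mul_le_mul_of_nonneg_left ?_ (by norm_num)
        exact pow_le_pow_left₀ (by positivity) (seriesz_ratio hq).1 (j + 1)

theorem seriesz_log {z : ℂ} (hz : ‖z‖ < 1) :
    HasSum (fun j : ℕ => z ^ (j + 1) / ((j : ℂ) + 1)) (-Complex.log (1 - z)) := by
  have h1 := Complex.hasSum_taylorSeries_neg_log hz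
  have h2 := (hasSum_nat_add_iff' 1).mpr h1
  simp only [Finset.range_one, Finset.sum_singleton, pow_zero, Nat.cast_zero, div_zero,
    sub_zero] at h2
  refine h2.congr_fun ?_ |> id
  intro j
  push_cast
  rfl

/-- **E8.** -/
theorem seriesz : S_Series := by
  intro K _ _ α β M hloc hb
  obtain ⟨C, hC⟩ := countPrimes K
  have hq2 : ∀ v : HeightOneSpectrum (𝓞 K), 2 ≤ nm v := hC.1
  have hterm : ∀ i : HeightOneSpectrum (𝓞 K) × ℕ,
      ‖tauE α β i‖ / (lamE K i : ℝ) ^ 3 ≤ 2 * (3 / 2 / (nm i.1 : ℝ) ^ 2) ^ (i.2 + 1) := fun i =>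
    seriesz_term (hq2 i.1) (hb i.1).1 (hb i.1).2 i.2
  have hgeo : ∀ v : HeightOneSpectrum (𝓞 K),
      HasSum (fun j : ℕ => 2 * (3 / 2 / (nm v : ℝ) ^ 2) ^ (j + 1))
        (2 * (3 / 2 / (nm v : ℝ) ^ 2) * (1 - 3 / 2 / (nm v : ℝ) ^ 2)⁻¹) := by
    intro v
    have h0 : 0 ≤ 3 / 2 / (nm v : ℝ) ^ 2 := by positivity
    have h1 := (seriesz_ratio (hq2 v)).2
    have h2 := (hasSum_geometric_of_lt_one h0 (by linarith)).mul_left (2 * (3 / 2 / (nm v : ℝ) ^ 2))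
    refine h2.congr_fun ?_ |> id
    intro j
    rw [pow_succ]
    ring
  have hsum : Summable (fun i => ‖tauE α β i‖ / (lamE K i : ℝ) ^ 3) := by
    have hs2 : Summable fun i : HeightOneSpectrum (𝓞 K) × ℕ =>
        2 * (3 / 2 / (nm i.1 : ℝ) ^ 2) ^ (i.2 + 1) := by
      rw [summable_prod_of_nonneg (fun i => by positivity)]
      refine ⟨fun v => (hgeo v).summable, ?_⟩
      have h3 := a9_summable sparseSums hC (24 / 5)
      refine Summable.of_nonneg_of_le (fun v => tsum_nonneg fun j => by positivity) (fun v => ?_) h3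
      rw [(hgeo v).tsum_eq]
      have h0 : 0 ≤ 3 / 2 / (nm v : ℝ) ^ 2 := by positivity
      have h1 := (seriesz_ratio (hq2 v)).2
      have h4 : (1 - 3 / 2 / (nm v : ℝ) ^ 2)⁻¹ ≤ 8 / 5 := by
        rw [inv_le_comm₀ (by linarith) (by norm_num)]
        linarith
      calc 2 * (3 / 2 / (nm v : ℝ) ^ 2) * (1 - 3 / 2 / (nm v : ℝ) ^ 2)⁻¹ ≤
          2 * (3 / 2 / (nm v : ℝ) ^ 2) * (8 / 5) := mul_le_mul_of_nonneg_left h4 (by positivity)
        _ = 24 / 5 / (nm v : ℝ) ^ 2 := by ring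
    exact Summable.of_nonneg_of_le (fun i => by positivity) hterm hs2
  refine ⟨hsum, fun s hs => ?_⟩
  -- the double series
  have hnorm : ∀ i : HeightOneSpectrum (𝓞 K) × ℕ,
      ‖tauE α β i * (lamE K i : ℂ) ^ (-s)‖ = ‖tauE α β i‖ / (lamE K i : ℝ) ^ 3 := by
    intro i
    have hpos : 0 < lamE K i := by
      have := hq2 i.1
      exact pow_pos (by omega) _
    rw [norm_mul, Complex.norm_natCast_cpow_of_pos hpos, Complex.neg_re, hs,
      show (-(3 : ℝ)) = -((3 : ℕ) : ℝ) by norm_num, Real.rpow_neg (Nat.cast_nonneg _),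
      Real.rpow_natCast]
    rfl
  have hS : Summable fun i => tauE α β i * (lamE K i : ℂ) ^ (-s) :=
    Summable.of_norm (by simp_rw [hnorm]; exact hsum)
  have hzn : ∀ (v : HeightOneSpectrum (𝓞 K)) (a : ℂ), ‖a‖ ≤ nm v + 1 →
      ‖a * (nm v : ℂ) ^ (-s)‖ < 1 := by
    intro v a ha
    have hq := hq2 v
    rw [norm_mul, Complex.norm_natCast_cpow_of_pos (by omega), Complex.neg_re, hs,
      show (-(3 : ℝ)) = -((3 : ℕ) : ℝ) by norm_num, Real.rpow_neg (Nat.cast_nonneg _),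
      Real.rpow_natCast]
    have h1 := seriesz_ratio hq
    have h2 : ‖a‖ * ((nm v : ℝ) ^ 3)⁻¹ ≤ ((nm v : ℝ) + 1) / (nm v : ℝ) ^ 3 := by
      rw [div_eq_mul_inv]
      exact mul_le_mul_of_nonneg_right ha (by positivity)
    linarith [h1.1, h1.2]
  have hfib : ∀ v : HeightOneSpectrum (𝓞 K),
      HasSum (fun j : ℕ => tauE α β (v, j) * (lamE K (v, j) : ℂ) ^ (-s))
        (-Complex.log (1 - α v * (nm v : ℂ) ^ (-s)) + -Complex.log (1 - β v * (nm v : ℂ) ^ (-s))) := by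
    intro v
    have h1 := (seriesz_log (hzn v (α v) (hb v).1)).add (seriesz_log (hzn v (β v) (hb v).2))
    refine h1.congr_fun ?_ |> id
    intro j
    simp only [tauE, lamE]
    rw [seriesz_pow, mul_pow, mul_pow]
    ring
  have h1 := hS.hasSum.prod_fiberwise hfib
  have h2 := h1.cexp
  have h3 : (Complex.exp ∘ fun v : HeightOneSpectrum (𝓞 K) =>
      -Complex.log (1 - α v * (nm v : ℂ) ^ (-s)) + -Complex.log (1 - β v * (nm v : ℂ) ^ (-s))) =
      fun v => (locDen (M v) v s)⁻¹ := by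
    funext v
    simp only [Function.comp_apply]
    have hne : ∀ a : ℂ, ‖a‖ ≤ nm v + 1 → 1 - a * (nm v : ℂ) ^ (-s) ≠ 0 := by
      intro a ha h0
      have h4 := hzn v a ha
      rw [sub_eq_zero] at h0
      rw [← h0, norm_one] at h4
      exact lt_irrefl _ h4
    rw [Complex.exp_add, Complex.exp_neg, Complex.exp_neg, Complex.exp_log (hne _ (hb v).1),
      Complex.exp_log (hne _ (hb v).2), hloc v s, mul_inv]
  rw [h3] at h2
  rw [h2.tprod_eq]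
  rfl

end MP7ed9c3.Zs
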