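import Pool.Agent.Lib.MP_7ed9c3_nt.Zr.Edge

/-!
# MP_7ed9c3_nt, part Zs: zeros in the strip (statements)

`n = [K : ℚ]`, `σ₁ < 1/2 + 1/(4n)`.  There are `κ`, `V₀` such that for every `V ≥ V₀` and every real `t₀`:
a function which is holomorphic and at most `e^V` in absolute value in the box `Re s > σ₁`,
`|Im s - t₀| < V^κ` and agrees with the Euler product of `E/K` for `Re s > 3/2` has a zero in the box.

Idea: if there is no zero, then `G = log F` exists, `|G| ≤ C V` on the slightly smaller line `Re s = σ`, and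
a mean value theorem gives `∑_{m ≤ N} |c_m|² m^(-2σ) ≤ C V²`, `c_m` the coefficients of `log L(E,s)`, where
`N` is a small power of the height of the box.  But for every good prime `p` some power
`m = p^k`, `k ≤ 2n`, has `|c_m| ≥ m^(1/2)/(2n)` (Newton's identities), so the sum is at least a power of
`N` if `σ < 1/2 + 1/(4n)`.

Every statement is a separate module; the complete proof is in the docstring.
-/

set_option autoImplicit false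

namespace MP7ed9c3.Zs

open NumberField IsDedekindDomain Filter Topology MeasureTheory

/-- The series `∑ τ_i λ_i^(-s)`. -/
noncomputable def ser {ι : Type} (lam : ι → ℕ) (τ : ι → ℂ) (s : ℂ) : ℂ :=
  ∑' i, τ i * (lam i : ℂ) ^ (-s)

/-- The coefficient of `m^(-s)` in `ser`. -/
noncomputable def coef {ι : Type} (lam : ι → ℕ) (τ : ι → ℂ) (m : ℕ) : ℂ :=
  ∑' i, if lam i = m then τ i else 0

/-- The Gaussian weight `exp(((x-3) + i u)²/h²)`, `h = N²`. -/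
noncomputable def wt (N : ℕ) (x u : ℝ) : ℂ :=
  Complex.exp (((x - 3 : ℝ) + u * Complex.I) ^ 2 / (N : ℂ) ^ 4)

/-- The mean value of `G(s) m^s` on the line `Re s = x` against the weight, `|Im s - t₀| ≤ N³`. -/
noncomputable def avg (G : ℂ → ℂ) (N m : ℕ) (x t₀ : ℝ) : ℂ :=
  (∫ u in (-(N : ℝ) ^ 3)..((N : ℝ) ^ 3), G (x + (t₀ + u) * Complex.I) *
    (m : ℂ) ^ (x + (t₀ + u) * Complex.I : ℂ) * wt N x u) / ((N : ℂ) ^ 2 * (√Real.pi : ℝ))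

/-- The rectangle `[x, 3] × [t₀ - N³, t₀ + N³]`. -/
def rect (N : ℕ) (x t₀ : ℝ) : Set ℂ := {s : ℂ | x ≤ s.re ∧ s.re ≤ 3 ∧ |s.im - t₀| ≤ (N : ℝ) ^ 3}

/-- **E1, the line `Re s = 3`.**

Proof.  `h = N²`, `U = N³`.  On `Re s = 3` the weight is `exp(-u²/h²)`, real.  Interchange sum and integral
(everything is continuous, `|τ_i λ_i^(-s)| = |τ_i|/λ_i³`):
`avg = ∑ τ_i λ_i^(-3-i t₀) m^(3+i t₀) I(m/λ_i)`, `I(x) = (1/(h √π)) ∫_{-U}^U x^(iu) exp(-u²/h²) du`.  The full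
integral over `ℝ` is `exp(-h² (log x)²/4)` (Fourier transform of the Gaussian), the tails are at most
`(1/(h√π)) ∫_{|u|>U} exp(-u²/h²) du ≤ √2 exp(-U²/(2h²)) = √2 exp(-N²/2)` (`exp(-u²/h²) ≤
exp(-U²/(2h²)) exp(-u²/(2h²))` there).  If `λ_i = m` the full integral is `1` and the factor
`λ_i^(-s) m^s` is `1`; if `λ_i ≠ m`, then `|log(m/λ_i)| ≥ 1/(2N)` (`log(1+1/k) ≥ 1/(k+1)`, `m ≤ N`), so the full
integral is at most `exp(-N²/16)`.  Together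
`|avg - coef| ≤ ∑ (|τ_i|/λ_i³) m³ (√2 exp(-N²/2) + exp(-N²/16)) ≤ B N³ · 3 exp(-N²/16) ≤ K₁ B/N`
(`y² exp(-y/16)` is bounded; for `y = N²`). -/
def S_Line : Prop :=
  ∃ K₁ : ℝ, 0 ≤ K₁ ∧ ∀ (ι : Type) (lam : ι → ℕ) (τ : ι → ℂ) (B : ℝ), (∀ i, 1 ≤ lam i) →
    Summable (fun i => ‖τ i‖ / (lam i : ℝ) ^ 3) → ∑' i, ‖τ i‖ / (lam i : ℝ) ^ 3 ≤ B →
    ∀ (N m : ℕ) (t₀ : ℝ), 1 ≤ m → m ≤ N →
      ‖avg (ser lam τ) N m 3 t₀ - coef lam τ m‖ ≤ K₁ * B / N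

/-- **E2, moving the line.**

Proof.  `Ψ(s) = G(s) m^s exp((s - s₂)²/h²)`, `s₂ = 3 + i t₀`, is holomorphic on the rectangle, and the two
`avg` are the integrals over its vertical sides (`s - s₂ = (x-3) + iu`) divided by `h √π`.  By Cauchy's
theorem (`Complex.integral_boundary_rect_eq_zero_of_differentiableOn`) their difference is at most
`(1/(h√π))` times the two horizontal integrals, where
`|Ψ| ≤ M m³ exp(((x-3)² - U²)/h²) ≤ M N³ exp(9) exp(-N²)` (`U²/h² = N²`, `h ≥ 1`); so at most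
`2 · 3 · M N³ e⁹ exp(-N²)/N² ≤ K₂ M/N` (`N² exp(-N²) ≤ 1`). -/
def S_Rect : Prop :=
  ∃ K₂ : ℝ, 0 ≤ K₂ ∧ ∀ (G : ℂ → ℂ) (x M t₀ : ℝ) (N m : ℕ), 0 < x → x < 3 → 1 ≤ m → m ≤ N →
    DifferentiableOn ℂ G (rect N x t₀) → (∀ s ∈ rect N x t₀, ‖G s‖ ≤ M) →
    ‖avg G N m x t₀ - avg G N m 3 t₀‖ ≤ K₂ * M / N

/-- **E3, duality.**

Proof.  `h = N²`, `U = N³`, `Q = ∑_{m ∈ S} |c_m|² m^(-2x)`,
`D(u) = ∑_{m ∈ S} conj(c_m) m^(-2x) m^(x + i(t₀+u))`.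
(1) `(1/(h√π)) ∫_ℝ |D(u)|² exp(-u²/h²) du = ∑_{m, m'} conj(c_m) c_{m'} (m m')^(-x) (m/m')^(i t₀)
exp(-h² (log(m/m'))²/4)`.  For `m ≠ m'` the last factor is at most `exp(-N²/16)` (as in E1), so the sum is at most
`Q + exp(-N²/16) (∑ |c_m| m^(-x))² ≤ Q + exp(-N²/16) N Q ≤ 3 Q` (`exp(-y) ≤ 1/(1+y)`,
`N/(1+N²/16) ≤ 2`).
(2) `∑_m conj(c_m) m^(-2x) avg_m = (1/(h√π)) ∫_{-U}^U G D wt`, `|wt| ≤ e⁹ exp(-u²/h²)`, so with
`|D| ≤ (√(3Q) + |D|²/√(3Q))/2` it is at most `e⁹ M √(3Q)` in absolute value.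
(3) `|∑_m conj(c_m) m^(-2x) (avg_m - c_m)| ≤ (D'/N) ∑ |c_m| m^(-x) ≤ (D'/N) √(N Q) ≤ D' √Q`.
So `Q ≤ √3 e⁹ M √Q + D' √Q`, `√Q ≤ √3 e⁹ M + D'`. -/
def S_Dual : Prop :=
  ∃ K₃ : ℝ, 0 ≤ K₃ ∧ ∀ (G : ℂ → ℂ) (c : ℕ → ℂ) (x M D' t₀ : ℝ) (N : ℕ) (S : Finset ℕ),
    0 < x → x < 3 → 1 ≤ N → 0 ≤ M → 0 ≤ D' →
    ContinuousOn (fun u : ℝ => G (x + (t₀ + u) * Complex.I)) (Set.Icc (-(N : ℝ) ^ 3) ((N : ℝ) ^ 3)) →
    (∀ u ∈ Set.Icc (-(N : ℝ) ^ 3) ((N : ℝ) ^ 3), ‖G (x + (t₀ + u) * Complex.I)‖ ≤ M) →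
    (∀ m ∈ S, 1 ≤ m ∧ m ≤ N ∧ ‖avg G N m x t₀ - c m‖ ≤ D' / N) →
    ∑ m ∈ S, ‖c m‖ ^ 2 * (m : ℝ) ^ (-(2 * x)) ≤ (K₃ * (M + D')) ^ 2

/-- **E4, the mean value theorem** (from E1, E2, E3).

Proof.  `avg G 3 = avg (ser) 3` because the functions agree on the line; E3 with `c = coef lam τ`,
`D' = K₂ M + K₁ B`. -/
def S_Core : Prop :=
  ∃ K₄ : ℝ, 0 ≤ K₄ ∧ ∀ (ι : Type) (lam : ι → ℕ) (τ : ι → ℂ) (B : ℝ), (∀ i, 1 ≤ lam i) →
    Summable (fun i => ‖τ i‖ / (lam i : ℝ) ^ 3) → ∑' i, ‖τ i‖ / (lam i : ℝ) ^ 3 ≤ B →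
    ∀ (G : ℂ → ℂ) (x M t₀ : ℝ) (N : ℕ) (S : Finset ℕ), 0 < x → x < 3 → 1 ≤ N →
      DifferentiableOn ℂ G (rect N x t₀) → (∀ s ∈ rect N x t₀, ‖G s‖ ≤ M) →
      (∀ t : ℝ, |t - t₀| ≤ (N : ℝ) ^ 3 → G (3 + t * Complex.I) = ser lam τ (3 + t * Complex.I)) →
      (∀ m ∈ S, 1 ≤ m ∧ m ≤ N) →
      ∑ m ∈ S, ‖coef lam τ m‖ ^ 2 * (m : ℝ) ^ (-(2 * x)) ≤ (K₄ * (M + B)) ^ 2

/-- The power sum of the local roots. -/
noncomputable def psum {J : Type} (s : Finset J) (f : J → ℕ) (α β : J → ℂ) (k : ℕ) : ℂ :=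
  ∑ j ∈ s, if f j ∣ k then (f j : ℂ) * (α j ^ (k / f j) + β j ^ (k / f j)) else 0

/-- **E5, Newton's identities.**

Proof.  `P(X) = ∏_j (1 - α_j X^(f_j)) (1 - β_j X^(f_j)) = ∑ e_k X^k`, a polynomial of degree
`d = 2 ∑ f_j` with `e_0 = 1`, `e_d = ∏ α_j β_j`, `|e_d| = p^(d/2)`.  As formal power series
`-X P'(X) = P(X) ∑_{k ≥ 1} psum_k X^k` (product rule, and for one factor
`X d/dX (1 - αX^f) = -f α X^f`, `(1 - αX^f) ∑_{j ≥ 1} α^j X^(fj) = α X^f`).  So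
`-k e_k = ∑_{i=1}^k psum_i e_{k-i}`.  Suppose `|psum_i| < p^(i/2)` for `1 ≤ i ≤ d`.  Then by induction
`|e_k| ≤ p^(k/2)` for `k ≤ d`, with `<` for `k ≥ 1`: `k |e_k| < ∑_{i=1}^k p^(i/2) p^((k-i)/2) = k p^(k/2)`.  For
`k = d` (`d ≥ 2`) this contradicts `|e_d| = p^(d/2)`. -/
def S_Newton : Prop :=
  ∀ (J : Type) (s : Finset J) (f : J → ℕ) (α β : J → ℂ) (p : ℝ), 0 < p → s.Nonempty →
    (∀ j ∈ s, 1 ≤ f j ∧ ‖α j‖ = √(p ^ f j) ∧ ‖β j‖ = √(p ^ f j)) →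
    ∃ k : ℕ, 1 ≤ k ∧ k ≤ 2 * ∑ j ∈ s, f j ∧ √(p ^ k) ≤ ‖psum s f α β k‖

/-- `s` is the set of the primes of `K` over `p`, `f` the residue degree. -/
def Over {K : Type} [Field K] [NumberField K] (p : ℕ) (s : Finset (HeightOneSpectrum (𝓞 K)))
    (f : HeightOneSpectrum (𝓞 K) → ℕ) : Prop :=
  (∀ v ∈ s, 1 ≤ f v ∧ nm v = p ^ f v) ∧ ∀ (v : HeightOneSpectrum (𝓞 K)) (k : ℕ), nm v = p ^ k → v ∈ s

/-- **E6, the primes over `p`.**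

Proof.  `s` is the set of `v` with `p ∈ v.asIdeal` (finite: `N5.finite_mem`); `nm v` is a power of `p`
(`Z3.nm_pow`), with exponent `≥ 1` as `nm v ≥ 2` (`N1.exists_prime`); if `nm v = p^k` then
`p^k ∈ v.asIdeal` (`Ideal.absNorm_mem`), so `p ∈ v.asIdeal` (prime ideal; `k ≥ 1` or `1 ∈ v`).  Not empty: a maximal ideal
over `p` (`p` is not a unit of `𝓞 K`).  The distinct primes `v ∈ s` divide `(p)`, so does their product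
(`Finset.prod_dvd_of_coprime` or `Finset.prod_primes_dvd`), so by multiplicativity of the norm
`∏ p^(f v)` divides `N((p)) = p^n` (see `Z3.nm_pow`), so `∑ f v ≤ n`. -/
def S_Over : Prop :=
  ∀ (K : Type) [Field K] [NumberField K] (p : ℕ), p.Prime →
    ∃ (s : Finset (HeightOneSpectrum (𝓞 K))) (f : HeightOneSpectrum (𝓞 K) → ℕ), Over p s f ∧
      s.Nonempty ∧ ∑ v ∈ s, f v ≤ Module.finrank ℚ K

/-- The norms `(nm v)^(j+1)`. -/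
noncomputable def lamE (K : Type) [Field K] [NumberField K] : HeightOneSpectrum (𝓞 K) × ℕ → ℕ :=
  fun i => nm i.1 ^ (i.2 + 1)

/-- The coefficients of the logarithm of the Euler product. -/
noncomputable def tauE {K : Type} [Field K] [NumberField K] (α β : HeightOneSpectrum (𝓞 K) → ℂ) :
    HeightOneSpectrum (𝓞 K) × ℕ → ℂ :=
  fun i => (α i.1 ^ (i.2 + 1) + β i.1 ^ (i.2 + 1)) / ((i.2 : ℂ) + 1)

/-- **E7, the roots of the Euler factors.**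

Proof.  `q = nm v`, `a = tr (M v) v`, `g = 1` or `0` according to the reduction, `w² = a² - 4 g q`,
`α = (a+w)/2`, `β = (a-w)/2`: `α + β = a`, `α β = g q`, and `q^(1-2s) = q (q^(-s))²`.  `|a| ≤ q`
(`traceBoundAll`), `|w|² ≤ q² + 4q ≤ (q+2)²`, so `|α|, |β| ≤ q + 1`.  Outside a finite set `|a| ≤ 2√q` and
`g = 1` (see the proof of `Z5.trace_const`: `S` there is `{v | W₀.Δ ∈ v ∨ 6 ∈ v}`, and `goodDataAll` gives
`(M v).Δ ∉ v.asIdeal`); there `w² ≤ 0` is real, so `w` is purely imaginary, `|α|² = |β|² = (a² + |w|²)/4 = q`. -/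
def S_Roots : Prop :=
  ∀ (K : Type) [Field K] [NumberField K] (E : WeierstrassCurve K), E.IsElliptic →
    ∀ M : HeightOneSpectrum (𝓞 K) → WeierstrassCurve (𝓞 K), (∀ v, IsMinAt E v (M v)) →
    ∃ (α β : HeightOneSpectrum (𝓞 K) → ℂ) (X : Set (HeightOneSpectrum (𝓞 K))), X.Finite ∧
      (∀ (v : HeightOneSpectrum (𝓞 K)) (s : ℂ), locDen (M v) v s =
        (1 - α v * (nm v : ℂ) ^ (-s)) * (1 - β v * (nm v : ℂ) ^ (-s))) ∧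
      (∀ v, ‖α v‖ ≤ nm v + 1 ∧ ‖β v‖ ≤ nm v + 1) ∧
      ∀ v ∉ X, ‖α v‖ = √(nm v) ∧ ‖β v‖ = √(nm v)

/-- **E8, the logarithm of the Euler product on `Re s = 3`.**

Proof.  `q = nm v ≥ 2`: `|τ_(v,j)|/λ³ ≤ 2 ((q+1)/q³)^(j+1) ≤ 2 ((3/2) q^(-2))^(j+1)` with ratio `≤ 3/8`, so the sum
over `j` is at most `5 q^(-2)`, summable over `v` (`a9_summable sparseSums`, `countPrimes`).  For `Re s = 3`:
`|α q^(-s)| ≤ 3/8 < 1`, `∑_j τ_(v,j) λ^(-s) = -log(1 - α q^(-s)) - log(1 - β q^(-s))`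
(`Complex.hasSum_taylorSeries_neg_log`), whose exponential is `locDen⁻¹`; sum over `v`
(`HasSum.prod_fiberwise` or `Summable.tsum_prod`, `HasSum.cexp`). -/
def S_Series : Prop :=
  ∀ (K : Type) [Field K] [NumberField K] (α β : HeightOneSpectrum (𝓞 K) → ℂ)
    (M : HeightOneSpectrum (𝓞 K) → WeierstrassCurve (𝓞 K)),
    (∀ (v : HeightOneSpectrum (𝓞 K)) (s : ℂ), locDen (M v) v s =
        (1 - α v * (nm v : ℂ) ^ (-s)) * (1 - β v * (nm v : ℂ) ^ (-s))) →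
    (∀ v, ‖α v‖ ≤ nm v + 1 ∧ ‖β v‖ ≤ nm v + 1) →
    Summable (fun i => ‖tauE α β i‖ / (lamE K i : ℝ) ^ 3) ∧
    ∀ s : ℂ, s.re = 3 → ∏' v : HeightOneSpectrum (𝓞 K), (locDen (M v) v s)⁻¹ =
      Complex.exp (ser (lamE K) (tauE α β) s)

/-- **E9, the coefficient at a prime power.**

Proof.  `(nm v)^(j+1) = p^k` if and only if `v ∈ s` and `f v (j+1) = k` (if the product is a power of `p`, so is
`nm v`, then use `Over`).  So the sum has the terms `(v, k/f v - 1)`, `v ∈ s`, `f v ∣ k`, each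
`(α^(k/f) + β^(k/f)) f/k`. -/
def S_Coef : Prop :=
  ∀ (K : Type) [Field K] [NumberField K] (α β : HeightOneSpectrum (𝓞 K) → ℂ) (p : ℕ), p.Prime →
    ∀ (s : Finset (HeightOneSpectrum (𝓞 K))) (f : HeightOneSpectrum (𝓞 K) → ℕ), Over p s f →
      ∀ k : ℕ, 1 ≤ k → coef (lamE K) (tauE α β) (p ^ k) = psum s f α β k / k

/-- **E10, the number of primes.**

Proof.  `Chebyshev.pi_ge`: `π(P) ≥ (P log 2 - log(P+1))/log P`, and `log P = o(P^ε)`. -/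
def S_Count : Prop :=
  ∀ ε C : ℝ, 0 < ε → ∃ P₀ : ℕ, ∀ P : ℕ, P₀ ≤ P → (P : ℝ) ^ (1 - ε) + C ≤ Nat.primeCounting P

/-- **E11, the lower bound** (from E5, E6, E9, E10).

Proof.  `n = [K : ℚ]`.  The `p` under a prime of `X` are finitely many.  For every other `p` there is by E5,
E6, E9 a `k(p)`, `1 ≤ k(p) ≤ 2n`, with `|c_m| ≥ p^(k/2)/k ≥ p^(k/2)/(2n)` for `m = p^(k(p))`.  (`nm v = p^(f v)`, so
`‖α v‖ = √(p^(f v))`.)  Let `S` be the set of these `m` for the `p ≤ P`; `p ↦ p^(k(p))` is injective.  The sum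
over `S` is at least `(1/4n²) ∑_{p ≤ P} p^(k(1-2x)) ≥ (1/4n²) (π(P) - C) P^(-2n(2x-1))` (`x > 1/2`).  By
E10 it is at least `(1/4n²) P^(1-ε-2n(2x-1))`, and `2n(2x-1) < 1`: take `ε = (1 - 2n(2x-1))/3 = η`, so it is at
least `(1/4n²) P^(2η) ≥ P^η` for large `P`. -/
def S_Lower : Prop :=
  ∀ (K : Type) [Field K] [NumberField K] (α β : HeightOneSpectrum (𝓞 K) → ℂ)
    (X : Set (HeightOneSpectrum (𝓞 K))), X.Finite →
    (∀ v ∉ X, ‖α v‖ = √(nm v) ∧ ‖β v‖ = √(nm v)) →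
    ∀ x : ℝ, 1 / 2 < x → x < 1 / 2 + 1 / (4 * (Module.finrank ℚ K : ℝ)) →
      ∃ (η : ℝ) (P₀ : ℕ), 0 < η ∧ ∀ P : ℕ, P₀ ≤ P → ∃ S : Finset ℕ,
        (∀ m ∈ S, 1 ≤ m ∧ m ≤ P ^ (2 * Module.finrank ℚ K)) ∧
        (P : ℝ) ^ η ≤ ∑ m ∈ S, ‖coef (lamE K) (tauE α β) m‖ ^ 2 * (m : ℝ) ^ (-(2 * x))

/-- **E12, the logarithm on a ball and its size.**

Proof.  `F` has a logarithm `g` on the ball `ball w R` (as in `Zr.logz_exists`, a primitive of `F'/F`).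
`L` is continuous on the segment `{3 + it, |t - t₀| ≤ U}`, `exp(g) = exp(L)` there, so `g - L` is a
constant in `2πi ℤ` (connectedness); subtract it: `G`.  For `s` with `x ≤ Re s ≤ 3`, `|Im s - t₀| ≤ U`: the
ball of radius `3 - x'` around `z₀ = 3 + i Im s` is in `ball w R`, there `Re G = log|F| ≤ V`, `|G(z₀)| ≤ B`; by
Borel-Caratheodory (`Complex.borelCaratheodory_zero` for `G(z₀ + z) - G(z₀)`, see `LogZ.lean`)
`|G(s)| ≤ B + 2 (V + B + 1) (3 - x)/((3 - x') - (3 - x)) ≤ B + 6 (V + B + 1)/(x - x')`. -/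
def S_LogBall : Prop :=
  ∀ (F L : ℂ → ℂ) (w : ℂ) (R x x' U V B t₀ : ℝ), 0 < x' → x' < x → x < 3 → 0 ≤ U → 0 ≤ V →
    DifferentiableOn ℂ F (Metric.ball w R) → (∀ z ∈ Metric.ball w R, F z ≠ 0) →
    (∀ z ∈ Metric.ball w R, ‖F z‖ ≤ Real.exp V) →
    (∀ t : ℝ, |t - t₀| ≤ U → Metric.ball (3 + t * Complex.I) (3 - x') ⊆ Metric.ball w R) →
    ContinuousOn (fun t : ℝ => L (3 + t * Complex.I)) (Set.Icc (t₀ - U) (t₀ + U)) →
    (∀ t : ℝ, |t - t₀| ≤ U → F (3 + t * Complex.I) = Complex.exp (L (3 + t * Complex.I)) ∧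
      ‖L (3 + t * Complex.I)‖ ≤ B) →
    ∃ G : ℂ → ℂ, DifferentiableOn ℂ G (Metric.ball w R) ∧
      (∀ t : ℝ, |t - t₀| ≤ U → G (3 + t * Complex.I) = L (3 + t * Complex.I)) ∧
      ∀ s : ℂ, x ≤ s.re → s.re ≤ 3 → |s.im - t₀| ≤ U →
        s ∈ Metric.ball w R ∧ ‖G s‖ ≤ B + 6 * (V + B + 1) / (x - x')

/-- **E13, zeros in a box** (from E4, E7, E8, E11, E12).

Proof.  `b = 1/2 + 1/(4n)`, `a = max σ₁ (1/2) < b`, `x' = (2a + b)/3`, `x = (a + 2b)/3`; `η`, `P₀` from E11.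
For `V` large let `P = ⌈V^(3/η)⌉`, `N = P^(2n)`, `U = N³`, `X = 4 + (U+3)²/(x'-a)`, `w = X + i t₀`, `R = X - a`.
`κ = 36n/η + 1`: for large `V`, `X ≤ V^κ`.  Suppose `F` has no zero in the box.  `ball w R` is contained in the box
(`Re s > a ≥ σ₁`, `|Im s - t₀| < X`).  The balls of radius `3 - x'` around `3 + it`, `|t - t₀| ≤ U`, consist of
points `z` with `x' < Re z < 6`, `|Im z - t₀| < U + 3`, so are contained in `ball w R`: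
`R² - |z - w|² = (Re z - a)(2X - a - Re z) - (Im z - t₀)² ≥ (x'-a)(2X - 7) - (U+3)² > 0`.
`L = ser lamE tauE` (E8) is continuous on `Re s = 3` and bounded by `B = ∑ |τ|/λ³`.  E12: `G` on the ball,
`|G| ≤ M = B + 6(V+B+1)/(x-x')` on the rectangle.  E4 and E11: `V³ ≤ P^η ≤ (K₄ (M+B))² ≤ C (V+1)²`:
contradiction for large `V`. -/
def S_Box : Prop :=
  ∀ (K : Type) [Field K] [NumberField K] (E : WeierstrassCurve K), E.IsElliptic →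
    ∀ M : HeightOneSpectrum (𝓞 K) → WeierstrassCurve (𝓞 K), (∀ v, IsMinAt E v (M v)) →
    ∀ σ₁ : ℝ, σ₁ < 1 / 2 + 1 / (4 * (Module.finrank ℚ K : ℝ)) → ∃ κ V₀ : ℝ, ∀ V t₀ : ℝ, V₀ ≤ V →
      ∀ F : ℂ → ℂ, DifferentiableOn ℂ F {s : ℂ | σ₁ < s.re ∧ |s.im - t₀| < V ^ κ} →
        (∀ s : ℂ, σ₁ < s.re → |s.im - t₀| < V ^ κ → ‖F s‖ ≤ Real.exp V) →
        (∀ s : ℂ, 3 / 2 < s.re → |s.im - t₀| < V ^ κ →
          F s = ∏' v : HeightOneSpectrum (𝓞 K), (locDen (M v) v s)⁻¹) →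
        ∃ ρ : ℂ, σ₁ < ρ.re ∧ |ρ.im - t₀| < V ^ κ ∧ F ρ = 0

/-- **E14, zeros of a continuation of polynomial growth** (from E13, `Zr.edgez`).

Proof.  For large `T` let `V = (|A| + 2) log T` and `t₀ = T + V^κ` (`κ` from E13, may be increased to be `≥ 1`; then
`V^κ ≥ V ≥ 1`).  In the box: `Im s > T ≥ T₀`, `Im s < T + 2 V^κ ≤ 2T`; if `Re s ≥ 2` then `|F| ≤ B`
(`Zr.edgez`), if `σ₁ < Re s < 2` then `‖s‖ ≤ 2T + 2 + |σ₁| ≤ 3T` and `|F| ≤ |C| (3T)^|A|`.  Both are at most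
`exp V` for large `T`.  The zero has `T < Im ρ < T + 2 V^κ ≤ T + (log T)^(κ+1)`. -/
def S_Strip : Prop :=
  ∀ (K : Type) [Field K] [NumberField K] (E : WeierstrassCurve K), E.IsElliptic →
    ∀ M : HeightOneSpectrum (𝓞 K) → WeierstrassCurve (𝓞 K), (∀ v, IsMinAt E v (M v)) →
    ∀ (F : ℂ → ℂ) (σ₁ T₀ C A : ℝ), σ₁ < 1 / 2 + 1 / (4 * (Module.finrank ℚ K : ℝ)) →
      DifferentiableOn ℂ F {s : ℂ | σ₁ < s.re ∧ T₀ < s.im} →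
      (∀ s : ℂ, σ₁ < s.re → T₀ < s.im → ‖F s‖ ≤ C * ‖s‖ ^ A) →
      (∀ s : ℂ, 3 / 2 < s.re → T₀ < s.im →
        F s = ∏' v : HeightOneSpectrum (𝓞 K), (locDen (M v) v s)⁻¹) →
      ∃ B T₁ : ℝ, ∀ T : ℝ, T₁ ≤ T → ∃ ρ : ℂ, F ρ = 0 ∧ σ₁ < ρ.re ∧ T ≤ ρ.im ∧
        ρ.im ≤ T + Real.log T ^ B

end MP7ed9c3.Zs
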