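import Pool.Agent.Lib.MP_7ed9c3_nt.Zs.Spec

/-!
# MP_7ed9c3_nt, Zs: the lower bound for the coefficients
-/

set_option autoImplicit false

namespace MP7ed9c3.Zs

open NumberField IsDedekindDomain Filter Topology

/-- a good prime has a power with a large coefficient -/
theorem lowerz_one (h5 : S_Newton) (h6 : S_Over) (h9 : S_Coef) {K : Type} [Field K]
    [NumberField K] (α β : HeightOneSpectrum (𝓞 K) → ℂ) (X : Set (HeightOneSpectrum (𝓞 K)))
    (hX : ∀ v ∉ X, ‖α v‖ = √(nm v) ∧ ‖β v‖ = √(nm v)) (p : ℕ) (hp : p.Prime)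
    (hpX : ∀ v ∈ X, ∀ k : ℕ, nm v ≠ p ^ k) :
    ∃ k : ℕ, 1 ≤ k ∧ k ≤ 2 * Module.finrank ℚ K ∧
      √((p : ℝ) ^ k) / (2 * Module.finrank ℚ K) ≤ ‖coef (lamE K) (tauE α β) (p ^ k)‖ := by
  obtain ⟨s, f, hover, hne, hsum⟩ := h6 K p hp
  have hp0 : (0 : ℝ) < p := by exact_mod_cast hp.pos
  obtain ⟨k, hk1, hk2, hk3⟩ := h5 (HeightOneSpectrum (𝓞 K)) s f α β (p : ℝ) hp0 hne
    (fun v hv => by
      obtain ⟨h1, h2⟩ := hover.1 v hv
      have hvX : v ∉ X := fun h => hpX v h (f v) h2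
      obtain ⟨h3, h4⟩ := hX v hvX
      have h7 : (nm v : ℝ) = (p : ℝ) ^ f v := by
        rw [h2]
        push_cast
        rfl
      rw [h7] at h3 h4
      exact ⟨h1, h3, h4⟩)
  have hk4 : k ≤ 2 * Module.finrank ℚ K := hk2.trans (Nat.mul_le_mul_left 2 hsum)
  refine ⟨k, hk1, hk4, ?_⟩
  rw [h9 K α β p hp s f hover k hk1, norm_div, Complex.norm_natCast]
  have hk0 : (0 : ℝ) < k := by exact_mod_cast hk1
  have hk5 : (k : ℝ) ≤ 2 * Module.finrank ℚ K := by exact_mod_cast hk4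
  calc √((p : ℝ) ^ k) / (2 * Module.finrank ℚ K) ≤ √((p : ℝ) ^ k) / k :=
        div_le_div_of_nonneg_left (Real.sqrt_nonneg _) hk0 hk5
    _ ≤ ‖psum s f α β k‖ / k := div_le_div_of_nonneg_right hk3 hk0.le

/-- **E11.** -/
theorem lowerz (h5 : S_Newton) (h6 : S_Over) (h9 : S_Coef) (h10 : S_Count) : S_Lower := by
  classical
  intro K _ _ α β X hXfin hX x hx1 hx2
  set n : ℕ := Module.finrank ℚ K with hn
  have hn1 : 1 ≤ n := Module.finrank_pos
  have hn0 : (0 : ℝ) < n := by exact_mod_cast hn1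
  -- the bad primes
  set Y : Finset ℕ := hXfin.toFinset.image fun v => (nm v).minFac with hY
  have hYp : ∀ p : ℕ, p.Prime → p ∉ Y → ∀ v ∈ X, ∀ k : ℕ, nm v ≠ p ^ k := by
    intro p hp hpY v hv k hk
    refine hpY (Finset.mem_image.2 ⟨v, hXfin.mem_toFinset.2 hv, ?_⟩)
    have h2 := (N1.exists_prime v).1
    have hk0 : k ≠ 0 := by
      rintro rfl
      rw [hk, pow_zero] at h2
      omega
    rw [hk, hp.pow_minFac hk0]
  have hex : ∀ p : ℕ, ∃ k : ℕ, p.Prime → p ∉ Y → 1 ≤ k ∧ k ≤ 2 * n ∧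
      √((p : ℝ) ^ k) / (2 * n) ≤ ‖coef (lamE K) (tauE α β) (p ^ k)‖ := by
    intro p
    by_cases h : p.Prime ∧ p ∉ Y
    · obtain ⟨k, h1, h2, h3⟩ := lowerz_one h5 h6 h9 α β X hX p h.1 (hYp p h.1 h.2)
      exact ⟨k, fun _ _ => ⟨h1, h2, h3⟩⟩
    · exact ⟨0, fun h1 h2 => absurd ⟨h1, h2⟩ h⟩
  choose kk hkk using hex
  set δ : ℝ := 1 - 2 * n * (2 * x - 1) with hδ
  have hδ0 : 0 < δ := by
    have h1 : x - 1 / 2 < 1 / (4 * (n : ℝ)) := by linarith
    rw [lt_div_iff₀ (by positivity)] at h1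
    rw [hδ]
    nlinarith
  set η : ℝ := δ / 3 with hη
  have hη0 : 0 < η := by positivity
  obtain ⟨P₁, hP₁⟩ := h10 η (Y.card : ℝ) hη0
  have htend := (tendsto_rpow_atTop hη0).comp (tendsto_natCast_atTop_atTop (R := ℝ))
  obtain ⟨P₂, hP₂⟩ := eventually_atTop.1 (htend.eventually_ge_atTop (4 * (n : ℝ) ^ 2))
  refine ⟨η, max (max P₁ P₂) 1, hη0, fun P hP => ?_⟩
  have hPP₁ : P₁ ≤ P := (le_max_left _ _).trans ((le_max_left _ _).trans hP)
  have hPP₂ : P₂ ≤ P := (le_max_right _ _).trans ((le_max_left _ _).trans hP)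
  have hP1 : 1 ≤ P := (le_max_right _ _).trans hP
  have hP0 : (0 : ℝ) < P := by exact_mod_cast hP1
  set G : Finset ℕ := ((Finset.range (P + 1)).filter Nat.Prime) \ Y with hG
  have hGm : ∀ p ∈ G, p.Prime ∧ p ∉ Y ∧ p ≤ P := by
    intro p hp
    rw [hG, Finset.mem_sdiff, Finset.mem_filter, Finset.mem_range] at hp
    exact ⟨hp.1.2, hp.2, by omega⟩
  have hinj : Set.InjOn (fun p => p ^ kk p) (G : Set ℕ) := by
    intro p hp q hq hpq
    obtain ⟨hp1, hp2, _⟩ := hGm p hp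
    obtain ⟨hq1, hq2, _⟩ := hGm q hq
    have h1 := (hkk p hp1 hp2).1
    have hpq' : p ^ kk p = q ^ kk q := hpq
    have h2 : p ∣ q ^ kk q := by
      rw [← hpq']
      exact dvd_pow_self _ (by omega)
    exact (Nat.prime_dvd_prime_iff_eq hp1 hq1).1 (hp1.dvd_of_dvd_pow h2)
  refine ⟨G.image fun p => p ^ kk p, ?_, ?_⟩
  · intro m hm
    obtain ⟨p, hp, rfl⟩ := Finset.mem_image.1 hm
    obtain ⟨hp1, hp2, hp3⟩ := hGm p hp
    obtain ⟨hk1, hk2, _⟩ := hkk p hp1 hp2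
    refine ⟨Nat.one_le_pow _ _ hp1.pos, ?_⟩
    calc p ^ kk p ≤ P ^ kk p := Nat.pow_le_pow_left hp3 _
      _ ≤ P ^ (2 * n) := Nat.pow_le_pow_right hP1 hk2
  · rw [Finset.sum_image hinj]
    have hterm : ∀ p ∈ G, (P : ℝ) ^ (-(2 * n * (2 * x - 1))) / (4 * (n : ℝ) ^ 2) ≤
        ‖coef (lamE K) (tauE α β) (p ^ kk p)‖ ^ 2 * ((p ^ kk p : ℕ) : ℝ) ^ (-(2 * x)) := by
      intro p hp
      obtain ⟨hp1, hp2, hp3⟩ := hGm p hp
      obtain ⟨hk1, hk2, hk3⟩ := hkk p hp1 hp2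
      have hpp : (0 : ℝ) < p := by exact_mod_cast hp1.pos
      have hm0 : (0 : ℝ) < (p : ℝ) ^ kk p := by positivity
      have h1 : (p : ℝ) ^ kk p / (4 * (n : ℝ) ^ 2) ≤
          ‖coef (lamE K) (tauE α β) (p ^ kk p)‖ ^ 2 := by
        have h2 := pow_le_pow_left₀ (by positivity) hk3 2
        rw [div_pow, Real.sq_sqrt hm0.le, mul_pow] at h2
        norm_num at h2 ⊢
        exact h2
      have h3 : ((p ^ kk p : ℕ) : ℝ) = (p : ℝ) ^ kk p := by push_cast; rfl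
      rw [h3]
      have h4 : (P : ℝ) ^ (-(2 * n * (2 * x - 1))) ≤ ((p : ℝ) ^ kk p) ^ (-(2 * x - 1)) := by
        have h5 : (p : ℝ) ^ kk p ≤ (P : ℝ) ^ (2 * n) := by
          have h6 : p ^ kk p ≤ P ^ (2 * n) :=
            (Nat.pow_le_pow_left hp3 _).trans (Nat.pow_le_pow_right hP1 hk2)
          exact_mod_cast h6
        have h7 := Real.rpow_le_rpow_of_nonpos hm0 h5 (show -(2 * x - 1) ≤ 0 by linarith)
        refine le_trans (le_of_eq ?_) h7
        rw [← Real.rpow_natCast (P : ℝ) (2 * n), ← Real.rpow_mul hP0.le]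
        congr 1
        push_cast
        ring
      have h8 : ((p : ℝ) ^ kk p) ^ (-(2 * x - 1)) =
          (p : ℝ) ^ kk p * ((p : ℝ) ^ kk p) ^ (-(2 * x)) := by
        conv_rhs => rw [← Real.rpow_one ((p : ℝ) ^ kk p)]
        rw [Real.rpow_one, ← Real.rpow_one_add' hm0.le (by linarith)]
        congr 1
        ring
      calc (P : ℝ) ^ (-(2 * n * (2 * x - 1))) / (4 * (n : ℝ) ^ 2) ≤
          ((p : ℝ) ^ kk p) ^ (-(2 * x - 1)) / (4 * (n : ℝ) ^ 2) :=
            div_le_div_of_nonneg_right h4 (by positivity)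
        _ = (p : ℝ) ^ kk p / (4 * (n : ℝ) ^ 2) * ((p : ℝ) ^ kk p) ^ (-(2 * x)) := by
            rw [h8]
            ring
        _ ≤ _ := mul_le_mul_of_nonneg_right h1 (by positivity)
    have hcard : (P : ℝ) ^ (1 - η) ≤ G.card := by
      have h1 := hP₁ P hPP₁
      have h2 : Nat.primeCounting P ≤ G.card + Y.card := by
        have h3 : Nat.primeCounting P = ((Finset.range (P + 1)).filter Nat.Prime).card := by
          rw [Nat.primeCounting, Nat.primeCounting', Nat.count_eq_card_filter_range]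
        rw [h3, hG]
        have h4 := Finset.card_le_card_sdiff_add_card (t := Y)
          (s := (Finset.range (P + 1)).filter Nat.Prime)
        exact h4
      have h5 : (Nat.primeCounting P : ℝ) ≤ G.card + Y.card := by exact_mod_cast h2
      linarith
    have hP2' : 4 * (n : ℝ) ^ 2 ≤ (P : ℝ) ^ η := hP₂ P hPP₂
    calc (P : ℝ) ^ η = (P : ℝ) ^ η * (4 * (n : ℝ) ^ 2) / (4 * (n : ℝ) ^ 2) := by
          rw [mul_div_assoc, div_self (by positivity), mul_one]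
      _ ≤ (P : ℝ) ^ η * (P : ℝ) ^ η / (4 * (n : ℝ) ^ 2) := by
          apply div_le_div_of_nonneg_right _ (by positivity)
          exact mul_le_mul_of_nonneg_left hP2' (by positivity)
      _ = (P : ℝ) ^ (1 - η) * ((P : ℝ) ^ (-(2 * n * (2 * x - 1))) / (4 * (n : ℝ) ^ 2)) := by
          rw [← mul_div_assoc, ← Real.rpow_add hP0, ← Real.rpow_add hP0]
          congr 2
          rw [hη, hδ]
          ring
      _ ≤ G.card * ((P : ℝ) ^ (-(2 * n * (2 * x - 1))) / (4 * (n : ℝ) ^ 2)) :=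
          mul_le_mul_of_nonneg_right hcard (by positivity)
      _ = ∑ p ∈ G, (P : ℝ) ^ (-(2 * n * (2 * x - 1))) / (4 * (n : ℝ) ^ 2) := by
          rw [Finset.sum_const, nsmul_eq_mul]
      _ ≤ _ := Finset.sum_le_sum hterm

end MP7ed9c3.Zs
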