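import Pool.Agent.Lib.MP_7ed9c3_nt.Zs.Spec

/-!
# MP_7ed9c3_nt, Zs: the roots of the Euler factors
-/

set_option autoImplicit false

namespace MP7ed9c3.Zs

open NumberField IsDedekindDomain Filter Topology

theorem rootsz_one (q : ℕ) (a g : ℤ) (ha : |(a : ℝ)| ≤ q) (hg : g = 0 ∨ g = 1) :
    ∃ α β : ℂ, α + β = a ∧ α * β = g * q ∧ ‖α‖ ≤ q + 1 ∧ ‖β‖ ≤ q + 1 ∧
      (g = 1 → |(a : ℝ)| ≤ 2 * √(q : ℝ) → ‖α‖ = √(q : ℝ) ∧ ‖β‖ = √(q : ℝ)) := by
  obtain ⟨w, hw⟩ := IsAlgClosed.exists_pow_nat_eq ((a : ℂ) ^ 2 - 4 * g * q) (n := 2) two_pos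
  have hq0 : (0 : ℝ) ≤ q := Nat.cast_nonneg q
  have hg1 : |(g : ℝ)| ≤ 1 := by rcases hg with h | h <;> simp [h]
  have hwn : ‖w‖ ≤ q + 2 := by
    have h1 : ‖w‖ ^ 2 ≤ ((q : ℝ) + 2) ^ 2 := by
      rw [← norm_pow, hw]
      refine (norm_sub_le _ _).trans ?_
      rw [norm_pow, norm_mul, norm_mul, Complex.norm_intCast, Complex.norm_intCast,
        Complex.norm_natCast]
      have h2 : ‖(4 : ℂ)‖ = 4 := by simp
      rw [h2]
      have h3 : |(a : ℝ)| ^ 2 ≤ (q : ℝ) ^ 2 := pow_le_pow_left₀ (abs_nonneg _) ha 2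
      have h4 : 4 * |(g : ℝ)| * q ≤ 4 * 1 * q :=
        mul_le_mul_of_nonneg_right (mul_le_mul_of_nonneg_left hg1 (by norm_num)) hq0
      nlinarith
    exact le_of_sq_le_sq h1 (by linarith)
  have han : ‖(a : ℂ)‖ ≤ q := by rw [Complex.norm_intCast]; exact ha
  have h2n : ‖(2 : ℂ)‖ = 2 := by simp
  refine ⟨(a + w) / 2, (a - w) / 2, by ring, ?_, ?_, ?_, ?_⟩
  · have : (a + w) / 2 * ((a - w) / 2) = ((a : ℂ) ^ 2 - w ^ 2) / 4 := by ring
    rw [this, hw]
    ring
  · rw [norm_div, h2n, div_le_iff₀ two_pos]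
    exact (norm_add_le _ _).trans (by linarith)
  · rw [norm_div, h2n, div_le_iff₀ two_pos]
    exact (norm_sub_le _ _).trans (by linarith)
  · intro hg' ha2
    subst hg'
    have hs : √(q : ℝ) ^ 2 = q := Real.sq_sqrt hq0
    have ha4 : (a : ℝ) ^ 2 ≤ 4 * q := by
      rw [← sq_abs]
      have := pow_le_pow_left₀ (abs_nonneg _) ha2 2
      rw [mul_pow, hs] at this
      linarith
    have hre := congrArg Complex.re hw
    have him := congrArg Complex.im hw
    have e1 : ((a : ℂ) ^ 2 - 4 * ((1 : ℤ) : ℂ) * q) = (((a : ℝ) ^ 2 - 4 * q : ℝ) : ℂ) := by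
      push_cast
      ring
    rw [e1] at hre him
    rw [Complex.ofReal_re, sq, Complex.mul_re] at hre
    rw [Complex.ofReal_im, sq, Complex.mul_im] at him
    have hre0 : w.re = 0 := by
      have h1 : w.re * w.im = 0 := by linarith
      rcases mul_eq_zero.1 h1 with h | h
      · exact h
      · rw [h] at hre
        have : w.re * w.re ≤ 0 := by linarith
        nlinarith [mul_self_nonneg w.re]
    have him2 : w.im * w.im = 4 * q - (a : ℝ) ^ 2 := by
      rw [hre0] at hre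
      linarith
    have key : ∀ ε : ℝ, ε ^ 2 = 1 → ‖((a : ℂ) + ε * w) / 2‖ = √(q : ℝ) := by
      intro ε hε
      rw [← Real.sqrt_sq (norm_nonneg (((a : ℂ) + ε * w) / 2))]
      congr 1
      rw [Complex.sq_norm, Complex.normSq_apply]
      have h1 : (((a : ℂ) + ε * w) / 2).re = a / 2 := by
        have : (((a : ℂ) + ε * w) / 2) = (((a : ℝ) : ℂ) + ε * w) / ((2 : ℝ) : ℂ) := by
          push_cast; ring
        rw [this, Complex.div_ofReal_re, Complex.add_re, Complex.ofReal_re,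
          Complex.re_ofReal_mul, hre0]
        ring
      have h2 : (((a : ℂ) + ε * w) / 2).im = ε * w.im / 2 := by
        have : (((a : ℂ) + ε * w) / 2) = (((a : ℝ) : ℂ) + ε * w) / ((2 : ℝ) : ℂ) := by
          push_cast; ring
        rw [this, Complex.div_ofReal_im, Complex.add_im, Complex.ofReal_im,
          Complex.im_ofReal_mul]
        ring
      rw [h1, h2]
      have : ε * w.im / 2 * (ε * w.im / 2) = ε ^ 2 * (w.im * w.im) / 4 := by ring
      rw [this, hε, him2]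
      ring
    constructor
    · have := key 1 (by norm_num)
      rwa [Complex.ofReal_one, one_mul] at this
    · have := key (-1) (by norm_num)
      rw [Complex.ofReal_neg, Complex.ofReal_one, neg_one_mul, ← sub_eq_add_neg] at this
      exact this

/-- **E7.** -/
theorem rootsz : S_Roots := by
  classical
  intro K _ _ E hE M hM
  obtain ⟨W₀, hΔ, hW₀⟩ := existsModel K E hE
  set X : Set (HeightOneSpectrum (𝓞 K)) :=
    {v | W₀.Δ ∈ v.asIdeal ∨ (6 : 𝓞 K) ∈ v.asIdeal} with hX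
  have h6 : (6 : 𝓞 K) ≠ 0 := by norm_num
  have hXfin : X.Finite := (N5.finite_mem hΔ).union (N5.finite_mem h6)
  choose α β h1 h2 h3 h4 h5 using fun v : HeightOneSpectrum (𝓞 K) =>
    rootsz_one (nm v) (tr (M v) v) (if (M v).Δ ∉ v.asIdeal then 1 else 0)
      (traceBoundAll K (M v) v).1 (by split_ifs <;> simp)
  refine ⟨α, β, X, hXfin, ?_, fun v => ⟨h3 v, h4 v⟩, ?_⟩
  · intro v s
    have hq : (nm v : ℂ) ≠ 0 := by
      have := (N1.exists_prime v).1
      exact_mod_cast (by omega : nm v ≠ 0)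
    unfold locDen eden
    have e1 : (nm v : ℂ) ^ (1 - 2 * s) = nm v * ((nm v : ℂ) ^ (-s)) ^ 2 := by
      rw [show (1 - 2 * s : ℂ) = 1 + (-s + -s) by ring, Complex.cpow_add _ _ hq,
        Complex.cpow_add _ _ hq, Complex.cpow_one, sq]
    have e2 : (1 - α v * (nm v : ℂ) ^ (-s)) * (1 - β v * (nm v : ℂ) ^ (-s)) =
        1 - (α v + β v) * (nm v : ℂ) ^ (-s) + (α v * β v) * ((nm v : ℂ) ^ (-s)) ^ 2 := by ring
    rw [e2, h1 v, h2 v, e1]
    split_ifs <;> push_cast <;> ring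
  · intro v hv
    have hv1 : W₀.Δ ∉ v.asIdeal := fun h => hv (Or.inl h)
    have hv2 : (6 : 𝓞 K) ∉ v.asIdeal := fun h => hv (Or.inr h)
    obtain ⟨e1, _⟩ := goodDataAll K E W₀ hW₀ v (M v) hv1 hv2 (hM v)
    exact h5 v (if_pos e1) ((traceBoundAll K (M v) v).2 e1 hv2)

end MP7ed9c3.Zs
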