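import Pool.Agent.Lib.MP_7ed9c3_nt.Zs.Spec

/-!
# MP_7ed9c3_nt, Zs: the primes over `p`
-/

set_option autoImplicit false

namespace MP7ed9c3.Zs

open NumberField IsDedekindDomain Filter Topology

theorem overz_norm (K : Type) [Field K] [NumberField K] (p : ℕ) :
    Ideal.absNorm (Ideal.span {((p : ℕ) : 𝓞 K)}) = p ^ Module.finrank ℚ K := by
  rw [Ideal.absNorm_span_singleton]
  have h5 : ((p : ℕ) : 𝓞 K) = algebraMap ℤ (𝓞 K) (p : ℤ) := by simp
  rw [h5, Algebra.norm_algebraMap, Int.natAbs_pow, Int.natAbs_natCast,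
    NumberField.RingOfIntegers.rank]

theorem overz_mem {K : Type} [Field K] [NumberField K] (v : HeightOneSpectrum (𝓞 K)) {p k : ℕ}
    (h : nm v = p ^ k) : ((p : ℕ) : 𝓞 K) ∈ v.asIdeal := by
  have hmem : ((nm v : ℕ) : 𝓞 K) ∈ v.asIdeal := Ideal.absNorm_mem v.asIdeal
  rw [h, Nat.cast_pow] at hmem
  exact v.isPrime.mem_of_pow_mem k hmem

/-- **E6.** -/
theorem overz : S_Over := by
  classical
  intro K _ _ p hp
  have hp0 : ((p : ℕ) : 𝓞 K) ≠ 0 := by exact_mod_cast hp.ne_zero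
  have hfin := N5.finite_mem hp0
  set s : Finset (HeightOneSpectrum (𝓞 K)) := hfin.toFinset with hs
  have hmem : ∀ v : HeightOneSpectrum (𝓞 K), v ∈ s ↔ ((p : ℕ) : 𝓞 K) ∈ v.asIdeal := fun v => by
    rw [hs, Set.Finite.mem_toFinset]
    rfl
  have hex : ∀ v : HeightOneSpectrum (𝓞 K), ∃ f : ℕ, v ∈ s → 1 ≤ f ∧ nm v = p ^ f := by
    intro v
    by_cases h : v ∈ s
    · obtain ⟨f, hf⟩ := Z3.nm_pow v hp ((hmem v).1 h)
      refine ⟨f, fun _ => ⟨?_, hf⟩⟩
      by_contra h0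
      have h1 : f = 0 := by omega
      have h2 := (N1.exists_prime v).1
      rw [hf, h1, pow_zero] at h2
      omega
    · exact ⟨0, fun h' => absurd h' h⟩
  choose f hf using hex
  have hn : 0 < Module.finrank ℚ K := Module.finrank_pos
  refine ⟨s, f, ⟨fun v hv => hf v hv, fun v k hk => (hmem v).2 (overz_mem v hk)⟩, ?_, ?_⟩
  · -- nonempty
    have hne : Ideal.span {((p : ℕ) : 𝓞 K)} ≠ ⊤ := by
      intro h
      have h1 := overz_norm K p
      rw [h, Ideal.absNorm_top] at h1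
      have h2 : 1 < p ^ Module.finrank ℚ K := Nat.one_lt_pow hn.ne' hp.one_lt
      omega
    obtain ⟨m, hm, hle⟩ := Ideal.exists_le_maximal _ hne
    have hpm : ((p : ℕ) : 𝓞 K) ∈ m := hle (Ideal.mem_span_singleton_self _)
    have hbot : m ≠ ⊥ := by
      intro h
      rw [h, Ideal.mem_bot] at hpm
      exact hp0 hpm
    exact ⟨⟨m, hm.isPrime, hbot⟩, (hmem _).2 hpm⟩
  · -- the sum of the degrees
    have hinj : Function.Injective (fun v : HeightOneSpectrum (𝓞 K) => v.asIdeal) :=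
      fun v w h => HeightOneSpectrum.ext h
    have hdvd : ∏ I ∈ s.map ⟨fun v => v.asIdeal, hinj⟩, I ∣ Ideal.span {((p : ℕ) : 𝓞 K)} := by
      apply Finset.prod_primes_dvd
      · intro I hI
        rw [Finset.mem_map] at hI
        obtain ⟨v, _, rfl⟩ := hI
        exact v.prime
      · intro I hI
        rw [Finset.mem_map] at hI
        obtain ⟨v, hv, rfl⟩ := hI
        exact (Ideal.dvd_span_singleton).2 ((hmem v).1 hv)
    have h1 := Ideal.absNorm_dvd_absNorm_of_le (Ideal.le_of_dvd hdvd)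
    rw [overz_norm, Finset.prod_map, map_prod] at h1
    have h2 : ∏ v ∈ s, Ideal.absNorm v.asIdeal = p ^ ∑ v ∈ s, f v := by
      rw [← Finset.prod_pow_eq_pow_sum]
      exact Finset.prod_congr rfl fun v hv => (hf v hv).2
    have h3 : p ^ (∑ v ∈ s, f v) ∣ p ^ Module.finrank ℚ K := by
      rw [← h2]
      exact h1
    exact (Nat.pow_dvd_pow_iff_le_right hp.one_lt).1 h3

end MP7ed9c3.Zs
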