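import Pool.Agent.Lib.MP_7ed9c3_nt.Zs.Spec

/-!
# MP_7ed9c3_nt, Zs: zeros in a box
-/

set_option autoImplicit false

namespace MP7ed9c3.Zs

open NumberField IsDedekindDomain Filter Topology MeasureTheory

/-- The balls around the line `Re s = 3` lie in the large ball. -/
theorem ball_sub {a x' X U t₀ t : ℝ} (ha : a < 1) (hx : a < x') (hU : 0 ≤ U)
    (ha0 : 0 < a) (hX : X = 4 + (U + 3) ^ 2 / (x' - a)) (ht : |t - t₀| ≤ U) :
    Metric.ball (3 + t * Complex.I) (3 - x') ⊆ Metric.ball ((X : ℂ) + t₀ * Complex.I) (X - a) := by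
  intro z hz
  rw [Metric.mem_ball, dist_eq_norm] at hz ⊢
  have h1 : |z.re - 3| < 3 - x' := by
    refine lt_of_le_of_lt ?_ hz
    have := Complex.abs_re_le_norm (z - (3 + t * Complex.I))
    simpa using this
  have h2 : |z.im - t| < 3 - x' := by
    refine lt_of_le_of_lt ?_ hz
    have := Complex.abs_im_le_norm (z - (3 + t * Complex.I))
    simpa using this
  rw [abs_lt] at h1 h2
  rw [abs_le] at ht
  have hδ : 0 < x' - a := by linarith
  have h3 : (z.im - t₀) ^ 2 ≤ (U + 3) ^ 2 := by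
    refine sq_le_sq' ?_ ?_ <;> nlinarith [ht.1, ht.2, h2.1, h2.2]
  have h4 : (x' - a) * (2 * X - 7) = (x' - a) + 2 * (U + 3) ^ 2 := by
    rw [hX]
    field_simp
    ring
  have h5 : (X - a) ^ 2 - (z.re - X) ^ 2 = (z.re - a) * (2 * X - a - z.re) := by ring
  have hX4 : 4 ≤ X := by
    rw [hX]
    have : 0 ≤ (U + 3) ^ 2 / (x' - a) := by positivity
    linarith
  have h6 : (x' - a) * (2 * X - 7) ≤ (z.re - a) * (2 * X - a - z.re) := by
    refine mul_le_mul (by linarith [h1.1]) (by linarith [h1.2]) (by linarith) (by linarith [h1.1])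
  have h7 : ‖z - ((X : ℂ) + t₀ * Complex.I)‖ ^ 2 = (z.re - X) ^ 2 + (z.im - t₀) ^ 2 := by
    rw [← Complex.normSq_eq_norm_sq, Complex.normSq_apply]
    simp
    ring
  have h8 : 0 ≤ (U + 3) ^ 2 := by positivity
  have h9 : ‖z - ((X : ℂ) + t₀ * Complex.I)‖ ^ 2 < (X - a) ^ 2 := by
    rw [h7]; nlinarith
  exact lt_of_pow_lt_pow_left₀ 2 (by linarith) h9

/-- The large ball lies in the box. -/
theorem ball_box {a X t₀ : ℝ} {z : ℂ} (h : z ∈ Metric.ball ((X : ℂ) + t₀ * Complex.I) (X - a)) :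
    a < z.re ∧ |z.im - t₀| < X - a := by
  rw [Metric.mem_ball, dist_eq_norm] at h
  have h1 : |z.re - X| < X - a := by
    refine lt_of_le_of_lt ?_ h
    have := Complex.abs_re_le_norm (z - ((X : ℂ) + t₀ * Complex.I))
    simpa using this
  have h2 : |z.im - t₀| < X - a := by
    refine lt_of_le_of_lt ?_ h
    have := Complex.abs_im_le_norm (z - ((X : ℂ) + t₀ * Complex.I))
    simpa using this
  rw [abs_lt] at h1
  exact ⟨by linarith [h1.1], h2⟩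

theorem lamE_pos {K : Type} [Field K] [NumberField K] (i : HeightOneSpectrum (𝓞 K) × ℕ) :
    1 ≤ lamE K i := by
  obtain ⟨C, hC⟩ := countPrimes K
  have h : 2 ≤ nm i.1 := hC.1 i.1
  exact Nat.one_le_pow _ _ (by omega)

theorem term_norm {ι : Type} {lam : ι → ℕ} (τ : ι → ℂ) (h : ∀ i, 1 ≤ lam i) (i : ι) (t : ℝ) :
    ‖τ i * (lam i : ℂ) ^ (-(3 + t * Complex.I))‖ = ‖τ i‖ / (lam i : ℝ) ^ 3 := by
  have h0 : 0 < lam i := h i
  rw [norm_mul, Complex.norm_natCast_cpow_of_pos h0]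
  have h1 : (-(3 + (t : ℂ) * Complex.I)).re = -(3 : ℝ) := by simp
  rw [h1, Real.rpow_neg (by positivity), div_eq_mul_inv]
  norm_cast

theorem ser_cont {ι : Type} {lam : ι → ℕ} {τ : ι → ℂ} (h : ∀ i, 1 ≤ lam i)
    (hs : Summable (fun i => ‖τ i‖ / (lam i : ℝ) ^ 3)) :
    Continuous (fun t : ℝ => ser lam τ (3 + t * Complex.I)) := by
  unfold ser
  refine continuous_tsum (fun i => ?_) hs (fun i t => (term_norm τ h i t).le)
  have h0 : (lam i : ℂ) ≠ 0 := by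
    have := h i
    exact_mod_cast (by omega : lam i ≠ 0)
  refine continuous_const.mul (Continuous.const_cpow (by fun_prop) (Or.inl h0))

theorem ser_bound {ι : Type} {lam : ι → ℕ} {τ : ι → ℂ} (h : ∀ i, 1 ≤ lam i)
    (hs : Summable (fun i => ‖τ i‖ / (lam i : ℝ) ^ 3)) (t : ℝ) :
    ‖ser lam τ (3 + t * Complex.I)‖ ≤ ∑' i, ‖τ i‖ / (lam i : ℝ) ^ 3 := by
  unfold ser
  exact tsum_of_norm_bounded hs.hasSum fun i => (term_norm τ h i t).le

/-- The size of the parameters. -/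
theorem param {η δ V : ℝ} {n : ℕ} (hη : 0 < η) (hδ : 0 < δ) (hV1 : 1 ≤ V)
    (hV : 4 + (2 ^ (6 * n) + 3) ^ 2 / δ ≤ V) :
    4 + (((((⌈V ^ (3 / η)⌉₊ : ℕ) ^ (2 * n) : ℕ) : ℝ)) ^ 3 + 3) ^ 2 / δ ≤ V ^ (36 * n / η + 1) := by
  have hV0 : 0 < V := by linarith
  set Y : ℝ := V ^ (3 / η) with hY
  have hY1 : 1 ≤ Y := Real.one_le_rpow hV1 (by positivity)
  have hP : ((⌈Y⌉₊ : ℕ) : ℝ) ≤ 2 * Y := by
    have := (Nat.ceil_lt_add_one (by linarith : 0 ≤ Y)).le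
    linarith
  have hN : ((((⌈Y⌉₊ : ℕ) ^ (2 * n) : ℕ) : ℝ)) ^ 3 ≤ 2 ^ (6 * n) * Y ^ (6 * n) := by
    push_cast
    rw [← pow_mul, ← mul_pow]
    have h1 : 2 * n * 3 = 6 * n := by ring
    rw [h1]
    exact pow_le_pow_left₀ (by positivity) hP _
  have hYn : 1 ≤ Y ^ (6 * n) := one_le_pow₀ hY1
  have h2 : ((((⌈Y⌉₊ : ℕ) ^ (2 * n) : ℕ) : ℝ)) ^ 3 + 3 ≤ (2 ^ (6 * n) + 3) * Y ^ (6 * n) := by
    nlinarith
  have h3 : (((((⌈Y⌉₊ : ℕ) ^ (2 * n) : ℕ) : ℝ)) ^ 3 + 3) ^ 2 ≤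
      (2 ^ (6 * n) + 3) ^ 2 * (Y ^ (6 * n)) ^ 2 := by
    rw [← mul_pow]
    exact pow_le_pow_left₀ (by positivity) h2 2
  have hYe : (Y ^ (6 * n)) ^ 2 = V ^ (36 * n / η) := by
    rw [hY, ← pow_mul, ← Real.rpow_natCast, ← Real.rpow_mul hV0.le]
    congr 1
    push_cast
    ring
  have hVe : 1 ≤ V ^ (36 * n / η) := Real.one_le_rpow hV1 (by positivity)
  rw [hYe] at h3
  have h4 : (((((⌈Y⌉₊ : ℕ) ^ (2 * n) : ℕ) : ℝ)) ^ 3 + 3) ^ 2 / δ ≤
      (2 ^ (6 * n) + 3) ^ 2 / δ * V ^ (36 * n / η) := by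
    rw [div_mul_eq_mul_div]
    exact div_le_div_of_nonneg_right h3 hδ.le
  have h5 : V ^ (36 * n / η + 1) = V * V ^ (36 * n / η) := by
    rw [Real.rpow_add hV0, Real.rpow_one, mul_comm]
  rw [h5]
  have h6 : (4 + (2 ^ (6 * n) + 3) ^ 2 / δ) * V ^ (36 * n / η) ≤ V * V ^ (36 * n / η) :=
    mul_le_mul_of_nonneg_right hV (by positivity)
  nlinarith

theorem box (h4 : S_Core) (h7 : S_Roots) (h8 : S_Series) (h11 : S_Lower) (h12 : S_LogBall) :
    S_Box := by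
  intro K _ _ E hE M hM σ₁ hσ₁
  obtain ⟨K₄, hK₄, h4⟩ := h4
  obtain ⟨α, β, X, hX, hloc, hnorm, hroots⟩ := h7 K E hE M hM
  obtain ⟨hsum, hexp⟩ := h8 K α β M hloc hnorm
  set n : ℕ := Module.finrank ℚ K with hn
  have hn1 : 1 ≤ n := Module.finrank_pos
  have hnR : (1 : ℝ) ≤ n := by exact_mod_cast hn1
  set b : ℝ := 1 / 2 + 1 / (4 * (n : ℝ)) with hb
  have hb1 : 1 / 2 < b := by
    have : 0 < 1 / (4 * (n : ℝ)) := by positivity
    linarith
  have hb2 : b ≤ 3 / 4 := by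
    have : 1 / (4 * (n : ℝ)) ≤ 1 / 4 := by
      apply one_div_le_one_div_of_le (by norm_num)
      linarith
    linarith
  set a : ℝ := max σ₁ (1 / 2) with ha
  have hab : a < b := max_lt hσ₁ hb1
  have ha1 : 1 / 2 ≤ a := le_max_right _ _
  have haσ : σ₁ ≤ a := le_max_left _ _
  set x' : ℝ := (2 * a + b) / 3 with hx'
  set x : ℝ := (a + 2 * b) / 3 with hx
  have hax' : a < x' := by rw [hx']; linarith
  have hx'x : x' < x := by rw [hx', hx]; linarith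
  have hxb : x < b := by rw [hx]; linarith
  have hx12 : 1 / 2 < x := by linarith
  obtain ⟨η, P₀, hη, hlow⟩ := h11 K α β X hX hroots x hx12 hxb
  set B : ℝ := ∑' i, ‖tauE α β i‖ / (lamE K i : ℝ) ^ 3 with hB
  have hB0 : 0 ≤ B := tsum_nonneg fun i => by positivity
  set C₁ : ℝ := 2 * B + 6 * (B + 2) / (x - x') with hC₁
  have hxx : 0 < x - x' := by linarith
  have hδ : 0 < x' - a := by linarith
  have hC₁0 : 0 ≤ C₁ := by positivity
  refine ⟨36 * n / η + 1, 1 + (P₀ : ℝ) ^ (η / 3) + (4 + (2 ^ (6 * n) + 3) ^ 2 / (x' - a)) +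
    (K₄ * C₁) ^ 2, ?_⟩
  intro V t₀ hV F hFd hFb hFp
  have hp1 : 0 ≤ (P₀ : ℝ) ^ (η / 3) := by positivity
  have hp2 : 0 ≤ 4 + (2 ^ (6 * n) + 3) ^ 2 / (x' - a) := by positivity
  have hp3 : 0 ≤ (K₄ * C₁) ^ 2 := by positivity
  have hV1 : 1 ≤ V := by linarith
  have hV0 : 0 < V := by linarith
  by_contra hcon
  push Not at hcon
  set P : ℕ := ⌈V ^ (3 / η)⌉₊ with hP
  set N : ℕ := P ^ (2 * n) with hN
  set U : ℝ := (N : ℝ) ^ 3 with hU
  have hU0 : 0 ≤ U := by positivity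
  set X' : ℝ := 4 + (U + 3) ^ 2 / (x' - a) with hX'
  have hX'V : X' ≤ V ^ (36 * n / η + 1) := param hη hδ hV1 (by linarith)
  have hbox : ∀ z ∈ Metric.ball ((X' : ℂ) + t₀ * Complex.I) (X' - a),
      σ₁ < z.re ∧ |z.im - t₀| < V ^ (36 * n / η + 1) := by
    intro z hz
    obtain ⟨h1, h2⟩ := ball_box hz
    exact ⟨by linarith, by linarith⟩
  have hballs : ∀ t : ℝ, |t - t₀| ≤ U →
      Metric.ball (3 + t * Complex.I) (3 - x') ⊆
        Metric.ball ((X' : ℂ) + t₀ * Complex.I) (X' - a) := fun t ht =>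
    ball_sub (by linarith) hax' hU0 (by linarith) hX' ht
  have hPV : V ^ (3 / η) ≤ (P : ℝ) := Nat.le_ceil _
  have hPP₀ : P₀ ≤ P := by
    have h1 : (P₀ : ℝ) ≤ V ^ (3 / η) := by
      have h2 : ((P₀ : ℝ) ^ (η / 3)) ^ (3 / η) ≤ V ^ (3 / η) :=
        Real.rpow_le_rpow hp1 (by linarith) (by positivity)
      rw [← Real.rpow_mul (by positivity)] at h2
      have h3 : η / 3 * (3 / η) = 1 := by field_simp
      rwa [h3, Real.rpow_one] at h2
    exact_mod_cast h1.trans hPV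
  have hP1 : 1 ≤ P := by
    have h1 : (1 : ℝ) ≤ V ^ (3 / η) := Real.one_le_rpow hV1 (by positivity)
    exact_mod_cast h1.trans hPV
  have hN1 : 1 ≤ N := Nat.one_le_pow _ _ hP1
  have hline : ∀ t : ℝ, |t - t₀| ≤ U →
      F (3 + t * Complex.I) = Complex.exp (ser (lamE K) (tauE α β) (3 + t * Complex.I)) ∧
      ‖ser (lamE K) (tauE α β) (3 + t * Complex.I)‖ ≤ B := by
    intro t ht
    have hre : (3 + (t : ℂ) * Complex.I).re = 3 := by simp
    have hin : (3 + (t : ℂ) * Complex.I) ∈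
        Metric.ball ((X' : ℂ) + t₀ * Complex.I) (X' - a) :=
      hballs t ht (Metric.mem_ball_self (by linarith))
    refine ⟨?_, ser_bound lamE_pos hsum t⟩
    rw [hFp _ (by rw [hre]; norm_num) (hbox _ hin).2, hexp _ hre]
  obtain ⟨G, hGd, hGL, hGb⟩ := h12 F (ser (lamE K) (tauE α β)) ((X' : ℂ) + t₀ * Complex.I)
    (X' - a) x x' U V B t₀ (by linarith) hx'x (by linarith) hU0 hV0.le
    (hFd.mono hbox)
    (fun z hz => hcon z (hbox z hz).1 (hbox z hz).2)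
    (fun z hz => hFb z (hbox z hz).1 (hbox z hz).2)
    hballs (ser_cont lamE_pos hsum).continuousOn hline
  obtain ⟨S, hS, hSsum⟩ := hlow P hPP₀
  have hrect : rect N x t₀ ⊆ Metric.ball ((X' : ℂ) + t₀ * Complex.I) (X' - a) :=
    fun s hs => (hGb s hs.1 hs.2.1 hs.2.2).1
  have hmain := h4 (HeightOneSpectrum (𝓞 K) × ℕ) (lamE K) (tauE α β) B lamE_pos hsum le_rfl
    G x (B + 6 * (V + B + 1) / (x - x')) t₀ N S (by linarith) (by linarith) hN1
    (hGd.mono hrect) (fun s hs => (hGb s hs.1 hs.2.1 hs.2.2).2) hGL hS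
  have hVP : V ^ 3 ≤ (P : ℝ) ^ η := by
    have h1 : (V ^ (3 / η)) ^ η ≤ (P : ℝ) ^ η :=
      Real.rpow_le_rpow (by positivity) hPV hη.le
    rw [← Real.rpow_mul hV0.le, div_mul_cancel₀ _ hη.ne'] at h1
    norm_cast at h1
  have hC : B + 6 * (V + B + 1) / (x - x') + B ≤ C₁ * V := by
    have h1 : 6 * (V + B + 1) / (x - x') ≤ 6 * (B + 2) / (x - x') * V := by
      rw [div_mul_eq_mul_div]
      refine div_le_div_of_nonneg_right ?_ hxx.le
      nlinarith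
    have h2 : 2 * B ≤ 2 * B * V := by nlinarith
    rw [hC₁, add_mul]
    linarith
  have hfin : V ^ 3 ≤ (K₄ * C₁) ^ 2 * V ^ 2 := by
    refine (hVP.trans (hSsum.trans hmain)).trans ?_
    rw [← mul_pow]
    refine pow_le_pow_left₀ (by positivity) ?_ 2
    rw [mul_assoc]
    exact mul_le_mul_of_nonneg_left hC hK₄
  have h9 : V ≤ (K₄ * C₁) ^ 2 := by
    have h10 : 0 < V ^ 2 := by positivity
    have h11 : V * V ^ 2 ≤ (K₄ * C₁) ^ 2 * V ^ 2 := by
      calc V * V ^ 2 = V ^ 3 := by ring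
        _ ≤ _ := hfin
    exact le_of_mul_le_mul_right h11 h10
  linarith

end MP7ed9c3.Zs
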