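import Pool.Agent.Lib.MP_7ed9c3_nt.Zs.Spec

/-!
# MP_7ed9c3_nt, Zs: the mean value theorem
-/

set_option autoImplicit false

namespace MP7ed9c3.Zs

open Filter Topology MeasureTheory

/-- **E4.** -/
theorem corez (h1 : S_Line) (h2 : S_Rect) (h3 : S_Dual) : S_Core := by
  obtain ⟨K₁, hK₁, h1⟩ := h1
  obtain ⟨K₂, hK₂, h2⟩ := h2
  obtain ⟨K₃, hK₃, h3⟩ := h3
  refine ⟨K₃ * (1 + K₁ + K₂), by positivity, ?_⟩
  intro ι lam τ B hl hs hB G x M t₀ N S hx0 hx3 hN hG hM hline hS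
  have hN0 : (0 : ℝ) < N := by exact_mod_cast hN
  have hU0 : (0 : ℝ) < (N : ℝ) ^ 3 := by positivity
  have hM0 : 0 ≤ M := by
    refine (norm_nonneg _).trans (hM (3 + t₀ * Complex.I) ?_)
    refine ⟨?_, ?_, ?_⟩ <;> simp
    linarith
  have hB0 : 0 ≤ B := (tsum_nonneg fun i => by positivity).trans hB
  have hmem : ∀ u ∈ Set.Icc (-(N : ℝ) ^ 3) ((N : ℝ) ^ 3),
      ((x : ℂ) + (t₀ + u) * Complex.I) ∈ rect N x t₀ := by
    intro u hu
    refine ⟨?_, ?_, ?_⟩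
    · simp
    · simp
      exact hx3.le
    · have : ((x : ℂ) + (t₀ + u) * Complex.I).im - t₀ = u := by simp
      rw [this, abs_le]
      exact hu
  have hG' : ContinuousOn (fun u : ℝ => G (x + (t₀ + u) * Complex.I))
      (Set.Icc (-(N : ℝ) ^ 3) ((N : ℝ) ^ 3)) := by
    refine hG.continuousOn.comp (Continuous.continuousOn (by fun_prop)) ?_
    intro u hu
    exact hmem u hu
  have havg : ∀ m : ℕ, avg G N m 3 t₀ = avg (ser lam τ) N m 3 t₀ := by
    intro m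
    unfold avg
    congr 1
    refine intervalIntegral.integral_congr fun u hu => ?_
    rw [Set.uIcc_of_le (by linarith)] at hu
    have h4 := hline (t₀ + u) (by
      rw [show t₀ + u - t₀ = u by ring, abs_le]
      exact hu)
    have h5 : (((3 : ℝ) : ℂ) + ((t₀ : ℂ) + (u : ℂ)) * Complex.I) =
        3 + ((t₀ + u : ℝ) : ℂ) * Complex.I := by push_cast; ring
    rw [h5, h4]
  have key : ∀ m ∈ S, 1 ≤ m ∧ m ≤ N ∧
      ‖avg G N m x t₀ - coef lam τ m‖ ≤ (K₂ * M + K₁ * B) / N := by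
    intro m hm
    obtain ⟨hm1, hmN⟩ := hS m hm
    refine ⟨hm1, hmN, ?_⟩
    have h8 := h2 G x M t₀ N m hx0 hx3 hm1 hmN hG hM
    have h9 := h1 ι lam τ B hl hs hB N m t₀ hm1 hmN
    rw [havg m] at h8
    have h10 : avg G N m x t₀ - coef lam τ m = (avg G N m x t₀ - avg (ser lam τ) N m 3 t₀) +
        (avg (ser lam τ) N m 3 t₀ - coef lam τ m) := by ring
    rw [h10, add_div]
    exact (norm_add_le _ _).trans (add_le_add h8 h9)
  have h6 := h3 G (coef lam τ) x M (K₂ * M + K₁ * B) t₀ N S hx0 hx3 hN hM0 (by positivity) hG'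
    (fun u hu => hM _ (hmem u hu)) key
  refine h6.trans ?_
  refine pow_le_pow_left₀ (by positivity) ?_ 2
  have h7 : M + (K₂ * M + K₁ * B) ≤ (1 + K₁ + K₂) * (M + B) := by
    nlinarith [mul_nonneg hK₁ hM0, mul_nonneg hK₂ hB0]
  calc K₃ * (M + (K₂ * M + K₁ * B)) ≤ K₃ * ((1 + K₁ + K₂) * (M + B)) :=
        mul_le_mul_of_nonneg_left h7 hK₃
    _ = K₃ * (1 + K₁ + K₂) * (M + B) := by ring

end MP7ed9c3.Zs
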