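import Pool.Agent.Lib.MP_7ed9c3_nt.Zs.Gauss

/-!
# MP_7ed9c3_nt, Zs: duality
-/

set_option autoImplicit false

namespace MP7ed9c3.Zs

open Filter Topology MeasureTheory

/-- the trigonometric polynomial -/
noncomputable def dualz_D (A : ℕ → ℂ) (S : Finset ℕ) (u : ℝ) : ℂ :=
  ∑ m ∈ S, A m * Complex.exp (Complex.I * (Real.log m : ℝ) * u)

theorem dualz_cont (A : ℕ → ℂ) (S : Finset ℕ) : Continuous (dualz_D A S) := by
  unfold dualz_D
  fun_prop

theorem dualz_sq (A : ℕ → ℂ) (S : Finset ℕ) (N : ℕ) (u : ℝ) :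
    ((‖dualz_D A S u‖ ^ 2 * Real.exp (-(1 / (N : ℝ) ^ 4) * u ^ 2) : ℝ) : ℂ) =
      ∑ m ∈ S, ∑ l ∈ S, (A m * (starRingEnd ℂ) (A l)) * gz N (Real.log m - Real.log l) u := by
  have h1 : ((‖dualz_D A S u‖ : ℂ)) ^ 2 = dualz_D A S u * (starRingEnd ℂ) (dualz_D A S u) :=
    (Complex.mul_conj' _).symm
  have h0 : ((Real.exp (-(1 / (N : ℝ) ^ 4) * u ^ 2) : ℝ) : ℂ) =
      Complex.exp (-(1 / (N : ℂ) ^ 4) * (u : ℂ) ^ 2) := by
    rw [Complex.ofReal_exp]
    push_cast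
    rfl
  rw [Complex.ofReal_mul, Complex.ofReal_pow, h1, h0]
  unfold dualz_D
  rw [map_sum, Finset.sum_mul_sum, Finset.sum_mul]
  refine Finset.sum_congr rfl fun m _ => ?_
  rw [Finset.sum_mul]
  refine Finset.sum_congr rfl fun l _ => ?_
  rw [map_mul, ← Complex.exp_conj]
  have h2 : (starRingEnd ℂ) (Complex.I * ((Real.log l : ℝ) : ℂ) * u) =
      -(Complex.I * ((Real.log l : ℝ) : ℂ) * u) := by
    rw [map_mul, map_mul, Complex.conj_ofReal, Complex.conj_ofReal, Complex.conj_I]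
    ring
  rw [h2, gz]
  have h3 : Complex.exp (Complex.I * ((Real.log m - Real.log l : ℝ) : ℂ) * u) =
      Complex.exp (Complex.I * ((Real.log m : ℝ) : ℂ) * u) *
        Complex.exp (-(Complex.I * ((Real.log l : ℝ) : ℂ) * u)) := by
    rw [← Complex.exp_add]
    congr 1
    push_cast
    ring
  rw [h3]
  ring

/-- the mean square -/
theorem dualz_ms (A : ℕ → ℂ) (S : Finset ℕ) {N : ℕ} (hN : 1 ≤ N)
    (hS : ∀ m ∈ S, 1 ≤ m ∧ m ≤ N) :
    Integrable (fun u : ℝ => ‖dualz_D A S u‖ ^ 2 * Real.exp (-(1 / (N : ℝ) ^ 4) * u ^ 2)) ∧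
    ∫ u : ℝ, ‖dualz_D A S u‖ ^ 2 * Real.exp (-(1 / (N : ℝ) ^ 4) * u ^ 2) ≤
      (N : ℝ) ^ 2 * √Real.pi * (3 * ∑ m ∈ S, ‖A m‖ ^ 2) := by
  have hN0 : (0 : ℝ) < N := by exact_mod_cast hN
  have hN1 : (1 : ℝ) ≤ N := by exact_mod_cast hN
  have hterm : ∀ m ∈ S, ∀ l ∈ S, Integrable (fun u : ℝ =>
      (A m * (starRingEnd ℂ) (A l)) * gz N (Real.log m - Real.log l) u) := fun m _ l _ =>
    (gz_integrable hN _).const_mul _
  have hintC : Integrable (fun u : ℝ => ((‖dualz_D A S u‖ ^ 2 *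
      Real.exp (-(1 / (N : ℝ) ^ 4) * u ^ 2) : ℝ) : ℂ)) := by
    simp_rw [dualz_sq]
    exact integrable_finset_sum _ fun m hm => integrable_finset_sum _ fun l hl => hterm m hm l hl
  have hint : Integrable (fun u : ℝ => ‖dualz_D A S u‖ ^ 2 *
      Real.exp (-(1 / (N : ℝ) ^ 4) * u ^ 2)) := by
    have h1 := hintC.re
    refine h1.congr (Filter.Eventually.of_forall fun u => ?_)
    exact Complex.ofReal_re _
  refine ⟨hint, ?_⟩
  have e1 : ((∫ u : ℝ, ‖dualz_D A S u‖ ^ 2 * Real.exp (-(1 / (N : ℝ) ^ 4) * u ^ 2) : ℝ) : ℂ) =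
      ((N : ℂ) ^ 2 * (√Real.pi : ℝ)) * ∑ m ∈ S, ∑ l ∈ S, (A m * (starRingEnd ℂ) (A l)) *
        (Real.exp (-((N : ℝ) ^ 4 * (Real.log m - Real.log l) ^ 2 / 4)) : ℝ) := by
    rw [← integral_complex_ofReal]
    simp_rw [dualz_sq]
    rw [integral_finset_sum _ fun m hm => integrable_finset_sum _ fun l hl => hterm m hm l hl,
      Finset.mul_sum]
    refine Finset.sum_congr rfl fun m hm => ?_
    rw [integral_finset_sum _ fun l hl => hterm m hm l hl, Finset.mul_sum]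
    refine Finset.sum_congr rfl fun l hl => ?_
    rw [integral_const_mul, gz_full hN]
    ring
  have hI0 : 0 ≤ ∫ u : ℝ, ‖dualz_D A S u‖ ^ 2 * Real.exp (-(1 / (N : ℝ) ^ 4) * u ^ 2) :=
    integral_nonneg fun u => by positivity
  have e2 := congrArg norm e1
  rw [Complex.norm_real, Real.norm_eq_abs, abs_of_nonneg hI0, norm_mul, norm_mul, norm_pow,
    Complex.norm_natCast, Complex.norm_real, Real.norm_eq_abs,
    abs_of_nonneg (Real.sqrt_nonneg _)] at e2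
  rw [e2]
  refine mul_le_mul_of_nonneg_left ?_ (by positivity)
  set Q : ℝ := ∑ m ∈ S, ‖A m‖ ^ 2 with hQ
  have hQ0 : 0 ≤ Q := Finset.sum_nonneg fun _ _ => by positivity
  set ε : ℝ := Real.exp (-((N : ℝ) ^ 2 / 16)) with hε
  have hε0 : 0 < ε := Real.exp_pos _
  have hεN : ε * N ≤ 2 := by
    have h1 : 1 + (N : ℝ) ^ 2 / 16 ≤ Real.exp ((N : ℝ) ^ 2 / 16) := by
      have := Real.add_one_le_exp ((N : ℝ) ^ 2 / 16)
      linarith
    rw [hε, Real.exp_neg, inv_mul_le_iff₀ (Real.exp_pos _)]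
    nlinarith [sq_nonneg ((N : ℝ) - 4)]
  have hcard : (S.card : ℝ) ≤ N := by
    have h1 : S ⊆ Finset.Icc 1 N := fun m hm => Finset.mem_Icc.2 (hS m hm)
    have h2 := Finset.card_le_card h1
    rw [Nat.card_Icc] at h2
    exact_mod_cast h2
  have hterm2 : ∀ m ∈ S, ∀ l ∈ S, ‖(A m * (starRingEnd ℂ) (A l)) *
      ((Real.exp (-((N : ℝ) ^ 4 * (Real.log m - Real.log l) ^ 2 / 4)) : ℝ) : ℂ)‖ ≤
      (if m = l then ‖A m‖ ^ 2 else 0) + ε * (‖A m‖ * ‖A l‖) := by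
    intro m hm l hl
    rw [norm_mul, norm_mul, RCLike.norm_conj, Complex.norm_real, Real.norm_eq_abs,
      abs_of_pos (Real.exp_pos _)]
    split_ifs with h
    · subst h
      have h1 : Real.exp (-((N : ℝ) ^ 4 * (Real.log m - Real.log m) ^ 2 / 4)) = 1 := by
        rw [sub_self]
        norm_num
      rw [h1]
      have : 0 ≤ ε * (‖A m‖ * ‖A m‖) := by positivity
      nlinarith
    · have h1 := gz_off (hS m hm).1 (hS l hl).1 h (hS m hm).2
      rw [zero_add, mul_comm ε]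
      exact mul_le_mul_of_nonneg_left h1 (by positivity)
  calc ‖∑ m ∈ S, ∑ l ∈ S, (A m * (starRingEnd ℂ) (A l)) *
        ((Real.exp (-((N : ℝ) ^ 4 * (Real.log m - Real.log l) ^ 2 / 4)) : ℝ) : ℂ)‖ ≤
      ∑ m ∈ S, ∑ l ∈ S, ((if m = l then ‖A m‖ ^ 2 else 0) + ε * (‖A m‖ * ‖A l‖)) := by
        refine (norm_sum_le _ _).trans (Finset.sum_le_sum fun m hm => ?_)
        exact (norm_sum_le _ _).trans (Finset.sum_le_sum fun l hl => hterm2 m hm l hl)
    _ = Q + ε * (∑ m ∈ S, ‖A m‖) ^ 2 := by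
        simp_rw [Finset.sum_add_distrib]
        congr 1
        · rw [hQ]
          refine Finset.sum_congr rfl fun m hm => ?_
          rw [Finset.sum_ite_eq S m (fun _ => ‖A m‖ ^ 2), if_pos hm]
        · rw [sq, Finset.sum_mul_sum, Finset.mul_sum]
          refine Finset.sum_congr rfl fun m _ => ?_
          rw [Finset.mul_sum]
    _ ≤ Q + ε * (N * Q) := by
        have h1 : (∑ m ∈ S, ‖A m‖) ^ 2 ≤ S.card * ∑ m ∈ S, ‖A m‖ ^ 2 := sq_sum_le_card_mul_sum_sq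
        have h2 : (S.card : ℝ) * ∑ m ∈ S, ‖A m‖ ^ 2 ≤ N * Q := mul_le_mul_of_nonneg_right hcard hQ0
        have h3 := mul_le_mul_of_nonneg_left (h1.trans h2) hε0.le
        linarith
    _ ≤ 3 * Q := by nlinarith [mul_le_mul_of_nonneg_right hεN hQ0]

/-- **E3.** -/
theorem dualz : S_Dual := by
  refine ⟨2 * Real.exp 9, by positivity, ?_⟩
  intro G c x M D' t₀ N S hx0 hx3 hN hM0 hD0 hG hGM hS
  have hN0 : (0 : ℝ) < N := by exact_mod_cast hN
  have hN1 : (1 : ℝ) ≤ N := by exact_mod_cast hN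
  have hpi := Real.pi_pos
  set U : ℝ := (N : ℝ) ^ 3 with hU
  have hU0 : 0 < U := by positivity
  set Q : ℝ := ∑ m ∈ S, ‖c m‖ ^ 2 * (m : ℝ) ^ (-(2 * x)) with hQ
  have hQ0 : 0 ≤ Q := Finset.sum_nonneg fun _ _ => by positivity
  rcases hQ0.eq_or_lt with hz | hpos
  · rw [← hz]
    positivity
  have hm1 : ∀ m ∈ S, (1 : ℝ) ≤ m := fun m hm => by exact_mod_cast (hS m hm).1
  have hm0 : ∀ m ∈ S, (m : ℂ) ≠ 0 := fun m hm => by
    have := (hS m hm).1
    exact_mod_cast (by omega : m ≠ 0)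
  set r : ℕ → ℝ := fun m => (m : ℝ) ^ (-(2 * x)) with hr
  set A : ℕ → ℂ := fun m => (starRingEnd ℂ) (c m) * (r m : ℂ) *
    (m : ℂ) ^ ((x : ℂ) + t₀ * Complex.I) with hA
  have hAn : ∀ m ∈ S, ‖A m‖ = ‖c m‖ * (m : ℝ) ^ (-x) := by
    intro m hm
    have hmp : (0 : ℝ) < m := by linarith [hm1 m hm]
    simp only [hA, hr]
    rw [norm_mul, norm_mul, RCLike.norm_conj, Complex.norm_real, Real.norm_eq_abs,
      abs_of_pos (Real.rpow_pos_of_pos hmp _), Complex.norm_natCast_cpow_of_pos (by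
        have := (hS m hm).1; omega)]
    have h1 : ((x : ℂ) + t₀ * Complex.I).re = x := by simp
    rw [h1, mul_assoc, ← Real.rpow_add hmp]
    congr 2
    ring
  have hAQ : ∑ m ∈ S, ‖A m‖ ^ 2 = Q := by
    rw [hQ]
    refine Finset.sum_congr rfl fun m hm => ?_
    have hmp : (0 : ℝ) < m := by linarith [hm1 m hm]
    rw [hAn m hm, mul_pow, ← Real.rpow_natCast ((m : ℝ) ^ (-x)) 2, ← Real.rpow_mul hmp.le]
    congr 2
    push_cast
    ring
  obtain ⟨hms1, hms2⟩ := dualz_ms A S hN fun m hm => ⟨(hS m hm).1, (hS m hm).2.1⟩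
  rw [hAQ] at hms2
  set D : ℝ → ℂ := dualz_D A S with hD
  set den : ℂ := (N : ℂ) ^ 2 * (√Real.pi : ℝ) with hden
  have hdn : ‖den‖ = (N : ℝ) ^ 2 * √Real.pi := by
    rw [hden, norm_mul, norm_pow, Complex.norm_natCast, Complex.norm_real, Real.norm_eq_abs,
      abs_of_nonneg (Real.sqrt_nonneg _)]
  have hdpos : 0 < (N : ℝ) ^ 2 * √Real.pi := by
    have := Real.sqrt_pos.2 hpi
    positivity
  -- the weight
  have hwt : ∀ u : ℝ, ‖wt N x u‖ ≤ Real.exp 9 * Real.exp (-(1 / (N : ℝ) ^ 4) * u ^ 2) := by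
    intro u
    unfold wt
    rw [Complex.norm_exp, ← Real.exp_add]
    refine Real.exp_le_exp.2 ?_
    have e2 : (N : ℂ) ^ 4 = (((N : ℝ) ^ 4 : ℝ) : ℂ) := by push_cast; rfl
    have e3 : (((x - 3 : ℝ) : ℂ) + (u : ℂ) * Complex.I) ^ 2 =
        (((x - 3) ^ 2 - u ^ 2 : ℝ) : ℂ) + ((2 * (x - 3) * u : ℝ) : ℂ) * Complex.I := by
      have : Complex.I ^ 2 = -1 := Complex.I_sq
      push_cast
      linear_combination (u : ℂ) ^ 2 * this
    rw [e2, Complex.div_ofReal_re, e3, Complex.add_re, Complex.ofReal_re, Complex.re_ofReal_mul,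
      Complex.I_re, mul_zero, add_zero, sub_div]
    have hN4 : (1 : ℝ) ≤ (N : ℝ) ^ 4 := one_le_pow₀ hN1
    have h6 : (x - 3) ^ 2 ≤ 9 := by nlinarith
    have h7 : (x - 3) ^ 2 / (N : ℝ) ^ 4 ≤ 9 := by
      rw [div_le_iff₀ (by positivity)]
      nlinarith
    have h8 : u ^ 2 / (N : ℝ) ^ 4 = 1 / (N : ℝ) ^ 4 * u ^ 2 := by ring
    rw [h8]
    linarith
  have hwtc : Continuous (wt N x) := by
    unfold wt
    fun_prop
  -- the sum of the averages
  have hsum : ∑ m ∈ S, (starRingEnd ℂ) (c m) * (r m : ℂ) * avg G N m x t₀ =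
      (∫ u in (-U)..U, G (x + (t₀ + u) * Complex.I) * D u * wt N x u) / den := by
    have h1 : ∀ m ∈ S, (starRingEnd ℂ) (c m) * (r m : ℂ) * avg G N m x t₀ =
        (∫ u in (-U)..U, (starRingEnd ℂ) (c m) * (r m : ℂ) * (G (x + (t₀ + u) * Complex.I) *
          (m : ℂ) ^ (x + (t₀ + u) * Complex.I : ℂ) * wt N x u)) / den := by
      intro m _
      rw [intervalIntegral.integral_const_mul, mul_div_assoc]
      rfl
    rw [Finset.sum_congr rfl h1, ← Finset.sum_div]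
    congr 1
    rw [← intervalIntegral.integral_finset_sum]
    · refine intervalIntegral.integral_congr fun u _ => ?_
      simp only [hD, dualz_D]
      rw [Finset.mul_sum, Finset.sum_mul]
      refine Finset.sum_congr rfl fun m hm => ?_
      simp only [hA]
      have h2 : (m : ℂ) ^ (x + (t₀ + u) * Complex.I : ℂ) =
          (m : ℂ) ^ ((x : ℂ) + t₀ * Complex.I) *
            Complex.exp (Complex.I * ((Real.log m : ℝ) : ℂ) * u) := by
        have h3 : (x + (t₀ + u) * Complex.I : ℂ) =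
            ((x : ℂ) + t₀ * Complex.I) + (u : ℂ) * Complex.I := by ring
        rw [h3, Complex.cpow_add _ _ (hm0 m hm), Complex.cpow_def_of_ne_zero (hm0 m hm)
          ((u : ℂ) * Complex.I), ← Complex.natCast_log]
        congr 2
        ring
      rw [h2]
      ring
    · intro m hm
      refine (ContinuousOn.intervalIntegrable ?_)
      rw [Set.uIcc_of_le (by linarith)]
      refine continuousOn_const.mul ((hG.mul ?_).mul hwtc.continuousOn)
      refine Continuous.continuousOn ?_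
      have hm' := hm0 m hm
      exact Continuous.const_cpow (by fun_prop) (Or.inl hm')
  -- the bound of the integral
  set Λ : ℝ := √(3 * Q) with hΛ
  have hΛ0 : 0 < Λ := Real.sqrt_pos.2 (by positivity)
  have hΛ2 : Λ ^ 2 = 3 * Q := Real.sq_sqrt (by positivity)
  have hbN : (0 : ℝ) < 1 / (N : ℝ) ^ 4 := by positivity
  have hgint : Integrable (fun u : ℝ => M * Real.exp 9 * ((Λ / 2) *
      Real.exp (-(1 / (N : ℝ) ^ 4) * u ^ 2) +
      (1 / (2 * Λ)) * (‖D u‖ ^ 2 * Real.exp (-(1 / (N : ℝ) ^ 4) * u ^ 2)))) :=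
    (((integrable_exp_neg_mul_sq hbN).const_mul _).add (hms1.const_mul _)).const_mul _
  have hpt : ∀ u : ℝ, u ∈ Set.Ioc (-U) U →
      ‖G (x + (t₀ + u) * Complex.I) * D u * wt N x u‖ ≤ M * Real.exp 9 * ((Λ / 2) *
      Real.exp (-(1 / (N : ℝ) ^ 4) * u ^ 2) +
      (1 / (2 * Λ)) * (‖D u‖ ^ 2 * Real.exp (-(1 / (N : ℝ) ^ 4) * u ^ 2))) := by
    intro u hu
    rw [norm_mul, norm_mul]
    have h1 := hGM u ⟨hu.1.le, hu.2⟩
    have h2 : ‖D u‖ ≤ Λ / 2 + 1 / (2 * Λ) * ‖D u‖ ^ 2 := by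
      have h3 : 0 ≤ (‖D u‖ - Λ) ^ 2 / (2 * Λ) := by positivity
      have h4 : (‖D u‖ - Λ) ^ 2 / (2 * Λ) = Λ / 2 + 1 / (2 * Λ) * ‖D u‖ ^ 2 - ‖D u‖ := by
        field_simp
        ring
      linarith
    have h5 := Real.exp_pos (-(1 / (N : ℝ) ^ 4) * u ^ 2)
    calc ‖G (x + (t₀ + u) * Complex.I)‖ * ‖D u‖ * ‖wt N x u‖ ≤
        M * (Λ / 2 + 1 / (2 * Λ) * ‖D u‖ ^ 2) *
          (Real.exp 9 * Real.exp (-(1 / (N : ℝ) ^ 4) * u ^ 2)) :=
          mul_le_mul (mul_le_mul h1 h2 (norm_nonneg _) hM0) (hwt u) (norm_nonneg _)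
            (mul_nonneg hM0 (by positivity))
      _ = _ := by ring
  have hmain : ‖∑ m ∈ S, (starRingEnd ℂ) (c m) * (r m : ℂ) * avg G N m x t₀‖ ≤
      M * Real.exp 9 * Λ := by
    rw [hsum, norm_div, hdn, div_le_iff₀ hdpos]
    have h1 := intervalIntegral.norm_integral_le_of_norm_le (a := -U) (b := U) (by linarith)
      (Filter.Eventually.of_forall hpt) hgint.intervalIntegrable
    refine h1.trans ?_
    rw [intervalIntegral.integral_of_le (by linarith)]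
    refine (setIntegral_le_integral hgint (Filter.Eventually.of_forall fun u => ?_)).trans ?_
    · have := Real.exp_pos (-(1 / (N : ℝ) ^ 4) * u ^ 2)
      show (0 : ℝ) ≤ _
      positivity
    · rw [integral_const_mul, integral_add ((integrable_exp_neg_mul_sq hbN).const_mul _)
        (hms1.const_mul _), integral_const_mul, integral_const_mul, integral_gaussian]
      have h2 : √(Real.pi / (1 / (N : ℝ) ^ 4)) = (N : ℝ) ^ 2 * √Real.pi := by
        have h3 : Real.pi / (1 / (N : ℝ) ^ 4) = ((N : ℝ) ^ 2) ^ 2 * Real.pi := by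
          field_simp
        rw [h3, Real.sqrt_mul (by positivity), Real.sqrt_sq (by positivity)]
      rw [h2]
      have h4 : 1 / (2 * Λ) * ∫ u : ℝ, ‖D u‖ ^ 2 * Real.exp (-(1 / (N : ℝ) ^ 4) * u ^ 2) ≤
          1 / (2 * Λ) * ((N : ℝ) ^ 2 * √Real.pi * (3 * Q)) :=
        mul_le_mul_of_nonneg_left hms2 (by positivity)
      have h5 : 1 / (2 * Λ) * ((N : ℝ) ^ 2 * √Real.pi * (3 * Q)) =
          Λ / 2 * ((N : ℝ) ^ 2 * √Real.pi) := by
        rw [← hΛ2]
        field_simp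
      rw [h5] at h4
      have h6 : Λ / 2 * ((N : ℝ) ^ 2 * √Real.pi) +
          1 / (2 * Λ) * ∫ u : ℝ, ‖D u‖ ^ 2 * Real.exp (-(1 / (N : ℝ) ^ 4) * u ^ 2) ≤
          Λ * ((N : ℝ) ^ 2 * √Real.pi) := by linarith
      have h7 := mul_le_mul_of_nonneg_left h6 (show 0 ≤ M * Real.exp 9 by positivity)
      linarith
  -- the error
  have herr : ‖∑ m ∈ S, (starRingEnd ℂ) (c m) * (r m : ℂ) * (avg G N m x t₀ - c m)‖ ≤
      D' * √Q := by
    have h1 : ∀ m ∈ S, ‖(starRingEnd ℂ) (c m) * (r m : ℂ) * (avg G N m x t₀ - c m)‖ ≤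
        D' / N * ‖A m‖ := by
      intro m hm
      have hmp : (0 : ℝ) < m := by linarith [hm1 m hm]
      rw [norm_mul, norm_mul, RCLike.norm_conj, Complex.norm_real, Real.norm_eq_abs, hAn m hm]
      have h2 : |r m| ≤ (m : ℝ) ^ (-x) := by
        simp only [hr]
        rw [abs_of_pos (Real.rpow_pos_of_pos hmp _)]
        exact Real.rpow_le_rpow_of_exponent_le (hm1 m hm) (by linarith)
      have h3 := (hS m hm).2.2
      have h4 : ‖c m‖ * |r m| * ‖avg G N m x t₀ - c m‖ ≤ ‖c m‖ * (m : ℝ) ^ (-x) * (D' / N) :=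
        mul_le_mul (mul_le_mul_of_nonneg_left h2 (norm_nonneg _)) h3 (norm_nonneg _)
          (by positivity)
      linarith
    have hcard : (S.card : ℝ) ≤ N := by
      have h1 : S ⊆ Finset.Icc 1 N := fun m hm => Finset.mem_Icc.2 ⟨(hS m hm).1, (hS m hm).2.1⟩
      have h2 := Finset.card_le_card h1
      rw [Nat.card_Icc] at h2
      exact_mod_cast h2
    have h5 : ∑ m ∈ S, ‖A m‖ ≤ N * √Q := by
      have h6 : (∑ m ∈ S, ‖A m‖) ^ 2 ≤ S.card * ∑ m ∈ S, ‖A m‖ ^ 2 := sq_sum_le_card_mul_sum_sq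
      rw [hAQ] at h6
      have h7 : (∑ m ∈ S, ‖A m‖) ^ 2 ≤ (N * √Q) ^ 2 := by
        rw [mul_pow, Real.sq_sqrt hQ0]
        have h8 : (S.card : ℝ) * Q ≤ N * Q := mul_le_mul_of_nonneg_right hcard hQ0
        have h9 : (N : ℝ) * Q ≤ (N : ℝ) ^ 2 * Q := by
          refine mul_le_mul_of_nonneg_right ?_ hQ0
          nlinarith
        linarith
      exact le_of_sq_le_sq h7 (by positivity)
    calc ‖∑ m ∈ S, (starRingEnd ℂ) (c m) * (r m : ℂ) * (avg G N m x t₀ - c m)‖ ≤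
        ∑ m ∈ S, D' / N * ‖A m‖ := (norm_sum_le _ _).trans (Finset.sum_le_sum h1)
      _ = D' / N * ∑ m ∈ S, ‖A m‖ := by rw [Finset.mul_sum]
      _ ≤ D' / N * (N * √Q) := mul_le_mul_of_nonneg_left h5 (by positivity)
      _ = D' * √Q := by field_simp
  -- together
  have hQC : (Q : ℂ) = ∑ m ∈ S, (starRingEnd ℂ) (c m) * (r m : ℂ) * avg G N m x t₀ -
      ∑ m ∈ S, (starRingEnd ℂ) (c m) * (r m : ℂ) * (avg G N m x t₀ - c m) := by
    rw [← Finset.sum_sub_distrib, hQ, Complex.ofReal_sum]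
    refine Finset.sum_congr rfl fun m _ => ?_
    have h1 : ((‖c m‖ : ℂ)) ^ 2 = c m * (starRingEnd ℂ) (c m) := (Complex.mul_conj' _).symm
    rw [Complex.ofReal_mul, Complex.ofReal_pow, h1]
    simp only [hr]
    ring
  have hQn : Q ≤ M * Real.exp 9 * Λ + D' * √Q := by
    have h1 : ‖(Q : ℂ)‖ = Q := by
      rw [Complex.norm_real, Real.norm_eq_abs, abs_of_pos hpos]
    have h2 : Q ≤ ‖∑ m ∈ S, (starRingEnd ℂ) (c m) * (r m : ℂ) * avg G N m x t₀ -
      ∑ m ∈ S, (starRingEnd ℂ) (c m) * (r m : ℂ) * (avg G N m x t₀ - c m)‖ := by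
      rw [← hQC, h1]
    exact h2.trans ((norm_sub_le _ _).trans (add_le_add hmain herr))
  have hsq0 : 0 < √Q := Real.sqrt_pos.2 hpos
  have hΛle : Λ ≤ 2 * √Q := by
    rw [hΛ]
    refine Real.sqrt_le_iff.2 ⟨by positivity, ?_⟩
    rw [mul_pow, Real.sq_sqrt hQ0]
    linarith
  have h1 : √Q * √Q ≤ (2 * Real.exp 9 * (M + D')) * √Q := by
    rw [Real.mul_self_sqrt hQ0]
    have h2 : M * Real.exp 9 * Λ ≤ M * Real.exp 9 * (2 * √Q) :=
      mul_le_mul_of_nonneg_left hΛle (by positivity)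
    have h3 : (1 : ℝ) ≤ 2 * Real.exp 9 := by
      have := Real.add_one_le_exp (9 : ℝ)
      linarith
    have h4 : D' * √Q ≤ 2 * Real.exp 9 * (D' * √Q) :=
      le_mul_of_one_le_left (by positivity) h3
    linarith
  have h2 : √Q ≤ 2 * Real.exp 9 * (M + D') := le_of_mul_le_mul_right h1 hsq0
  calc Q = √Q ^ 2 := (Real.sq_sqrt hQ0).symm
    _ ≤ (2 * Real.exp 9 * (M + D')) ^ 2 := pow_le_pow_left₀ hsq0.le h2 2

end MP7ed9c3.Zs
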