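import Pool.Agent.Lib.MP_7ed9c3_nt.Zs.Gauss

/-!
# MP_7ed9c3_nt, Zs: the line `Re s = 3`
-/

set_option autoImplicit false

namespace MP7ed9c3.Zs

open Filter Topology MeasureTheory

theorem linez_wt (N : ℕ) (u : ℝ) :
    wt N 3 u = Complex.exp (-(1 / (N : ℂ) ^ 4) * (u : ℂ) ^ 2) := by
  unfold wt
  congr 1
  have : (((3 : ℝ) - 3 : ℝ) : ℂ) = 0 := by norm_num
  rw [this, zero_add, mul_pow, Complex.I_sq]
  ring

theorem linez_exp (N : ℕ) (hN : 1 ≤ N) :
    (N : ℝ) ^ 3 * (3 * Real.exp (-((N : ℝ) ^ 2 / 16))) ≤ 1536 / N := by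
  have hN0 : (0 : ℝ) < N := by exact_mod_cast hN
  have h1 := Real.quadratic_le_exp_of_nonneg (show 0 ≤ (N : ℝ) ^ 2 / 16 by positivity)
  have h2 : (N : ℝ) ^ 4 / 512 ≤ Real.exp ((N : ℝ) ^ 2 / 16) := by
    refine le_trans ?_ h1
    have h3 : ((N : ℝ) ^ 2 / 16) ^ 2 / 2 = (N : ℝ) ^ 4 / 512 := by ring
    rw [h3]
    have : 0 ≤ (N : ℝ) ^ 2 / 16 := by positivity
    linarith
  rw [Real.exp_neg, le_div_iff₀ hN0]
  have h4 := Real.exp_pos ((N : ℝ) ^ 2 / 16)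
  have h5 : (N : ℝ) ^ 3 * (3 * (Real.exp ((N : ℝ) ^ 2 / 16))⁻¹) * N =
      3 * (N : ℝ) ^ 4 / Real.exp ((N : ℝ) ^ 2 / 16) := by
    field_simp
  rw [h5, div_le_iff₀ h4]
  linarith

theorem linez_term {N m l : ℕ} (hm : 1 ≤ m) (hl : 1 ≤ l) (t₀ u : ℝ) (τ : ℂ) :
    τ * (l : ℂ) ^ (-(((3 : ℝ) : ℂ) + (t₀ + u) * Complex.I)) *
      (m : ℂ) ^ (((3 : ℝ) : ℂ) + (t₀ + u) * Complex.I : ℂ) * wt N 3 u =
    (τ * (l : ℂ) ^ (-(((3 : ℝ) : ℂ) + t₀ * Complex.I)) *
      (m : ℂ) ^ (((3 : ℝ) : ℂ) + t₀ * Complex.I : ℂ)) * gz N (Real.log m - Real.log l) u := by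
  have hm0 : (m : ℂ) ≠ 0 := by exact_mod_cast (by omega : m ≠ 0)
  have hl0 : (l : ℂ) ≠ 0 := by exact_mod_cast (by omega : l ≠ 0)
  rw [linez_wt, gz]
  have h1 : Complex.exp (Complex.I * ((Real.log m - Real.log l : ℝ) : ℂ) * u) =
      (l : ℂ) ^ (-((u : ℂ) * Complex.I)) * (m : ℂ) ^ ((u : ℂ) * Complex.I) := by
    rw [Complex.cpow_def_of_ne_zero hl0, Complex.cpow_def_of_ne_zero hm0, ← Complex.exp_add,
      ← Complex.natCast_log, ← Complex.natCast_log]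
    congr 1
    push_cast
    ring
  have h2 : -(((3 : ℝ) : ℂ) + (t₀ + u) * Complex.I) =
      -(((3 : ℝ) : ℂ) + t₀ * Complex.I) + -((u : ℂ) * Complex.I) := by ring
  have h3 : (((3 : ℝ) : ℂ) + (t₀ + u) * Complex.I) =
      (((3 : ℝ) : ℂ) + t₀ * Complex.I) + ((u : ℂ) * Complex.I) := by ring
  rw [h2, h3, Complex.cpow_add _ _ hl0, Complex.cpow_add _ _ hm0, h1]
  ring

theorem linez_norm {m l : ℕ} (hm : 1 ≤ m) (hl : 1 ≤ l) (t₀ : ℝ) (τ : ℂ) :
    ‖τ * (l : ℂ) ^ (-(((3 : ℝ) : ℂ) + t₀ * Complex.I)) *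
      (m : ℂ) ^ (((3 : ℝ) : ℂ) + t₀ * Complex.I : ℂ)‖ = ‖τ‖ / (l : ℝ) ^ 3 * (m : ℝ) ^ 3 := by
  rw [norm_mul, norm_mul, Complex.norm_natCast_cpow_of_pos (by omega),
    Complex.norm_natCast_cpow_of_pos (by omega)]
  have h1 : (-(((3 : ℝ) : ℂ) + t₀ * Complex.I)).re = -((3 : ℕ) : ℝ) := by simp
  have h2 : (((3 : ℝ) : ℂ) + t₀ * Complex.I).re = ((3 : ℕ) : ℝ) := by simp
  rw [h1, h2, Real.rpow_neg (Nat.cast_nonneg _), Real.rpow_natCast, Real.rpow_natCast]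
  rfl

theorem linez_c {ι : Type} [Countable ι] (lam : ι → ℕ) (τ : ι → ℂ) (B : ℝ)
    (hl : ∀ i, 1 ≤ lam i) (hs : Summable (fun i => ‖τ i‖ / (lam i : ℝ) ^ 3))
    (hB : ∑' i, ‖τ i‖ / (lam i : ℝ) ^ 3 ≤ B) (N m : ℕ) (t₀ : ℝ) (hm : 1 ≤ m) (hmN : m ≤ N) :
    ‖avg (ser lam τ) N m 3 t₀ - coef lam τ m‖ ≤ 1536 * B / N := by
  have hN : 1 ≤ N := hm.trans hmN
  have hN0 : (0 : ℝ) < N := by exact_mod_cast hN
  have hm0 : (0 : ℝ) < m := by exact_mod_cast hm
  set U : ℝ := (N : ℝ) ^ 3 with hU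
  set D : ℂ := (N : ℂ) ^ 2 * (√Real.pi : ℝ) with hD
  set b : ι → ℂ := fun i => τ i * (lam i : ℂ) ^ (-(((3 : ℝ) : ℂ) + t₀ * Complex.I)) *
      (m : ℂ) ^ (((3 : ℝ) : ℂ) + t₀ * Complex.I : ℂ) with hb
  set a : ι → ℝ := fun i => Real.log m - Real.log (lam i) with ha
  have hbn : ∀ i, ‖b i‖ = ‖τ i‖ / (lam i : ℝ) ^ 3 * (m : ℝ) ^ 3 := fun i =>
    linez_norm hm (hl i) t₀ (τ i)
  have hbs : Summable fun i => ‖b i‖ := by
    simp_rw [hbn]
    exact hs.mul_right _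
  have hgz1 : ∀ x u : ℝ, ‖gz N x u‖ ≤ 1 := fun x u => by
    rw [gz_norm]
    refine Real.exp_le_one_iff.2 ?_
    have : 0 ≤ 1 / (N : ℝ) ^ 4 * u ^ 2 := by positivity
    linarith
  -- the integrand is a sum
  have hpt : ∀ u : ℝ, HasSum (fun i => b i * gz N (a i) u)
      (ser lam τ (((3 : ℝ) : ℂ) + (t₀ + u) * Complex.I) *
        (m : ℂ) ^ (((3 : ℝ) : ℂ) + (t₀ + u) * Complex.I : ℂ) * wt N 3 u) := by
    intro u
    have hsum : Summable fun i => τ i * (lam i : ℂ) ^ (-(((3 : ℝ) : ℂ) + (t₀ + u) * Complex.I)) := by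
      refine Summable.of_norm_bounded hs fun i => ?_
      rw [norm_mul, Complex.norm_natCast_cpow_of_pos (by have := hl i; omega)]
      have h1 : (-(((3 : ℝ) : ℂ) + (t₀ + u) * Complex.I)).re = -((3 : ℕ) : ℝ) := by simp
      rw [h1, Real.rpow_neg (Nat.cast_nonneg _), Real.rpow_natCast]
      rfl
    have h2 := (hsum.hasSum.mul_right ((m : ℂ) ^ (((3 : ℝ) : ℂ) + (t₀ + u) * Complex.I : ℂ))).mul_right
      (wt N 3 u)
    refine h2.congr_fun ?_ |> id
    intro i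
    exact (linez_term hm (hl i) t₀ u (τ i)).symm
  have hint : HasSum (fun i => ∫ u in (-U)..U, b i * gz N (a i) u)
      (∫ u in (-U)..U, ser lam τ (((3 : ℝ) : ℂ) + (t₀ + u) * Complex.I) *
        (m : ℂ) ^ (((3 : ℝ) : ℂ) + (t₀ + u) * Complex.I : ℂ) * wt N 3 u) := by
    refine intervalIntegral.hasSum_integral_of_dominated_convergence (fun i _ => ‖b i‖) ?_ ?_ ?_ ?_ ?_
    · intro i
      exact (continuous_const.mul (gz_cont N (a i))).aestronglyMeasurable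
    · intro i
      refine Filter.Eventually.of_forall fun u _ => ?_
      rw [norm_mul]
      exact mul_le_of_le_one_right (norm_nonneg _) (hgz1 _ _)
    · exact Filter.Eventually.of_forall fun _ _ => hbs
    · exact intervalIntegrable_const
    · exact Filter.Eventually.of_forall fun u _ => hpt u
  have havg : HasSum (fun i => b i * ((∫ u in (-U)..U, gz N (a i) u) / D))
      (avg (ser lam τ) N m 3 t₀) := by
    have h1 := hint.div_const D
    refine h1.congr_fun ?_ |> id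
    intro i
    rw [intervalIntegral.integral_const_mul, mul_div_assoc]
  set c : ι → ℂ := fun i => if lam i = m then τ i else 0 with hc
  have hcn : ∀ i, ‖c i‖ ≤ ‖τ i‖ / (lam i : ℝ) ^ 3 * (m : ℝ) ^ 3 := by
    intro i
    simp only [hc]
    split_ifs with h
    · rw [h]
      have : (0 : ℝ) < (m : ℝ) ^ 3 := by positivity
      rw [div_mul_cancel₀ _ this.ne']
    · rw [norm_zero]
      positivity
  have hcs : Summable c := Summable.of_norm_bounded (hs.mul_right _) hcn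
  have hdiff := havg.sub hcs.hasSum
  have hcoef : coef lam τ m = ∑' i, c i := rfl
  rw [hcoef, ← hdiff.tsum_eq]
  have hterm : ∀ i, ‖b i * ((∫ u in (-U)..U, gz N (a i) u) / D) - c i‖ ≤
      ‖τ i‖ / (lam i : ℝ) ^ 3 * ((N : ℝ) ^ 3 * (3 * Real.exp (-((N : ℝ) ^ 2 / 16)))) := by
    intro i
    have hli := hl i
    have hg := gz_main hN (a i)
    rw [← hU, ← hD] at hg
    set I := (∫ u in (-U)..U, gz N (a i) u) / D with hI
    have hq : 0 ≤ ‖τ i‖ / (lam i : ℝ) ^ 3 := by positivity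
    have hexp : Real.exp (-((N : ℝ) ^ 2 / 2)) ≤ Real.exp (-((N : ℝ) ^ 2 / 16)) := by
      refine Real.exp_le_exp.2 ?_
      have : 0 ≤ (N : ℝ) ^ 2 := by positivity
      linarith
    have hmN3 : (m : ℝ) ^ 3 ≤ (N : ℝ) ^ 3 :=
      pow_le_pow_left₀ hm0.le (by exact_mod_cast hmN) 3
    have key : ‖b i * I - c i‖ ≤ ‖b i‖ * (3 * Real.exp (-((N : ℝ) ^ 2 / 16))) := by
      by_cases h : lam i = m
      · have hbi : b i = τ i := by
          simp only [hb, h]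
          have hm0' : (m : ℂ) ≠ 0 := by exact_mod_cast hm0.ne'
          rw [mul_assoc, ← Complex.cpow_add _ _ hm0', neg_add_cancel, Complex.cpow_zero, mul_one]
        have hci : c i = τ i := by simp only [hc, h, if_true]
        have hai : a i = 0 := by simp only [ha, h, sub_self]
        rw [hai] at hg
        have h1 : (Real.exp (-((N : ℝ) ^ 4 * (0 : ℝ) ^ 2 / 4)) : ℝ) = 1 := by
          rw [show -((N : ℝ) ^ 4 * (0 : ℝ) ^ 2 / 4) = 0 by ring, Real.exp_zero]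
        rw [h1, Complex.ofReal_one] at hg
        have h2 : b i * I - c i = τ i * (I - 1) := by rw [hbi, hci]; ring
        rw [h2, norm_mul, hbi]
        refine mul_le_mul_of_nonneg_left ?_ (norm_nonneg _)
        have h3 : ‖I - 1‖ ≤ 2 * Real.exp (-((N : ℝ) ^ 2 / 2)) := hg
        have h4 := Real.exp_pos (-((N : ℝ) ^ 2 / 16))
        linarith
      · have hci : c i = 0 := by simp only [hc, h, if_false]
        rw [hci, sub_zero, norm_mul]
        refine mul_le_mul_of_nonneg_left ?_ (norm_nonneg _)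
        have h1 := gz_off hm hli (fun h' => h h'.symm) hmN
        have h2 : ‖I‖ ≤ ‖I - (Real.exp (-((N : ℝ) ^ 4 * (a i) ^ 2 / 4)) : ℝ)‖ +
            ‖((Real.exp (-((N : ℝ) ^ 4 * (a i) ^ 2 / 4)) : ℝ) : ℂ)‖ := by
          have := norm_add_le (I - (Real.exp (-((N : ℝ) ^ 4 * (a i) ^ 2 / 4)) : ℝ))
            ((Real.exp (-((N : ℝ) ^ 4 * (a i) ^ 2 / 4)) : ℝ) : ℂ)
          rwa [sub_add_cancel] at this
        rw [Complex.norm_real, Real.norm_eq_abs, abs_of_pos (Real.exp_pos _)] at h2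
        have h3 : Real.exp (-((N : ℝ) ^ 4 * (a i) ^ 2 / 4)) ≤ Real.exp (-((N : ℝ) ^ 2 / 16)) := h1
        linarith
    refine key.trans ?_
    rw [hbn, mul_assoc]
    refine mul_le_mul_of_nonneg_left ?_ hq
    exact mul_le_mul_of_nonneg_right hmN3 (by positivity)
  have hfin := tsum_of_norm_bounded (hs.hasSum.mul_right
    ((N : ℝ) ^ 3 * (3 * Real.exp (-((N : ℝ) ^ 2 / 16))))) hterm
  refine hfin.trans ?_
  have h5 := linez_exp N hN
  have h6 : 0 ≤ ∑' i, ‖τ i‖ / (lam i : ℝ) ^ 3 := tsum_nonneg fun i => by positivity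
  calc (∑' i, ‖τ i‖ / (lam i : ℝ) ^ 3) * ((N : ℝ) ^ 3 * (3 * Real.exp (-((N : ℝ) ^ 2 / 16)))) ≤
      B * (1536 / N) := mul_le_mul hB h5 (by positivity) (h6.trans hB)
    _ = 1536 * B / N := by ring

theorem linez_sub {ι : Type} {E : Type} [AddCommMonoid E] [TopologicalSpace E] (J : Set ι)
    (f : ι → E) (h : ∀ i, i ∉ J → f i = 0) : ∑' i : J, f i.1 = ∑' i, f i := by
  refine tsum_subtype_eq_of_support_subset ?_
  intro i hi
  by_contra h'
  exact hi (h i h')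

/-- **E1.** -/
theorem linez : S_Line := by
  have hmain : ∀ (ι : Type) (lam : ι → ℕ) (τ : ι → ℂ) (B : ℝ), (∀ i, 1 ≤ lam i) →
    Summable (fun i => ‖τ i‖ / (lam i : ℝ) ^ 3) → ∑' i, ‖τ i‖ / (lam i : ℝ) ^ 3 ≤ B →
    ∀ (N m : ℕ) (t₀ : ℝ), 1 ≤ m → m ≤ N →
      ‖avg (ser lam τ) N m 3 t₀ - coef lam τ m‖ ≤ 1536 * B / N := by
    intro ι lam τ B hl hs hB N m t₀ hm hmN
    set J : Set ι := {i | τ i ≠ 0} with hJ
    have hτ : ∀ i, i ∉ J → τ i = 0 := fun i hi => by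
      by_contra h
      exact hi h
    have hcount : J.Countable := by
      have h1 := hs.countable_support
      refine h1.mono fun i hi => ?_
      have hi' : τ i ≠ 0 := hi
      have : (0 : ℝ) < lam i := by exact_mod_cast hl i
      exact (div_pos (norm_pos_iff.2 hi') (by positivity)).ne'
    have : Countable J := hcount.to_subtype
    have e1 : ser lam τ = ser (fun i : J => lam i.1) (fun i : J => τ i.1) := by
      funext s
      unfold ser
      exact (linez_sub J (fun i => τ i * (lam i : ℂ) ^ (-s)) fun i hi => by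
        rw [hτ i hi, zero_mul]).symm
    have e2 : coef lam τ m = coef (fun i : J => lam i.1) (fun i : J => τ i.1) m := by
      unfold coef
      exact (linez_sub J (fun i => if lam i = m then τ i else 0) fun i hi => by
        rw [hτ i hi, ite_self]).symm
    have e3 : ∑' i : J, ‖τ i.1‖ / (lam i.1 : ℝ) ^ 3 = ∑' i, ‖τ i‖ / (lam i : ℝ) ^ 3 :=
      linez_sub J (fun i => ‖τ i‖ / (lam i : ℝ) ^ 3) fun i hi => by
        rw [hτ i hi, norm_zero, zero_div]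
    rw [e1, e2]
    exact linez_c (fun i : J => lam i.1) (fun i : J => τ i.1) B (fun i => hl i.1)
      (hs.subtype J) (e3.le.trans hB) N m t₀ hm hmN
  exact ⟨1536, by norm_num, hmain⟩

end MP7ed9c3.Zs
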