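import Pool.Agent.Lib.MP_7ed9c3_nt.Zs.Spec

/-!
# MP_7ed9c3_nt, Zs: moving the line
-/

set_option autoImplicit false

namespace MP7ed9c3.Zs

open Filter Topology MeasureTheory

/-- the integrand -/
noncomputable def rectz_f (G : ℂ → ℂ) (N m : ℕ) (t₀ : ℝ) (s : ℂ) : ℂ :=
  G s * (m : ℂ) ^ s * Complex.exp ((s - (3 + t₀ * Complex.I)) ^ 2 / (N : ℂ) ^ 4)

theorem rectz_avg (G : ℂ → ℂ) (N m : ℕ) (x t₀ : ℝ) :
    avg G N m x t₀ = (∫ y in (t₀ - (N : ℝ) ^ 3)..(t₀ + (N : ℝ) ^ 3),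
      rectz_f G N m t₀ (x + y * Complex.I)) / ((N : ℂ) ^ 2 * (√Real.pi : ℝ)) := by
  unfold avg
  congr 1
  have h1 := intervalIntegral.integral_comp_add_left (a := -(N : ℝ) ^ 3) (b := (N : ℝ) ^ 3)
    (fun y : ℝ => rectz_f G N m t₀ (x + y * Complex.I)) t₀
  rw [show t₀ - (N : ℝ) ^ 3 = t₀ + -(N : ℝ) ^ 3 by ring, ← h1]
  refine intervalIntegral.integral_congr fun u _ => ?_
  simp only [rectz_f, wt]
  have e1 : (((x - 3 : ℝ) : ℂ) + (u : ℂ) * Complex.I) ^ 2 / (N : ℂ) ^ 4 =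
      ((x : ℂ) + ((t₀ + u : ℝ) : ℂ) * Complex.I - (3 + t₀ * Complex.I)) ^ 2 / (N : ℂ) ^ 4 := by
    push_cast
    ring
  have e2 : ((x : ℂ) + ((t₀ : ℂ) + (u : ℂ)) * Complex.I) =
      (x : ℂ) + ((t₀ + u : ℝ) : ℂ) * Complex.I := by push_cast; ring
  rw [e1, e2]

/-- **E2.** -/
theorem rectz : S_Rect := by
  refine ⟨6 * Real.exp 9, by positivity, ?_⟩
  intro G x M t₀ N m hx0 hx3 hm hmN hG hM
  have hN : 1 ≤ N := hm.trans hmN
  have hN1 : (1 : ℝ) ≤ N := by exact_mod_cast hN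
  have hN0 : (0 : ℝ) < N := by linarith
  have hm1 : (1 : ℝ) ≤ m := by exact_mod_cast hm
  have hmN' : (m : ℝ) ≤ N := by exact_mod_cast hmN
  set U : ℝ := (N : ℝ) ^ 3 with hU
  have hU0 : 0 < U := by positivity
  have hM0 : 0 ≤ M := by
    refine (norm_nonneg _).trans (hM (3 + t₀ * Complex.I) ?_)
    refine ⟨?_, ?_, ?_⟩ <;> simp
    linarith
  set z : ℂ := x + (t₀ - U : ℝ) * Complex.I with hz
  set w : ℂ := (3 : ℝ) + (t₀ + U : ℝ) * Complex.I with hw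
  have hzre : z.re = x := by simp [hz]
  have hzim : z.im = t₀ - U := by simp [hz]
  have hwre : w.re = 3 := by simp [hw]
  have hwim : w.im = t₀ + U := by simp [hw]
  have hsub : (Set.uIcc z.re w.re ×ℂ Set.uIcc z.im w.im) ⊆ rect N x t₀ := by
    intro s hs
    rw [Complex.mem_reProdIm, hzre, hwre, hzim, hwim, Set.uIcc_of_le hx3.le,
      Set.uIcc_of_le (by linarith)] at hs
    refine ⟨hs.1.1, hs.1.2, ?_⟩
    rw [abs_le]
    exact ⟨by linarith [hs.2.1], by linarith [hs.2.2]⟩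
  have hm0 : (m : ℂ) ≠ 0 := by exact_mod_cast (by omega : m ≠ 0)
  have hdiff : DifferentiableOn ℂ (rectz_f G N m t₀) (Set.uIcc z.re w.re ×ℂ Set.uIcc z.im w.im) := by
    have h1 : Differentiable ℂ fun s : ℂ => (m : ℂ) ^ s := fun s =>
      (DifferentiableAt.const_cpow differentiableAt_id (Or.inl hm0))
    have h2 : Differentiable ℂ fun s : ℂ =>
        Complex.exp ((s - (3 + t₀ * Complex.I)) ^ 2 / (N : ℂ) ^ 4) := by fun_prop
    exact ((hG.mono hsub).mul h1.differentiableOn).mul h2.differentiableOn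
  have hrect := Complex.integral_boundary_rect_eq_zero_of_differentiableOn
    (rectz_f G N m t₀) z w hdiff
  rw [hzre, hwre, hzim, hwim] at hrect
  -- the bound on the horizontal sides
  set C : ℝ := M * (N : ℝ) ^ 3 * Real.exp (9 - (N : ℝ) ^ 2) with hC
  have hbound : ∀ y b : ℝ, x ≤ y → y ≤ 3 → |b - t₀| = U →
      ‖rectz_f G N m t₀ (y + b * Complex.I)‖ ≤ C := by
    intro y b hxy hy3 hb
    unfold rectz_f
    rw [norm_mul, norm_mul, Complex.norm_exp, Complex.norm_natCast_cpow_of_pos (by omega)]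
    have h1 : ‖G (y + b * Complex.I)‖ ≤ M := by
      refine hM _ ⟨?_, ?_, ?_⟩
      · simpa using hxy
      · simpa using hy3
      · have : ((y : ℂ) + b * Complex.I).im = b := by simp
        rw [this, hb]
    have h2 : (m : ℝ) ^ ((y : ℂ) + b * Complex.I).re ≤ (N : ℝ) ^ 3 := by
      have h3 : ((y : ℂ) + b * Complex.I).re = y := by simp
      rw [h3]
      calc (m : ℝ) ^ y ≤ (m : ℝ) ^ (3 : ℝ) := Real.rpow_le_rpow_of_exponent_le hm1 hy3
        _ = (m : ℝ) ^ 3 := by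
          rw [show (3 : ℝ) = ((3 : ℕ) : ℝ) by norm_num, Real.rpow_natCast]
        _ ≤ (N : ℝ) ^ 3 := pow_le_pow_left₀ (by linarith) hmN' 3
    have h3 : (((y : ℂ) + b * Complex.I - (3 + t₀ * Complex.I)) ^ 2 / (N : ℂ) ^ 4).re =
        ((y - 3) ^ 2 - U ^ 2) / (N : ℝ) ^ 4 := by
      have e1 : (y : ℂ) + b * Complex.I - (3 + t₀ * Complex.I) =
          ((y - 3 : ℝ) : ℂ) + ((b - t₀ : ℝ) : ℂ) * Complex.I := by push_cast; ring
      have e2 : (N : ℂ) ^ 4 = (((N : ℝ) ^ 4 : ℝ) : ℂ) := by push_cast; rfl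
      rw [e1, e2, Complex.div_ofReal_re]
      congr 1
      have e3 : (((y - 3 : ℝ) : ℂ) + ((b - t₀ : ℝ) : ℂ) * Complex.I) ^ 2 =
          (((y - 3) ^ 2 - (b - t₀) ^ 2 : ℝ) : ℂ) +
            ((2 * (y - 3) * (b - t₀) : ℝ) : ℂ) * Complex.I := by
        have : Complex.I ^ 2 = -1 := Complex.I_sq
        push_cast
        linear_combination ((b : ℂ) - t₀) ^ 2 * this
      have e4 : (b - t₀) ^ 2 = U ^ 2 := by rw [← hb, sq_abs]
      rw [e3, Complex.add_re, Complex.ofReal_re, Complex.re_ofReal_mul, Complex.I_re, mul_zero,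
        add_zero, e4]
    have h4 : Real.exp ((((y : ℂ) + b * Complex.I - (3 + t₀ * Complex.I)) ^ 2 /
        (N : ℂ) ^ 4).re) ≤ Real.exp (9 - (N : ℝ) ^ 2) := by
      refine Real.exp_le_exp.2 ?_
      rw [h3]
      have hN4 : (1 : ℝ) ≤ (N : ℝ) ^ 4 := one_le_pow₀ hN1
      rw [div_le_iff₀ (by positivity)]
      have h5 : U ^ 2 = (N : ℝ) ^ 2 * (N : ℝ) ^ 4 := by rw [hU]; ring
      have h6 : (y - 3) ^ 2 ≤ 9 := by nlinarith
      rw [h5]
      nlinarith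
    calc ‖G (y + b * Complex.I)‖ * (m : ℝ) ^ ((y : ℂ) + b * Complex.I).re *
        Real.exp ((((y : ℂ) + b * Complex.I - (3 + t₀ * Complex.I)) ^ 2 / (N : ℂ) ^ 4).re) ≤
        M * (N : ℝ) ^ 3 * Real.exp (9 - (N : ℝ) ^ 2) := by
          refine mul_le_mul (mul_le_mul h1 h2 (by positivity) hM0) h4 (by positivity)
            (by positivity)
      _ = C := rfl
  have hC0 : 0 ≤ C := by positivity
  have hh : ∀ b : ℝ, |b - t₀| = U →
      ‖∫ y : ℝ in x..3, rectz_f G N m t₀ (y + b * Complex.I)‖ ≤ 3 * C := by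
    intro b hb
    have h1 := intervalIntegral.norm_integral_le_of_norm_le_const (a := x) (b := 3) (C := C)
      (f := fun y : ℝ => rectz_f G N m t₀ (y + b * Complex.I)) (fun y hy => by
        rw [Set.uIoc_of_le hx3.le] at hy
        exact hbound y b hy.1.le hy.2 hb)
    refine h1.trans ?_
    rw [abs_of_nonneg (by linarith)]
    nlinarith
  have hh1 := hh (t₀ - U) (by rw [show t₀ - U - t₀ = -U by ring, abs_neg, abs_of_pos hU0])
  have hh2 := hh (t₀ + U) (by rw [show t₀ + U - t₀ = U by ring, abs_of_pos hU0])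
  rw [rectz_avg G N m x t₀, rectz_avg G N m 3 t₀, ← sub_div, norm_div]
  set V3 := ∫ y : ℝ in (t₀ - U)..(t₀ + U), rectz_f G N m t₀ (((3 : ℝ) : ℂ) + y * Complex.I)
    with hV3
  set Vx := ∫ y : ℝ in (t₀ - U)..(t₀ + U), rectz_f G N m t₀ ((x : ℂ) + y * Complex.I) with hVx
  set H1 := ∫ y : ℝ in x..3, rectz_f G N m t₀ ((y : ℂ) + ((t₀ - U : ℝ) : ℂ) * Complex.I) with hH1
  set H2 := ∫ y : ℝ in x..3, rectz_f G N m t₀ ((y : ℂ) + ((t₀ + U : ℝ) : ℂ) * Complex.I) with hH2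
  have heq : Complex.I * (Vx - V3) = H1 - H2 := by
    simp only [smul_eq_mul] at hrect
    linear_combination -hrect
  have hnorm : ‖Vx - V3‖ ≤ 6 * C := by
    have h1 : ‖Vx - V3‖ = ‖H1 - H2‖ := by
      rw [← heq, norm_mul, Complex.norm_I, one_mul]
    rw [h1]
    refine (norm_sub_le _ _).trans ?_
    linarith
  have hnd : ‖((N : ℂ) ^ 2 * (√Real.pi : ℝ))‖ = (N : ℝ) ^ 2 * √Real.pi := by
    rw [norm_mul, norm_pow, Complex.norm_natCast, Complex.norm_real, Real.norm_eq_abs,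
      abs_of_nonneg (Real.sqrt_nonneg _)]
  rw [hnd]
  have hpi : (1 : ℝ) ≤ √Real.pi := by
    rw [Real.one_le_sqrt]
    linarith [Real.pi_gt_three]
  rw [div_le_iff₀ (by positivity)]
  refine hnorm.trans ?_
  have h7 : Real.exp (9 - (N : ℝ) ^ 2) * (N : ℝ) ^ 2 ≤ Real.exp 9 := by
    rw [Real.exp_sub, div_mul_eq_mul_div, div_le_iff₀ (Real.exp_pos _)]
    refine mul_le_mul_of_nonneg_left ?_ (Real.exp_pos _).le
    have := Real.add_one_le_exp ((N : ℝ) ^ 2)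
    linarith
  have h8 : 6 * C = 6 * M * (N : ℝ) * (Real.exp (9 - (N : ℝ) ^ 2) * (N : ℝ) ^ 2) := by
    rw [hC]; ring
  rw [h8]
  have h9 : 6 * M * (N : ℝ) * (Real.exp (9 - (N : ℝ) ^ 2) * (N : ℝ) ^ 2) ≤
      6 * M * (N : ℝ) * Real.exp 9 := mul_le_mul_of_nonneg_left h7 (by positivity)
  refine h9.trans ?_
  have h10 : 6 * Real.exp 9 * M / (N : ℝ) * ((N : ℝ) ^ 2 * √Real.pi) =
      6 * M * (N : ℝ) * Real.exp 9 * √Real.pi := by
    field_simp
  rw [h10]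
  exact le_mul_of_one_le_right (by positivity) hpi

end MP7ed9c3.Zs
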