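import Pool.Agent.Lib.MP_7ed9c3_nt.Zs.Spec

/-!
# MP_7ed9c3_nt, Zs: the coefficient at a prime power
-/

set_option autoImplicit false

namespace MP7ed9c3.Zs

open NumberField IsDedekindDomain Filter Topology

/-- **E9.** -/
theorem coefz : S_Coef := by
  classical
  intro K _ _ α β p hp s f hover k hk
  obtain ⟨hf, hall⟩ := hover
  set T : Finset (HeightOneSpectrum (𝓞 K)) := s.filter fun v => f v ∣ k with hT
  set φ : HeightOneSpectrum (𝓞 K) → HeightOneSpectrum (𝓞 K) × ℕ := fun v => (v, k / f v - 1) with hφ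
  have hφinj : Function.Injective φ := fun v w h => congrArg Prod.fst h
  have hTk : ∀ v ∈ T, v ∈ s ∧ 1 ≤ f v ∧ nm v = p ^ f v ∧ f v ∣ k ∧ 1 ≤ k / f v ∧
      k / f v - 1 + 1 = k / f v ∧ f v * (k / f v) = k := by
    intro v hv
    obtain ⟨hvs, hvk⟩ := Finset.mem_filter.1 hv
    obtain ⟨h1, h2⟩ := hf v hvs
    have h3 : 1 ≤ k / f v := Nat.div_pos (Nat.le_of_dvd (by omega) hvk) (by omega)
    exact ⟨hvs, h1, h2, hvk, h3, by omega, Nat.mul_div_cancel' hvk⟩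
  have hkey : ∀ v ∈ T, nm v ^ (k / f v - 1 + 1) = p ^ k := by
    intro v hv
    obtain ⟨_, _, h2, _, _, h5, h6⟩ := hTk v hv
    rw [h5, h2, ← pow_mul, h6]
  have hsum : coef (lamE K) (tauE α β) (p ^ k) =
      ∑ i ∈ T.map ⟨φ, hφinj⟩, if lamE K i = p ^ k then tauE α β i else 0 := by
    unfold coef
    refine tsum_eq_sum fun i hi => if_neg fun h => hi ?_
    obtain ⟨v, j⟩ := i
    have h' : nm v ^ (j + 1) = p ^ k := h
    have h1 : nm v ∣ p ^ k := by
      rw [← h']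
      exact dvd_pow_self _ (by omega)
    obtain ⟨a, _, ha⟩ := (Nat.dvd_prime_pow hp).1 h1
    have hvs := hall v a ha
    obtain ⟨h2, h3⟩ := hf v hvs
    rw [h3, ← pow_mul] at h'
    have h4 : f v * (j + 1) = k := Nat.pow_right_injective hp.two_le h'
    have h5 : f v ∣ k := ⟨j + 1, h4.symm⟩
    have h6 : k / f v = j + 1 := by
      rw [← h4, Nat.mul_div_cancel_left _ (by omega)]
    rw [Finset.mem_map]
    refine ⟨v, Finset.mem_filter.2 ⟨hvs, h5⟩, ?_⟩
    simp only [hφ, Function.Embedding.coeFn_mk]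
    rw [h6]
    rfl
  rw [hsum, Finset.sum_map, psum, Finset.sum_div]
  have hk0 : (k : ℂ) ≠ 0 := by exact_mod_cast (by omega : k ≠ 0)
  have e1 : ∑ v ∈ s, (if f v ∣ k then (f v : ℂ) * (α v ^ (k / f v) + β v ^ (k / f v)) else 0) / k =
      ∑ v ∈ T, (f v : ℂ) * (α v ^ (k / f v) + β v ^ (k / f v)) / k := by
    rw [hT, Finset.sum_filter]
    refine Finset.sum_congr rfl fun v _ => ?_
    split_ifs
    · rfl
    · rw [zero_div]
  rw [e1]
  refine Finset.sum_congr rfl fun v hv => ?_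
  obtain ⟨_, h1, h2, _, h4, h5, h6⟩ := hTk v hv
  have h7 : lamE K (φ v) = p ^ k := hkey v hv
  simp only [Function.Embedding.coeFn_mk]
  rw [if_pos h7]
  have h8 : ((k / f v - 1 : ℕ) : ℂ) + 1 = ((k / f v : ℕ) : ℂ) := by
    have : ((k / f v - 1 : ℕ) : ℂ) + 1 = ((k / f v - 1 + 1 : ℕ) : ℂ) := by push_cast; rfl
    rw [this, h5]
  have h9 : (k : ℂ) = (f v : ℂ) * ((k / f v : ℕ) : ℂ) := by
    have : (k : ℂ) = ((f v * (k / f v) : ℕ) : ℂ) := by rw [h6]
    rw [this]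
    push_cast
    rfl
  have hf0 : (f v : ℂ) ≠ 0 := by exact_mod_cast (by omega : f v ≠ 0)
  have hd0 : ((k / f v : ℕ) : ℂ) ≠ 0 := by exact_mod_cast (by omega : k / f v ≠ 0)
  simp only [tauE, hφ]
  rw [h5, h8, h9, mul_div_mul_left _ _ hf0]

end MP7ed9c3.Zs
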