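import Pool.Agent.Lib.MP_7ed9c3_nt.Zs.Spec

/-!
# MP_7ed9c3_nt, Zs: Newton's identities
-/

set_option autoImplicit false

namespace MP7ed9c3.Zs

open PowerSeries

/-- the power sums of the roots of `1 - γ X^f` -/
noncomputable def newtonz_one (f : ℕ) (γ : ℂ) : PowerSeries ℂ :=
  PowerSeries.mk fun k => if k = 0 then 0 else if f ∣ k then (f : ℂ) * γ ^ (k / f) else 0

theorem newtonz_factor (f : ℕ) (hf : 1 ≤ f) (γ : ℂ) :
    -(X * d⁄dX ℂ (((1 - Polynomial.C γ * Polynomial.X ^ f : Polynomial ℂ)) : PowerSeries ℂ)) =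
      ((1 - Polynomial.C γ * Polynomial.X ^ f : Polynomial ℂ) : PowerSeries ℂ) *
        newtonz_one f γ := by
  have e1 : ((1 - Polynomial.C γ * Polynomial.X ^ f : Polynomial ℂ) : PowerSeries ℂ) =
      1 - PowerSeries.C γ * X ^ f := by simp
  rw [PowerSeries.derivative_coe, e1]
  have e2 : Polynomial.derivative (1 - Polynomial.C γ * Polynomial.X ^ f : Polynomial ℂ) =
      -(Polynomial.C (γ * f) * Polynomial.X ^ (f - 1)) := by
    simp [Polynomial.derivative_X_pow, mul_assoc]
  rw [e2]
  ext k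
  have e3 : -(X * ((-(Polynomial.C (γ * f) * Polynomial.X ^ (f - 1)) : Polynomial ℂ) :
      PowerSeries ℂ)) = PowerSeries.C (γ * f) * X ^ f := by
    have : (X : PowerSeries ℂ) ^ f = X * X ^ (f - 1) := by
      rw [← pow_succ']
      congr 1
      omega
    rw [this, Polynomial.coe_neg, Polynomial.coe_mul, Polynomial.coe_C, Polynomial.coe_pow,
      Polynomial.coe_X]
    ring
  rw [e3, sub_mul, one_mul, map_sub, mul_assoc, PowerSeries.coeff_C_mul, PowerSeries.coeff_C_mul,
    PowerSeries.coeff_X_pow_mul', PowerSeries.coeff_X_pow]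
  simp only [newtonz_one, PowerSeries.coeff_mk]
  by_cases hk0 : k = 0
  · subst hk0
    have : ¬ (0 = f) := by omega
    simp [this]
  by_cases hdiv : f ∣ k
  · obtain ⟨j, rfl⟩ := hdiv
    have hj : j ≠ 0 := by
      rintro rfl
      simp at hk0
    have hle : f ≤ f * j := Nat.le_mul_of_pos_right f (Nat.pos_of_ne_zero hj)
    have h1 : f * j - f = f * (j - 1) := by
      rw [Nat.mul_sub, mul_one]
    have h2 : f ∣ f * j - f := by rw [h1]; exact dvd_mul_right _ _
    rw [if_neg hk0, if_pos (dvd_mul_right f j), if_pos hle, Nat.mul_div_cancel_left j (by omega)]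
    by_cases hj1 : j = 1
    · subst hj1
      simp
      ring
    · have h3 : f * j - f ≠ 0 := by
        rw [h1]
        have : 0 < j - 1 := by omega
        positivity
      have h4 : ¬ (f * j = f) := by omega
      rw [if_neg h3, if_neg h4, if_pos h2, h1, Nat.mul_div_cancel_left _ (by omega)]
      have h5 : γ ^ j = γ * γ ^ (j - 1) := by
        rw [← pow_succ']
        congr 1
        omega
      rw [h5]
      ring
  · have h1 : ¬ (k = f) := fun h => hdiv (h ▸ dvd_rfl)
    rw [if_neg hk0, if_neg hdiv, if_neg h1]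
    split_ifs with h2 h3 h4
    · simp
    · exfalso
      rcases Nat.dvd_sub_self_right.1 h4 with h5 | h5
      · exact hdiv h5
      · omega
    · simp
    · simp

/-- the local polynomial -/
noncomputable def newtonz_P {J : Type} (s : Finset J) (f : J → ℕ) (α β : J → ℂ) : Polynomial ℂ :=
  ∏ j ∈ s, ((1 - Polynomial.C (α j) * Polynomial.X ^ f j) *
    (1 - Polynomial.C (β j) * Polynomial.X ^ f j))

theorem newtonz_id {J : Type} (s : Finset J) (f : J → ℕ) (α β : J → ℂ) (hf : ∀ j ∈ s, 1 ≤ f j) :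
    -(X * d⁄dX ℂ ((newtonz_P s f α β : Polynomial ℂ) : PowerSeries ℂ)) =
      ((newtonz_P s f α β : Polynomial ℂ) : PowerSeries ℂ) *
        ∑ j ∈ s, (newtonz_one (f j) (α j) + newtonz_one (f j) (β j)) := by
  classical
  induction s using Finset.induction_on with
  | empty => simp [newtonz_P]
  | insert a s ha ih =>
    have ih' := ih fun j hj => hf j (Finset.mem_insert_of_mem hj)
    have ha1 := newtonz_factor (f a) (hf a (Finset.mem_insert_self a s)) (α a)
    have ha2 := newtonz_factor (f a) (hf a (Finset.mem_insert_self a s)) (β a)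
    unfold newtonz_P at ih' ⊢
    rw [Finset.prod_insert ha, Finset.sum_insert ha, Polynomial.coe_mul, Polynomial.coe_mul]
    set Q1 : PowerSeries ℂ :=
      ((1 - Polynomial.C (α a) * Polynomial.X ^ f a : Polynomial ℂ) : PowerSeries ℂ)
    set Q2 : PowerSeries ℂ :=
      ((1 - Polynomial.C (β a) * Polynomial.X ^ f a : Polynomial ℂ) : PowerSeries ℂ)
    set P : PowerSeries ℂ := ((∏ j ∈ s, ((1 - Polynomial.C (α j) * Polynomial.X ^ f j) *
      (1 - Polynomial.C (β j) * Polynomial.X ^ f j)) : Polynomial ℂ) : PowerSeries ℂ)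
    rw [Derivation.leibniz, Derivation.leibniz]
    simp only [smul_eq_mul]
    linear_combination (Q1 * Q2) * ih' + (P * Q2) * ha1 + (P * Q1) * ha2

theorem newtonz_lead {J : Type} (s : Finset J) (f : J → ℕ) (α β : J → ℂ)
    (hf : ∀ j ∈ s, 1 ≤ f j ∧ α j ≠ 0 ∧ β j ≠ 0) :
    (newtonz_P s f α β).coeff (2 * ∑ j ∈ s, f j) = ∏ j ∈ s, (α j * β j) := by
  classical
  have h1 : ∀ j ∈ s, ∀ γ : ℂ, γ ≠ 0 →
      (1 - Polynomial.C γ * Polynomial.X ^ f j : Polynomial ℂ).natDegree = f j ∧
      (1 - Polynomial.C γ * Polynomial.X ^ f j : Polynomial ℂ).leadingCoeff = -γ := by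
    intro j hj γ hγ
    have hfj := (hf j hj).1
    have e1 : (1 - Polynomial.C γ * Polynomial.X ^ f j : Polynomial ℂ) =
        Polynomial.C (-γ) * Polynomial.X ^ f j + Polynomial.C 1 := by
      simp
      ring
    have e2 : (Polynomial.C (-γ) * Polynomial.X ^ f j + Polynomial.C 1 : Polynomial ℂ).natDegree =
        f j := by
      rw [Polynomial.natDegree_add_C, Polynomial.natDegree_C_mul_X_pow _ _ (neg_ne_zero.2 hγ)]
    refine ⟨by rw [e1, e2], ?_⟩
    rw [e1, Polynomial.leadingCoeff, e2, Polynomial.coeff_add, Polynomial.coeff_C_mul_X_pow,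
      if_pos rfl, Polynomial.coeff_C, if_neg (by omega), add_zero]
  have hne : ∀ j ∈ s, ((1 - Polynomial.C (α j) * Polynomial.X ^ f j) *
      (1 - Polynomial.C (β j) * Polynomial.X ^ f j) : Polynomial ℂ) ≠ 0 := by
    intro j hj
    have ha := (h1 j hj (α j) (hf j hj).2.1).2
    have hb := (h1 j hj (β j) (hf j hj).2.2).2
    refine mul_ne_zero ?_ ?_
    · rw [← Polynomial.leadingCoeff_ne_zero, ha]
      exact neg_ne_zero.2 (hf j hj).2.1
    · rw [← Polynomial.leadingCoeff_ne_zero, hb]
      exact neg_ne_zero.2 (hf j hj).2.2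
  have hdeg : (newtonz_P s f α β).natDegree = 2 * ∑ j ∈ s, f j := by
    unfold newtonz_P
    rw [Polynomial.natDegree_prod _ _ hne, Finset.mul_sum]
    refine Finset.sum_congr rfl fun j hj => ?_
    have ha := h1 j hj (α j) (hf j hj).2.1
    have hb := h1 j hj (β j) (hf j hj).2.2
    rw [Polynomial.natDegree_mul, ha.1, hb.1]
    · ring
    · rw [← Polynomial.leadingCoeff_ne_zero, ha.2]
      exact neg_ne_zero.2 (hf j hj).2.1
    · rw [← Polynomial.leadingCoeff_ne_zero, hb.2]
      exact neg_ne_zero.2 (hf j hj).2.2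
  rw [← hdeg, Polynomial.coeff_natDegree]
  unfold newtonz_P
  rw [Polynomial.leadingCoeff_prod]
  refine Finset.prod_congr rfl fun j hj => ?_
  rw [Polynomial.leadingCoeff_mul, (h1 j hj (α j) (hf j hj).2.1).2,
    (h1 j hj (β j) (hf j hj).2.2).2]
  ring

/-- **E5.** -/
theorem newtonz : S_Newton := by
  classical
  intro J s f α β p hp hs hj
  by_contra hcon
  push Not at hcon
  set d : ℕ := 2 * ∑ j ∈ s, f j with hd
  set P := newtonz_P s f α β with hP
  set Ψ : PowerSeries ℂ := ∑ j ∈ s, (newtonz_one (f j) (α j) + newtonz_one (f j) (β j)) with hΨ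
  have hΨ0 : PowerSeries.coeff 0 Ψ = 0 := by
    rw [hΨ, map_sum]
    refine Finset.sum_eq_zero fun j _ => ?_
    simp [newtonz_one]
  have hΨk : ∀ k, 1 ≤ k → PowerSeries.coeff k Ψ = psum s f α β k := by
    intro k hk
    rw [hΨ, map_sum, psum]
    refine Finset.sum_congr rfl fun j _ => ?_
    have hk0 : ¬ (k = 0) := by omega
    simp only [newtonz_one, map_add, PowerSeries.coeff_mk, if_neg hk0]
    split_ifs <;> ring
  have hid := newtonz_id s f α β fun j hj' => (hj j hj').1
  rw [← hP, ← hΨ] at hid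
  have hP0 : P.coeff 0 = 1 := by
    rw [hP, newtonz_P, Polynomial.coeff_zero_eq_eval_zero, Polynomial.eval_prod]
    refine Finset.prod_eq_one fun j hj' => ?_
    have h1 := (hj j hj').1
    have : (0 : ℂ) ^ f j = 0 := zero_pow (by omega)
    simp [this]
  -- the recursion
  have hrec : ∀ k : ℕ, 1 ≤ k → (k : ℂ) * P.coeff k =
      -∑ i ∈ Finset.range k, P.coeff i * PowerSeries.coeff (k - i) Ψ := by
    intro k hk
    have h1 := congrArg (PowerSeries.coeff k) hid
    rw [PowerSeries.coeff_mul, Finset.Nat.sum_antidiagonal_eq_sum_range_succ_mk,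
      Finset.sum_range_succ, Nat.sub_self, hΨ0, mul_zero, add_zero] at h1
    obtain ⟨k', rfl⟩ : ∃ k', k = k' + 1 := ⟨k - 1, by omega⟩
    rw [map_neg, PowerSeries.coeff_succ_X_mul, PowerSeries.coeff_derivative,
      Polynomial.coeff_coe] at h1
    simp only [Polynomial.coeff_coe] at h1
    push_cast
    linear_combination -h1
  have hsq : ∀ i k : ℕ, i ≤ k → √(p ^ i) * √(p ^ (k - i)) = √(p ^ k) := by
    intro i k hik
    rw [← Real.sqrt_mul (by positivity), ← pow_add]
    congr 2
    omega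
  have hmain : ∀ k : ℕ, k ≤ d → ‖P.coeff k‖ ≤ √(p ^ k) ∧ (1 ≤ k → ‖P.coeff k‖ < √(p ^ k)) := by
    intro k
    induction k using Nat.strong_induction_on with
    | _ k ih =>
      intro hkd
      rcases Nat.eq_zero_or_pos k with h0 | hkpos
      · subst h0
        rw [hP0]
        simp
      · have hlt : ‖P.coeff k‖ < √(p ^ k) := by
          have h1 := congrArg norm (hrec k hkpos)
          rw [norm_mul, norm_neg, Complex.norm_natCast] at h1
          have h2 : ‖∑ i ∈ Finset.range k, P.coeff i * PowerSeries.coeff (k - i) Ψ‖ <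
              ∑ i ∈ Finset.range k, √(p ^ k) := by
            refine (norm_sum_le _ _).trans_lt ?_
            refine Finset.sum_lt_sum_of_nonempty ⟨0, Finset.mem_range.2 hkpos⟩ fun i hi => ?_
            have hik := Finset.mem_range.1 hi
            rw [norm_mul, hΨk (k - i) (by omega), ← hsq i k hik.le]
            have h3 := (ih i hik (by omega)).1
            have h4 := hcon (k - i) (by omega) (by omega)
            have h5 : 0 < √(p ^ i) := Real.sqrt_pos.2 (by positivity)
            calc ‖P.coeff i‖ * ‖psum s f α β (k - i)‖ ≤ √(p ^ i) * ‖psum s f α β (k - i)‖ :=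
                  mul_le_mul_of_nonneg_right h3 (norm_nonneg _)
              _ < √(p ^ i) * √(p ^ (k - i)) := mul_lt_mul_of_pos_left h4 h5
          rw [← h1, Finset.sum_const, Finset.card_range, nsmul_eq_mul] at h2
          have hk0 : (0 : ℝ) < k := by exact_mod_cast hkpos
          exact lt_of_mul_lt_mul_left h2 hk0.le
        exact ⟨hlt.le, fun _ => hlt⟩
  have hne : ∀ j ∈ s, 1 ≤ f j ∧ α j ≠ 0 ∧ β j ≠ 0 := by
    intro j hj'
    obtain ⟨h1, h2, h3⟩ := hj j hj'
    have h4 : 0 < √(p ^ f j) := Real.sqrt_pos.2 (by positivity)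
    exact ⟨h1, norm_pos_iff.1 (by rw [h2]; exact h4), norm_pos_iff.1 (by rw [h3]; exact h4)⟩
  have hlead := newtonz_lead s f α β hne
  rw [← hP, ← hd] at hlead
  have hnorm : ‖P.coeff d‖ = √(p ^ d) := by
    rw [hlead, norm_prod]
    have h1 : ∀ j ∈ s, ‖α j * β j‖ = p ^ f j := by
      intro j hj'
      rw [norm_mul, (hj j hj').2.1, (hj j hj').2.2, Real.mul_self_sqrt (by positivity)]
    rw [Finset.prod_congr rfl h1, Finset.prod_pow_eq_pow_sum, hd, mul_comm 2, pow_mul,
      Real.sqrt_sq (by positivity)]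
  have hd1 : 1 ≤ d := by
    obtain ⟨j, hj'⟩ := hs
    have h1 := (hj j hj').1
    have h2 : f j ≤ ∑ j ∈ s, f j := Finset.single_le_sum (fun _ _ => Nat.zero_le _) hj'
    omega
  have h5 := (hmain d le_rfl).2 hd1
  rw [hnorm] at h5
  exact lt_irrefl _ h5

end MP7ed9c3.Zs
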