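import Pool.Agent.Lib.MP_7ed9c3_nt.Zs.Spec

/-!
# MP_7ed9c3_nt, Zs: zeros of a continuation of polynomial growth
-/

set_option autoImplicit false

namespace MP7ed9c3.Zs

open NumberField IsDedekindDomain Filter Topology MeasureTheory

theorem strip (h : S_Box) : S_Strip := by
  intro K _ _ E hE M hM F σ₁ T₀ C A hσ₁ hFd hFb hFp
  obtain ⟨κ₀, V₀, hbox⟩ := h K E hE M hM σ₁ hσ₁
  obtain ⟨B₀, hB₀, hedge⟩ := Zr.edgez K E hE M hM
  set κ : ℝ := max κ₀ 1 with hκ
  have hκ1 : 1 ≤ κ := le_max_right _ _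
  set m : ℝ := |A| + 2 with hm
  have hm2 : 2 ≤ m := by have := abs_nonneg A; linarith
  have hlogT : Tendsto Real.log atTop atTop := Real.tendsto_log_atTop
  have e1 : ∀ᶠ T : ℝ in atTop, |V₀| + 1 + |Real.log B₀| + 2 * m ^ κ ≤ Real.log T :=
    hlogT.eventually_ge_atTop _
  have e2 : ∀ᶠ T : ℝ in atTop, |T₀| + 2 + |σ₁| + |C| * 3 ^ |A| ≤ T := eventually_ge_atTop _
  have e3 : ∀ᶠ T : ℝ in atTop, Real.log T ^ (κ + 1) ≤ T := by
    have h1 := isLittleO_log_rpow_rpow_atTop (κ + 1) (zero_lt_one (α := ℝ))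
    have h2 := h1.bound (zero_lt_one (α := ℝ))
    filter_upwards [h2, eventually_ge_atTop (1 : ℝ)] with T hT hT1
    rw [one_mul, Real.rpow_one, Real.norm_of_nonneg (by linarith : (0 : ℝ) ≤ T)] at hT
    exact (le_abs_self _).trans hT
  obtain ⟨T₁, hT₁⟩ := eventually_atTop.1 (e1.and (e2.and e3))
  refine ⟨κ + 1, T₁, fun T hT => ?_⟩
  obtain ⟨h1, h2, h3⟩ := hT₁ T hT
  have hmκ : 0 ≤ m ^ κ := by positivity
  have hC3 : 0 ≤ |C| * 3 ^ |A| := by positivity
  have hT1 : 1 ≤ T := by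
    have := abs_nonneg T₀; have := abs_nonneg σ₁; linarith
  have hT0 : 0 < T := by linarith
  have hlog1 : 1 ≤ Real.log T := by
    have := abs_nonneg V₀; have := abs_nonneg (Real.log B₀); linarith
  set V : ℝ := m * Real.log T with hV
  have hV1 : 1 ≤ V := by rw [hV]; nlinarith
  have hVV₀ : V₀ ≤ V := by
    have := le_abs_self V₀; have := abs_nonneg (Real.log B₀)
    rw [hV]; nlinarith
  have hVB₀ : Real.log B₀ ≤ V := by
    have := le_abs_self (Real.log B₀); have := abs_nonneg V₀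
    rw [hV]; nlinarith
  have hVκ : V ^ κ₀ ≤ V ^ κ := Real.rpow_le_rpow_of_exponent_le hV1 (le_max_left _ _)
  have hVlog : 2 * V ^ κ ≤ Real.log T ^ (κ + 1) := by
    rw [hV, Real.mul_rpow (by linarith) (by linarith), Real.rpow_add (by linarith),
      Real.rpow_one]
    have h4 : 2 * m ^ κ ≤ Real.log T := by
      have := abs_nonneg V₀; have := abs_nonneg (Real.log B₀); linarith
    have h5 : 0 ≤ Real.log T ^ κ := by positivity
    nlinarith
  have hVT : 2 * V ^ κ ≤ T := hVlog.trans h3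
  have hbd : ∀ s : ℂ, σ₁ < s.re → |s.im - (T + V ^ κ)| < V ^ κ₀ → T < s.im ∧ s.im < 2 * T := by
    intro s _ hs
    rw [abs_lt] at hs
    exact ⟨by linarith [hs.1], by linarith [hs.2]⟩
  have hTT₀ : T₀ ≤ T := by
    have := le_abs_self T₀; have := abs_nonneg σ₁; linarith
  obtain ⟨ρ, hρ1, hρ2, hρ3⟩ := hbox V (T + V ^ κ) hVV₀ F
    (hFd.mono fun s hs => ⟨hs.1, lt_of_le_of_lt hTT₀ (hbd s hs.1 hs.2).1⟩)
    (by
      intro s hs1 hs2
      obtain ⟨hs3, hs4⟩ := hbd s hs1 hs2
      have hs5 : T₀ < s.im := lt_of_le_of_lt hTT₀ hs3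
      rcases le_or_gt 2 s.re with h4 | h4
      · rw [hFp s (by linarith) hs5]
        refine (hedge s h4).2.trans ?_
        rw [← Real.log_le_iff_le_exp hB₀]
        exact hVB₀
      · refine (hFb s hs1 hs5).trans ?_
        have hn1 : ‖s‖ ≤ 3 * T := by
          refine (Complex.norm_le_abs_re_add_abs_im s).trans ?_
          have h5 : |s.re| ≤ 2 + |σ₁| := by
            rw [abs_le]
            constructor
            · have := neg_abs_le σ₁; linarith
            · have := abs_nonneg σ₁; linarith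
          have h6 : |s.im| = s.im := abs_of_pos (by linarith)
          have := abs_nonneg T₀
          rw [h6]
          linarith
        have hn2 : 1 ≤ ‖s‖ := by
          have h5 := Complex.abs_im_le_norm s
          have h6 : |s.im| = s.im := abs_of_pos (by linarith)
          linarith
        have h7 : ‖s‖ ^ A ≤ (3 * T) ^ |A| := by
          calc ‖s‖ ^ A ≤ ‖s‖ ^ |A| := Real.rpow_le_rpow_of_exponent_le hn2 (le_abs_self A)
            _ ≤ (3 * T) ^ |A| := Real.rpow_le_rpow (norm_nonneg _) hn1 (abs_nonneg A)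
        have h8 : C * ‖s‖ ^ A ≤ |C| * (3 * T) ^ |A| := by
          calc C * ‖s‖ ^ A ≤ |C| * ‖s‖ ^ A :=
                mul_le_mul_of_nonneg_right (le_abs_self C) (by positivity)
            _ ≤ |C| * (3 * T) ^ |A| := mul_le_mul_of_nonneg_left h7 (abs_nonneg C)
        refine h8.trans ?_
        have h9 : Real.exp V = T ^ |A| * T ^ (2 : ℝ) := by
          rw [← Real.rpow_add hT0, ← hm, Real.rpow_def_of_pos hT0, hV, mul_comm]
        rw [h9, Real.mul_rpow (by norm_num) hT0.le]
        have h10 : |C| * 3 ^ |A| ≤ T := by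
          have := abs_nonneg T₀; have := abs_nonneg σ₁; linarith
        have h11 : T ≤ T ^ (2 : ℝ) := by
          rw [Real.rpow_two]; nlinarith
        have h12 : 0 ≤ T ^ |A| := by positivity
        calc |C| * (3 ^ |A| * T ^ |A|) = T ^ |A| * (|C| * 3 ^ |A|) := by ring
          _ ≤ T ^ |A| * T ^ (2 : ℝ) := mul_le_mul_of_nonneg_left (h10.trans h11) h12)
    (by
      intro s hs1 hs2
      have hs : σ₁ < s.re := by
        have : 1 / (4 * (Module.finrank ℚ K : ℝ)) ≤ 1 / 4 := by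
          have h5 : (1 : ℝ) ≤ (Module.finrank ℚ K : ℝ) := by
            exact_mod_cast (Module.finrank_pos : 0 < Module.finrank ℚ K)
          apply one_div_le_one_div_of_le (by norm_num)
          linarith
        linarith
      exact hFp s hs1 (lt_of_le_of_lt hTT₀ (hbd s hs hs2).1))
  refine ⟨ρ, hρ3, hρ1, ?_, ?_⟩
  · exact (hbd ρ hρ1 hρ2).1.le
  · rw [abs_lt] at hρ2
    linarith [hρ2.2]

end MP7ed9c3.Zs
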