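import Pool.Agent.Lib.MP_7ed9c3_nt.Zs.Line
import Pool.Agent.Lib.MP_7ed9c3_nt.Zs.Rect
import Pool.Agent.Lib.MP_7ed9c3_nt.Zs.Dual
import Pool.Agent.Lib.MP_7ed9c3_nt.Zs.Core
import Pool.Agent.Lib.MP_7ed9c3_nt.Zs.Newton
import Pool.Agent.Lib.MP_7ed9c3_nt.Zs.Over
import Pool.Agent.Lib.MP_7ed9c3_nt.Zs.Roots
import Pool.Agent.Lib.MP_7ed9c3_nt.Zs.Series
import Pool.Agent.Lib.MP_7ed9c3_nt.Zs.Coef
import Pool.Agent.Lib.MP_7ed9c3_nt.Zs.Count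
import Pool.Agent.Lib.MP_7ed9c3_nt.Zs.Lower
import Pool.Agent.Lib.MP_7ed9c3_nt.Zs.LogBall
import Pool.Agent.Lib.MP_7ed9c3_nt.Zs.Box
import Pool.Agent.Lib.MP_7ed9c3_nt.Zs.Strip

/-!
# MP_7ed9c3_nt: assembly of part Zs
-/

namespace MP7ed9c3.Zs

theorem boxAll : S_Box :=
  box (corez linez rectz dualz) rootsz seriesz (lowerz newtonz overz coefz countz) logballz

theorem stripAll : S_Strip := strip boxAll

end MP7ed9c3.Zs
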