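import Pool.Agent.Lib.MP_7ed9c3_nt.Zs.Spec

/-!
# MP_7ed9c3_nt, Zs: the number of primes
-/

set_option autoImplicit false

namespace MP7ed9c3.Zs

open Filter Topology

theorem countz_small {ε C : ℝ} (hε : 0 < ε) (hε2 : ε ≤ 1 / 2) :
    ∃ P₀ : ℕ, ∀ P : ℕ, P₀ ≤ P → (P : ℝ) ^ (1 - ε) + C ≤ Nat.primeCounting P := by
  have hl2 : 0 < Real.log 2 := Real.log_pos (by norm_num)
  set c : ℝ := Real.log 2 * (ε / 2) with hc
  have hc0 : 0 < c := by positivity
  have h1 : Tendsto (fun x : ℝ => x ^ (1 - ε)) atTop atTop := tendsto_rpow_atTop (by linarith)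
  have h2 : Tendsto (fun x : ℝ => c * x ^ (ε / 2) - 1) atTop atTop :=
    tendsto_atTop_add_const_right _ _ ((tendsto_rpow_atTop (by positivity)).const_mul_atTop hc0)
  have h3 : Tendsto (fun x : ℝ => x ^ (1 - ε) * (c * x ^ (ε / 2) - 1)) atTop atTop :=
    h1.atTop_mul_atTop₀ h2
  have h4 := h3.comp (tendsto_natCast_atTop_atTop (R := ℝ))
  obtain ⟨P₁, hP₁⟩ := eventually_atTop.1 (h4.eventually_ge_atTop (C + 2))
  refine ⟨max P₁ 3, fun P hP => ?_⟩
  have hP3 : 3 ≤ P := (le_max_right _ _).trans hP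
  have hP3' : (3 : ℝ) ≤ P := by exact_mod_cast hP3
  have hP0 : (0 : ℝ) < P := by linarith
  have h5 := hP₁ P ((le_max_left _ _).trans hP)
  simp only [Function.comp_apply] at h5
  have hlog : 0 < Real.log P := Real.log_pos (by linarith)
  have h6 := Chebyshev.pi_ge P
  refine le_trans ?_ h6
  rw [le_div_iff₀ hlog]
  have h7 : Real.log P ≤ (P : ℝ) ^ (ε / 2) / (ε / 2) :=
    Real.log_le_rpow_div hP0.le (by positivity)
  have h8 : Real.log ((P : ℝ) + 1) ≤ 2 * Real.log P := by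
    have : 2 * Real.log P = Real.log ((P : ℝ) ^ 2) := by
      rw [Real.log_pow]
      norm_num
    rw [this]
    refine Real.log_le_log (by linarith) ?_
    nlinarith
  have h9 : (P : ℝ) ^ (1 - ε) + C + 2 ≤ c * (P : ℝ) ^ (1 - ε / 2) := by
    have h10 : (P : ℝ) ^ (1 - ε) * (P : ℝ) ^ (ε / 2) = (P : ℝ) ^ (1 - ε / 2) := by
      rw [← Real.rpow_add hP0]
      congr 1
      ring
    have h11 : (P : ℝ) ^ (1 - ε) * (c * (P : ℝ) ^ (ε / 2) - 1) =
        c * (P : ℝ) ^ (1 - ε / 2) - (P : ℝ) ^ (1 - ε) := by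
      rw [← h10]
      ring
    rw [h11] at h5
    linarith
  have h12 : c * (P : ℝ) ^ (1 - ε / 2) * Real.log P ≤ P * Real.log 2 := by
    have h13 : c * (P : ℝ) ^ (1 - ε / 2) * Real.log P ≤
        c * (P : ℝ) ^ (1 - ε / 2) * ((P : ℝ) ^ (ε / 2) / (ε / 2)) :=
      mul_le_mul_of_nonneg_left h7 (by positivity)
    have h14 : (P : ℝ) ^ (1 - ε / 2) * (P : ℝ) ^ (ε / 2) = P := by
      rw [← Real.rpow_add hP0, show 1 - ε / 2 + ε / 2 = 1 by ring, Real.rpow_one]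
    have h15 : c * (P : ℝ) ^ (1 - ε / 2) * ((P : ℝ) ^ (ε / 2) / (ε / 2)) =
        Real.log 2 * ((P : ℝ) ^ (1 - ε / 2) * (P : ℝ) ^ (ε / 2)) := by
      rw [hc]
      field_simp
    rw [h15, h14] at h13
    linarith
  have h16 := mul_le_mul_of_nonneg_right h9 hlog.le
  nlinarith

/-- **E10.** -/
theorem countz : S_Count := by
  intro ε C hε
  obtain ⟨P₀, hP₀⟩ := countz_small (ε := min ε (1 / 2)) (C := C) (lt_min hε (by norm_num))
    (min_le_right _ _)
  refine ⟨max P₀ 1, fun P hP => ?_⟩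
  have hP1 : (1 : ℝ) ≤ P := by exact_mod_cast (le_max_right _ _).trans hP
  have h1 := hP₀ P ((le_max_left _ _).trans hP)
  have h2 : (P : ℝ) ^ (1 - ε) ≤ (P : ℝ) ^ (1 - min ε (1 / 2)) :=
    Real.rpow_le_rpow_of_exponent_le hP1 (by linarith [min_le_left ε (1 / 2)])
  linarith

end MP7ed9c3.Zs
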