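import Pool.Agent.Lib.MP_7ed9c3_nt.Zs.Spec

/-!
# MP_7ed9c3_nt, Zs: Gaussian integrals
-/

set_option autoImplicit false

namespace MP7ed9c3.Zs

open Filter Topology MeasureTheory

/-- the integrand -/
noncomputable def gz (N : ℕ) (a u : ℝ) : ℂ :=
  Complex.exp (Complex.I * a * u) * Complex.exp (-(1 / (N : ℂ) ^ 4) * (u : ℂ) ^ 2)

theorem gz_cont (N : ℕ) (a : ℝ) : Continuous (gz N a) := by
  unfold gz
  fun_prop

theorem gz_norm (N : ℕ) (a u : ℝ) : ‖gz N a u‖ = Real.exp (-(1 / (N : ℝ) ^ 4) * u ^ 2) := by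
  unfold gz
  rw [norm_mul, Complex.norm_exp, Complex.norm_exp]
  have h1 : (Complex.I * a * u).re = 0 := by simp
  have h2 : -(1 / (N : ℂ) ^ 4) * (u : ℂ) ^ 2 = ((-(1 / (N : ℝ) ^ 4) * u ^ 2 : ℝ) : ℂ) := by
    push_cast; ring
  rw [h1, h2, Complex.ofReal_re, Real.exp_zero, one_mul]

theorem gz_integrable {N : ℕ} (hN : 1 ≤ N) (a : ℝ) : Integrable (gz N a) := by
  have hpos : (0 : ℝ) < 1 / (N : ℝ) ^ 4 := by
    have : (0 : ℝ) < N := by exact_mod_cast hN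
    positivity
  refine (integrable_exp_neg_mul_sq hpos).mono' (gz_cont N a).aestronglyMeasurable ?_
  exact Filter.Eventually.of_forall fun u => (gz_norm N a u).le

theorem gz_full {N : ℕ} (hN : 1 ≤ N) (a : ℝ) :
    ∫ u : ℝ, gz N a u = ((N : ℂ) ^ 2 * (√Real.pi : ℝ)) *
      (Real.exp (-((N : ℝ) ^ 4 * a ^ 2 / 4)) : ℝ) := by
  have hN0 : (0 : ℝ) < N := by exact_mod_cast hN
  have hb : 0 < (1 / (N : ℂ) ^ 4).re := by
    have : (1 / (N : ℂ) ^ 4) = ((1 / (N : ℝ) ^ 4 : ℝ) : ℂ) := by push_cast; ring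
    rw [this, Complex.ofReal_re]
    positivity
  unfold gz
  rw [fourierIntegral_gaussian hb (a : ℂ)]
  have h1 : ((Real.pi : ℂ) / (1 / (N : ℂ) ^ 4)) ^ (1 / 2 : ℂ) = (N : ℂ) ^ 2 * (√Real.pi : ℝ) := by
    have h2 : ((Real.pi : ℂ) / (1 / (N : ℂ) ^ 4)) = ((Real.pi * (N : ℝ) ^ 4 : ℝ) : ℂ) := by
      push_cast
      field_simp
    have h3 : (1 / 2 : ℂ) = ((1 / 2 : ℝ) : ℂ) := by push_cast; ring
    rw [h2, h3, ← Complex.ofReal_cpow (by positivity), ← Real.sqrt_eq_rpow,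
      Real.sqrt_mul (by positivity)]
    have h4 : √((N : ℝ) ^ 4) = (N : ℝ) ^ 2 := by
      rw [show (N : ℝ) ^ 4 = ((N : ℝ) ^ 2) ^ 2 by ring]
      exact Real.sqrt_sq (by positivity)
    rw [h4]
    push_cast
    ring
  rw [h1]
  congr 1
  rw [Complex.ofReal_exp]
  congr 1
  have : (N : ℂ) ≠ 0 := by exact_mod_cast hN0.ne'
  push_cast
  field_simp

/-- the truncated integral -/
theorem gz_main {N : ℕ} (hN : 1 ≤ N) (a : ℝ) :
    ‖(∫ u in (-(N : ℝ) ^ 3)..((N : ℝ) ^ 3), gz N a u) / ((N : ℂ) ^ 2 * (√Real.pi : ℝ)) -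
      (Real.exp (-((N : ℝ) ^ 4 * a ^ 2 / 4)) : ℝ)‖ ≤ 2 * Real.exp (-((N : ℝ) ^ 2 / 2)) := by
  have hN0 : (0 : ℝ) < N := by exact_mod_cast hN
  have hpi := Real.pi_pos
  set U : ℝ := (N : ℝ) ^ 3 with hU
  have hU0 : 0 < U := by positivity
  have hden : ((N : ℂ) ^ 2 * (√Real.pi : ℝ)) ≠ 0 := by
    have h1 : (N : ℂ) ≠ 0 := by exact_mod_cast hN0.ne'
    have h2 : ((√Real.pi : ℝ) : ℂ) ≠ 0 := by
      exact_mod_cast (Real.sqrt_pos.2 hpi).ne'
    exact mul_ne_zero (pow_ne_zero _ h1) h2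
  have e1 : (Real.exp (-((N : ℝ) ^ 4 * a ^ 2 / 4)) : ℝ) =
      (∫ u : ℝ, gz N a u) / ((N : ℂ) ^ 2 * (√Real.pi : ℝ)) := by
    rw [gz_full hN a, mul_div_cancel_left₀ _ hden]
  rw [e1, ← sub_div, norm_div]
  have hnd : ‖((N : ℂ) ^ 2 * (√Real.pi : ℝ))‖ = (N : ℝ) ^ 2 * √Real.pi := by
    rw [norm_mul, norm_pow, Complex.norm_natCast, Complex.norm_real, Real.norm_eq_abs,
      abs_of_nonneg (Real.sqrt_nonneg _)]
  rw [hnd, div_le_iff₀ (by positivity)]
  rw [intervalIntegral.integral_of_le (by linarith), norm_sub_rev]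
  have hI := gz_integrable hN a
  have e2 : (∫ u : ℝ, gz N a u) - ∫ u in Set.Ioc (-U) U, gz N a u =
      ∫ u in (Set.Ioc (-U) U)ᶜ, gz N a u := by
    rw [← integral_add_compl measurableSet_Ioc hI]
    ring
  rw [e2]
  have hpos2 : (0 : ℝ) < 1 / (2 * (N : ℝ) ^ 4) := by positivity
  have hI2 := integrable_exp_neg_mul_sq hpos2
  calc ‖∫ u in (Set.Ioc (-U) U)ᶜ, gz N a u‖ ≤ ∫ u in (Set.Ioc (-U) U)ᶜ, ‖gz N a u‖ :=
        norm_integral_le_integral_norm _
    _ ≤ ∫ u in (Set.Ioc (-U) U)ᶜ, Real.exp (-((N : ℝ) ^ 2 / 2)) *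
          Real.exp (-(1 / (2 * (N : ℝ) ^ 4)) * u ^ 2) := by
        refine setIntegral_mono_on hI.norm.integrableOn (hI2.const_mul _).integrableOn
          measurableSet_Ioc.compl fun u hu => ?_
        rw [gz_norm, ← Real.exp_add]
        refine Real.exp_le_exp.2 ?_
        have hu2 : U ^ 2 ≤ u ^ 2 := by
          rw [Set.mem_compl_iff, Set.mem_Ioc, not_and_or, not_lt, not_le] at hu
          rcases hu with h | h <;> nlinarith
        have h3 : (N : ℝ) ^ 2 / 2 ≤ 1 / (2 * (N : ℝ) ^ 4) * u ^ 2 := by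
          have h4 : (N : ℝ) ^ 2 / 2 = 1 / (2 * (N : ℝ) ^ 4) * U ^ 2 := by
            rw [hU]
            field_simp
          rw [h4]
          exact mul_le_mul_of_nonneg_left hu2 hpos2.le
        have h5 : 1 / (N : ℝ) ^ 4 = 2 * (1 / (2 * (N : ℝ) ^ 4)) := by field_simp
        rw [h5]
        linarith
    _ ≤ ∫ u : ℝ, Real.exp (-((N : ℝ) ^ 2 / 2)) * Real.exp (-(1 / (2 * (N : ℝ) ^ 4)) * u ^ 2) :=
        setIntegral_le_integral (hI2.const_mul _)
          (Filter.Eventually.of_forall fun u => by positivity)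
    _ = Real.exp (-((N : ℝ) ^ 2 / 2)) * √(Real.pi / (1 / (2 * (N : ℝ) ^ 4))) := by
        rw [integral_const_mul, integral_gaussian]
    _ ≤ 2 * Real.exp (-((N : ℝ) ^ 2 / 2)) * ((N : ℝ) ^ 2 * √Real.pi) := by
        have h6 : √(Real.pi / (1 / (2 * (N : ℝ) ^ 4))) ≤ 2 * ((N : ℝ) ^ 2 * √Real.pi) := by
          have h7 : Real.pi / (1 / (2 * (N : ℝ) ^ 4)) = 2 * (Real.pi * (N : ℝ) ^ 4) := by
            field_simp
          rw [h7]
          refine Real.sqrt_le_iff.2 ⟨by positivity, ?_⟩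
          have h8 : (2 * ((N : ℝ) ^ 2 * √Real.pi)) ^ 2 = 4 * (Real.pi * (N : ℝ) ^ 4) := by
            rw [mul_pow, mul_pow, Real.sq_sqrt hpi.le]
            ring
          rw [h8]
          have : 0 ≤ Real.pi * (N : ℝ) ^ 4 := by positivity
          linarith
        have h9 := mul_le_mul_of_nonneg_left h6 (Real.exp_pos (-((N : ℝ) ^ 2 / 2))).le
        linarith

/-- the gap of the logarithms -/
theorem gz_gap {m l N : ℕ} (hm : 1 ≤ m) (hl : 1 ≤ l) (hne : m ≠ l) (hmN : m ≤ N) :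
    1 / (2 * (N : ℝ)) ≤ |Real.log m - Real.log l| := by
  have hm0 : (0 : ℝ) < m := by exact_mod_cast hm
  have hl0 : (0 : ℝ) < l := by exact_mod_cast hl
  have hN1 : 1 ≤ N := hm.trans hmN
  have hN0 : (0 : ℝ) < N := by exact_mod_cast hN1
  have hmN' : (m : ℝ) ≤ N := by exact_mod_cast hmN
  rcases lt_or_gt_of_ne hne with h | h
  · -- `m < l`
    have h1 : (m : ℝ) + 1 ≤ l := by exact_mod_cast h
    have h2 : Real.log ((m : ℝ) + 1) ≤ Real.log l := Real.log_le_log (by linarith) h1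
    have h3 : 1 / ((m : ℝ) + 1) ≤ Real.log ((m : ℝ) + 1) - Real.log m := by
      rw [← Real.log_div (by linarith) hm0.ne']
      have h4 := Real.one_sub_inv_le_log_of_pos (show 0 < ((m : ℝ) + 1) / m by positivity)
      refine le_trans (le_of_eq ?_) h4
      field_simp
      ring
    have h5 : 1 / (2 * (N : ℝ)) ≤ 1 / ((m : ℝ) + 1) := by
      apply one_div_le_one_div_of_le (by linarith)
      have : (1 : ℝ) ≤ N := by exact_mod_cast hN1
      linarith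
    rw [abs_sub_comm]
    exact (h5.trans (h3.trans (by linarith))).trans (le_abs_self _)
  · have h1 : (l : ℝ) + 1 ≤ m := by exact_mod_cast h
    have h2 : Real.log ((l : ℝ) + 1) ≤ Real.log m := Real.log_le_log (by linarith) h1
    have h3 : 1 / ((l : ℝ) + 1) ≤ Real.log ((l : ℝ) + 1) - Real.log l := by
      rw [← Real.log_div (by linarith) hl0.ne']
      have h4 := Real.one_sub_inv_le_log_of_pos (show 0 < ((l : ℝ) + 1) / l by positivity)
      refine le_trans (le_of_eq ?_) h4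
      field_simp
      ring
    have h5 : 1 / (2 * (N : ℝ)) ≤ 1 / ((l : ℝ) + 1) := by
      apply one_div_le_one_div_of_le (by linarith)
      linarith
    exact (h5.trans (h3.trans (by linarith))).trans (le_abs_self _)

/-- the off-diagonal Gaussian -/
theorem gz_off {m l N : ℕ} (hm : 1 ≤ m) (hl : 1 ≤ l) (hne : m ≠ l) (hmN : m ≤ N) :
    Real.exp (-((N : ℝ) ^ 4 * (Real.log m - Real.log l) ^ 2 / 4)) ≤
      Real.exp (-((N : ℝ) ^ 2 / 16)) := by
  refine Real.exp_le_exp.2 (neg_le_neg ?_)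
  have hN0 : (0 : ℝ) < N := by exact_mod_cast hm.trans hmN
  have h1 := gz_gap hm hl hne hmN
  have h2 : (1 / (2 * (N : ℝ))) ^ 2 ≤ (Real.log m - Real.log l) ^ 2 := by
    rw [← sq_abs (Real.log m - Real.log l)]
    exact pow_le_pow_left₀ (by positivity) h1 2
  have h3 := mul_le_mul_of_nonneg_left h2 (show 0 ≤ (N : ℝ) ^ 4 / 4 by positivity)
  have h4 : (N : ℝ) ^ 4 / 4 * (1 / (2 * (N : ℝ))) ^ 2 = (N : ℝ) ^ 2 / 16 := by
    field_simp
    ring
  rw [h4] at h3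
  linarith

end MP7ed9c3.Zs
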